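import Pool.Agent.H.MP_7a8a58_gt.h83.Defs

set_option autoImplicit false

open Set Metric Topology Filter

namespace H83T

variable {E : Type*} [NormedAddCommGroup E] [NormedSpace ℝ E] [FiniteDimensional ℝ E]

/-- Bounded decomposition. PROOF: the linear map `Es A × Es A⁻¹ × F → E`, sum of the inclusions, is
surjective, so it has a linear right inverse, which is continuous (finite dimension). -/
theorem exists_bounded_decomposition (A : E ≃ₗ[ℝ] E) (F : Submodule ℝ E)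
    (h : Es A ⊔ Es A⁻¹ ⊔ F = ⊤) :
    ∃ c > 0, ∀ v : E, ∃ s ∈ Es A, ∃ u ∈ Es A⁻¹, ∃ e ∈ F,
      v = s + u + e ∧ ‖s‖ ≤ c * ‖v‖ ∧ ‖u‖ ≤ c * ‖v‖ ∧ ‖e‖ ≤ c * ‖v‖ := by
  set f : (Es A × Es A⁻¹) × F →ₗ[ℝ] E :=
    ((Es A).subtype.coprod (Es A⁻¹).subtype).coprod F.subtype with hf
  have hsurj : LinearMap.range f = ⊤ := by
    rw [eq_top_iff, ← h]
    rintro v hv
    obtain ⟨w, hw, e, he, rfl⟩ := Submodule.mem_sup.1 hv
    obtain ⟨s, hs, u, hu, rfl⟩ := Submodule.mem_sup.1 hw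
    exact ⟨((⟨s, hs⟩, ⟨u, hu⟩), ⟨e, he⟩), by simp [hf]⟩
  obtain ⟨g, hg⟩ := f.exists_rightInverse_of_surjective hsurj
  set g1 : E →L[ℝ] E := ((Es A).subtype ∘ₗ LinearMap.fst ℝ _ _ ∘ₗ LinearMap.fst ℝ _ _ ∘ₗ
    g).toContinuousLinearMap with hg1
  set g2 : E →L[ℝ] E := ((Es A⁻¹).subtype ∘ₗ LinearMap.snd ℝ _ _ ∘ₗ LinearMap.fst ℝ _ _ ∘ₗ
    g).toContinuousLinearMap with hg2
  set g3 : E →L[ℝ] E := (F.subtype ∘ₗ LinearMap.snd ℝ _ _ ∘ₗ g).toContinuousLinearMap with hg3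
  have hsum : ∀ v, v = g1 v + g2 v + g3 v := by
    intro v
    have h1 := LinearMap.congr_fun hg v
    exact h1.symm
  refine ⟨‖g1‖ + ‖g2‖ + ‖g3‖ + 1, by positivity, fun v => ⟨g1 v, (g v).1.1.2, g2 v, (g v).1.2.2,
    g3 v, (g v).2.2, hsum v, ?_, ?_, ?_⟩⟩
  · refine (g1.le_opNorm v).trans (mul_le_mul_of_nonneg_right ?_ (norm_nonneg v))
    linarith [norm_nonneg g2, norm_nonneg g3]
  · refine (g2.le_opNorm v).trans (mul_le_mul_of_nonneg_right ?_ (norm_nonneg v))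
    linarith [norm_nonneg g1, norm_nonneg g3]
  · refine (g3.le_opNorm v).trans (mul_le_mul_of_nonneg_right ?_ (norm_nonneg v))
    linarith [norm_nonneg g1, norm_nonneg g2]

/-- Uniform contraction modulo `F`.
PROOF: choose a linear `σ : E → E` with `σ v ∈ Es A`, `v - σ v ∈ F` for all `v` and `σ = 0` on `F`
(exists because `Es A ⊔ F = ⊤`: take a complement of `F` contained in `Es A`). `A ^ k (σ v) → 0` for every
`v`, so `‖A ^ k ∘ σ‖ → 0` (finite dimension: check on a basis). For `e ∈ F`: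
`infDist (A ^ k v) F ≤ ‖A ^ k (σ v)‖ = ‖A ^ k (σ (v - e))‖ ≤ ‖A ^ k ∘ σ‖ ‖v - e‖`; take the infimum over
`e`. (`A ^ k v - A ^ k (σ v) ∈ F`.) -/
theorem infDist_contraction (A : E ≃ₗ[ℝ] E) (F : Submodule ℝ E) (hF : ∀ v, A v ∈ F ↔ v ∈ F)
    (h : Es A ⊔ F = ⊤) :
    ∀ δ > 0, ∃ k₀ : ℕ, ∀ k : ℕ, k₀ ≤ k → ∀ v : E,
      infDist ((A ^ k) v) (F : Set E) ≤ δ * infDist v (F : Set E) := by
  intro δ hδ
  -- the projection
  set π : Es A →ₗ[ℝ] E ⧸ F := F.mkQ ∘ₗ (Es A).subtype with hπ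
  have hsurj : LinearMap.range π = ⊤ := by
    rw [eq_top_iff]
    rintro q -
    obtain ⟨v, rfl⟩ := F.mkQ_surjective q
    have hv : v ∈ Es A ⊔ F := by rw [h]; exact Submodule.mem_top
    obtain ⟨s, hs, e, he, rfl⟩ := Submodule.mem_sup.1 hv
    refine ⟨⟨s, hs⟩, ?_⟩
    rw [map_add, hπ]
    have h1 : F.mkQ e = 0 := by
      rw [Submodule.mkQ_apply]
      exact (Submodule.Quotient.mk_eq_zero F).2 he
    rw [h1, add_zero]
    rfl
  obtain ⟨τ, hτ⟩ := π.exists_rightInverse_of_surjective hsurj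
  set σ : E →ₗ[ℝ] E := (Es A).subtype ∘ₗ τ ∘ₗ F.mkQ with hσ
  have hσ1 : ∀ v, σ v ∈ Es A := fun v => (τ (F.mkQ v)).2
  have hσ2 : ∀ v, v - σ v ∈ F := by
    intro v
    rw [← Submodule.Quotient.mk_eq_zero F, ← Submodule.mkQ_apply, map_sub, sub_eq_zero]
    exact (LinearMap.congr_fun hτ (F.mkQ v)).symm
  have hσ3 : ∀ e ∈ F, σ e = 0 := by
    intro e he
    have h1 : F.mkQ e = 0 := by
      rw [Submodule.mkQ_apply]
      exact (Submodule.Quotient.mk_eq_zero F).2 he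
    show ((τ (F.mkQ e) : Es A) : E) = 0
    rw [h1, map_zero]
    rfl
  -- norms
  set B := Module.finBasis ℝ E with hB
  obtain ⟨C, hC, hop⟩ := B.exists_opNorm_le (F := E)
  set fk : ℕ → E →L[ℝ] E := fun k => ((A ^ k : E ≃ₗ[ℝ] E).toLinearMap ∘ₗ σ).toContinuousLinearMap
    with hfk
  have hfkv : ∀ k v, fk k v = (A ^ k) (σ v) := fun _ _ => rfl
  have hev : ∀ᶠ k in atTop, ∀ i, ‖fk k (B i)‖ ≤ δ / C := by
    rw [eventually_all]
    intro i
    have h1 : Tendsto (fun n : ℕ => (A ^ n) (σ (B i))) atTop (𝓝 0) := hσ1 (B i)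
    have h2 := h1.norm
    rw [norm_zero] at h2
    exact h2.eventually_le_const (by positivity)
  obtain ⟨k₀, hk₀⟩ := eventually_atTop.1 hev
  refine ⟨k₀, fun k hk v => ?_⟩
  have hnorm : ‖fk k‖ ≤ δ := by
    have h1 := hop (u := fk k) (M := δ / C) (by positivity) (hk₀ k hk)
    have h2 : C * (δ / C) = δ := by field_simp
    rwa [h2] at h1
  have hpow : ∀ (k : ℕ) (w : E), w ∈ F → (A ^ k) w ∈ F := by
    intro k
    induction k with
    | zero =>
      intro w hw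
      simpa using hw
    | succ k ih =>
      intro w hw
      rw [pow_succ]
      exact ih (A w) ((hF w).2 hw)
  have h3 : infDist ((A ^ k) v) (F : Set E) ≤ ‖fk k v‖ := by
    have h4 := hpow k _ (hσ2 v)
    have h5 := infDist_le_dist_of_mem (x := (A ^ k) v) (s := (F : Set E)) h4
    rw [dist_eq_norm, map_sub, sub_sub_cancel] at h5
    exact h5
  have h6 : infDist ((A ^ k) v) (F : Set E) / δ ≤ infDist v (F : Set E) := by
    rw [le_infDist ⟨0, F.zero_mem⟩]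
    intro e he
    rw [div_le_iff₀ hδ, dist_eq_norm]
    have h7 : fk k v = fk k (v - e) := by
      rw [hfkv, hfkv, map_sub σ, hσ3 e he, sub_zero]
    rw [h7] at h3
    refine h3.trans (((fk k).le_opNorm (v - e)).trans ?_)
    rw [mul_comm]
    exact mul_le_mul_of_nonneg_left hnorm (norm_nonneg _)
  rw [div_le_iff₀ hδ] at h6
  linarith

end H83T
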