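import Pool.Agent.H.MP_7a8a58_gt.h83.Defs

set_option autoImplicit false

open Set Metric Topology Filter

namespace H83T

variable {E : Type*} [NormedAddCommGroup E] [NormedSpace ℝ E] [FiniteDimensional ℝ E]

/-- Determinant and contraction.
PROOF: `det A = det (A|F) * det (A on E ⧸ F)` (choose a basis adapted to `F`; block triangular matrix), so
`|det (A on E ⧸ F)| = 1`. But `A ^ k → 0` on `E ⧸ F` because every class has a representative in `Es A`;
so `det (A on E ⧸ F) ^ k → 0` unless `E ⧸ F` is trivial. -/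
theorem eq_top_of_det (A : E ≃ₗ[ℝ] E) (F : Submodule ℝ E) (hF : ∀ v, A v ∈ F ↔ v ∈ F)
    (hdet : |LinearMap.det (A : E →ₗ[ℝ] E)| = 1) (T : F ≃ₗ[ℝ] F)
    (hT : ∀ v : F, (T v : E) = A v) (hdetT : |LinearMap.det (T : F →ₗ[ℝ] F)| = 1)
    (h : Es A ⊔ F = ⊤) : F = ⊤ := by
  classical
  by_contra hne
  have he : F ≤ F.comap (A : E →ₗ[ℝ] E) := fun v hv => (hF v).2 hv
  have hdet2 := LinearMap.det_eq_det_mul_det F (A : E →ₗ[ℝ] E) he
  have hres : (A : E →ₗ[ℝ] E).restrict he = (T : F →ₗ[ℝ] F) := by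
    ext v
    exact (hT v).symm
  rw [hres] at hdet2
  set B : (E ⧸ F) →ₗ[ℝ] (E ⧸ F) := F.mapQ F (A : E →ₗ[ℝ] E) he with hBdef
  have hB : |LinearMap.det B| = 1 := by
    rw [hdet2, abs_mul, hdetT, one_mul] at hdet
    exact hdet
  let b := Module.finBasis ℝ (E ⧸ F)
  haveI : Nontrivial (E ⧸ F) := Submodule.Quotient.nontrivial_iff.2 hne
  haveI : Nonempty (Fin (Module.finrank ℝ (E ⧸ F))) := ⟨⟨0, Module.finrank_pos⟩⟩
  have hpow : ∀ (k : ℕ) (s : E), (B ^ k) (F.mkQ s) = F.mkQ ((A ^ k) s) := by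
    intro k s
    induction k with
    | zero => simp
    | succ k ih =>
      rw [pow_succ', pow_succ', Module.End.mul_apply, ih]
      rfl
  have hrep : ∀ j, ∃ s ∈ Es A, F.mkQ s = b j := by
    intro j
    obtain ⟨e, hej⟩ := F.mkQ_surjective (b j)
    have hetop : e ∈ Es A ⊔ F := h ▸ Submodule.mem_top
    obtain ⟨s, hs, f, hf, hsf⟩ := Submodule.mem_sup.1 hetop
    refine ⟨s, hs, ?_⟩
    rw [← hej, ← hsf, map_add]
    have : F.mkQ f = 0 := by simpa using hf
    rw [this, add_zero]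
  have htend : Tendsto (fun k : ℕ => LinearMap.toMatrix b b (B ^ k)) atTop (𝓝 0) := by
    refine tendsto_pi_nhds.2 fun i => tendsto_pi_nhds.2 fun j => ?_
    obtain ⟨s, hs, hsj⟩ := hrep j
    have hs' : Tendsto (fun n : ℕ => (A ^ n) s) atTop (𝓝 0) := hs
    have hcont : Continuous ((b.coord i) ∘ₗ F.mkQ) :=
      LinearMap.continuous_of_finiteDimensional _
    have h1 := (hcont.tendsto 0).comp hs'
    rw [map_zero] at h1
    refine h1.congr ?_
    intro k
    rw [LinearMap.toMatrix_apply, ← hsj, hpow]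
    rfl
  have hd : Tendsto (fun k : ℕ => (LinearMap.toMatrix b b (B ^ k)).det) atTop (𝓝 0) := by
    have h1 : Continuous (fun M : Matrix (Fin (Module.finrank ℝ (E ⧸ F)))
        (Fin (Module.finrank ℝ (E ⧸ F))) ℝ => M.det) := continuous_id.matrix_det
    have h2 := (h1.tendsto 0).comp htend
    rw [Matrix.det_zero] at h2
    exact h2
  have hd2 := hd.abs
  have hd3 : (fun k : ℕ => |(LinearMap.toMatrix b b (B ^ k)).det|) = fun _ => (1 : ℝ) := by
    funext k
    rw [LinearMap.det_toMatrix, map_pow, abs_pow, hB, one_pow]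
  rw [hd3, abs_zero] at hd2
  exact one_ne_zero (tendsto_nhds_unique tendsto_const_nhds hd2)

end H83T
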