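import Pool.Agent.H.MP_7a8a58_gt.h83.Defs

set_option autoImplicit false

open Set Metric Topology Filter

namespace H83T

variable {E : Type*} [NormedAddCommGroup E] [NormedSpace ℝ E] [FiniteDimensional ℝ E]

theorem LinD_span (Λ : AddSubgroup E) (hcoc : ∃ R : ℝ, ∀ w : E, ∃ l ∈ Λ, ‖w - l‖ ≤ R) :
    Submodule.span ℝ (Λ : Set E) = ⊤ := by
  by_contra hS
  obtain ⟨f, hf0, hker⟩ := Submodule.exists_le_ker_of_lt_top _ (lt_top_iff_ne_top.2 hS)
  obtain ⟨w, hw⟩ : ∃ w, f w ≠ 0 := by
    by_contra h
    push Not at h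
    exact hf0 (LinearMap.ext h)
  obtain ⟨R, hR⟩ := hcoc
  set F := LinearMap.toContinuousLinearMap f with hF
  have key : ∀ t : ℝ, |t| * |f w| ≤ ‖F‖ * R := by
    intro t
    obtain ⟨l, hl, hlR⟩ := hR (t • w)
    have h1 : f (t • w - l) = t * f w := by
      have h0 : f l = 0 := hker (Submodule.subset_span hl)
      rw [map_sub, map_smul, smul_eq_mul, h0, sub_zero]
    have h2 := F.le_opNorm (t • w - l)
    have h3 : F (t • w - l) = f (t • w - l) := rfl
    rw [h3, h1, Real.norm_eq_abs, abs_mul] at h2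
    exact h2.trans (mul_le_mul_of_nonneg_left hlR (norm_nonneg _))
  have hw' : 0 < |f w| := abs_pos.2 hw
  have h4 : 0 ≤ ‖F‖ * R := by
    have := key 0
    simpa using this
  have h5 := key ((‖F‖ * R + 1) / |f w|)
  rw [abs_of_nonneg (by positivity), div_mul_cancel₀ _ hw'.ne'] at h5
  linarith

/-- A linear automorphism preserving a lattice has determinant `±1`.
PROOF: `Λ` is discrete and spans (a vector at bounded distance from `Λ` in every direction), so it is a
`ℤ`-lattice (`IsZLattice`), it has a `ℤ`-basis which is an `ℝ`-basis; in this basis `T` and `T⁻¹` have integral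
matrices, so `det T` is a unit of `ℤ`. (Or use `ZLattice.covolume` / Haar measure of a fundamental domain.) -/
theorem abs_det_eq_one_of_lattice (Λ : AddSubgroup E)
    (hdisc : ∃ r > 0, ∀ w ∈ Λ, ‖w‖ < r → w = 0)
    (hcoc : ∃ R : ℝ, ∀ w : E, ∃ l ∈ Λ, ‖w - l‖ ≤ R)
    (T : E ≃ₗ[ℝ] E) (hT : ∀ w, T w ∈ Λ ↔ w ∈ Λ) : |LinearMap.det (T : E →ₗ[ℝ] E)| = 1 := by
  classical
  let L : Submodule ℤ E := AddSubgroup.toIntSubmodule Λ
  have hdt : DiscreteTopology L := by
    obtain ⟨r, hr, h⟩ := hdisc
    refine discreteTopology_of_isOpen_singleton_zero ?_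
    have h1 : ({0} : Set L) = (fun x : L => (x : E)) ⁻¹' ball 0 r := by
      ext x
      constructor
      · rintro rfl
        simpa using hr
      · intro hx
        exact Subtype.ext (h x x.2 (by simpa using hx))
    rw [h1]
    exact isOpen_ball.preimage continuous_subtype_val
  have hz : IsZLattice ℝ L := ⟨LinD_span Λ hcoc⟩
  have := ZLattice.module_finite ℝ L
  have := ZLattice.module_free ℝ L
  let b := Module.Free.chooseBasis ℤ L
  let B := b.ofZLatticeBasis ℝ L
  let T' : L ≃ₗ[ℤ] L :=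
    { toFun := fun x => ⟨T x, (hT x).2 x.2⟩
      map_add' := fun x y => Subtype.ext (map_add T _ _)
      map_smul' := fun c x => Subtype.ext (map_zsmul T c _)
      invFun := fun x => ⟨T.symm x, (hT _).1 (by
        rw [T.apply_symm_apply]
        exact x.2)⟩
      left_inv := fun x => Subtype.ext (T.symm_apply_apply _)
      right_inv := fun x => Subtype.ext (T.apply_symm_apply _) }
  have hmat : LinearMap.toMatrix B B (T : E →ₗ[ℝ] E) =
      (LinearMap.toMatrix b b (T' : L →ₗ[ℤ] L)).map (Int.castRingHom ℝ) := by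
    ext i j
    rw [LinearMap.toMatrix_apply, Matrix.map_apply, LinearMap.toMatrix_apply]
    have h1 : T (B j) = ((T' (b j) : L) : E) := by
      change T (b.ofZLatticeBasis ℝ L j) = _
      rw [Module.Basis.ofZLatticeBasis_apply]
      rfl
    change B.repr (T (B j)) i = ((b.repr (T' (b j)) i : ℤ) : ℝ)
    rw [h1]
    exact b.ofZLatticeBasis_repr_apply ℝ L (T' (b j)) i
  rw [← LinearMap.det_toMatrix B, hmat, ← RingHom.mapMatrix_apply, ← RingHom.map_det,
    LinearMap.det_toMatrix b]
  rcases Int.isUnit_iff.1 (LinearEquiv.isUnit_det' T') with h | h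
  · rw [h]
    simp
  · rw [h]
    simp

end H83T
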