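import Pool.Agent.H.MP_7a8a58_gt.h83.Sys
import Pool.Agent.H.MP_7a8a58_gt.h83.LinAlg

set_option autoImplicit false

open Set Metric Topology Filter

namespace H83T

section lin

variable {E : Type*} [NormedAddCommGroup E] [NormedSpace ℝ E]

theorem box_zpow_neg_cancel (A : E ≃ₗ[ℝ] E) (k : ℤ) (v : E) : (A ^ k) ((A ^ (-k)) v) = v := by
  rw [← LinearEquiv.mul_apply, ← zpow_add, add_neg_cancel, zpow_zero]
  rfl

theorem box_pow_cont [FiniteDimensional ℝ E] (B : E ≃ₗ[ℝ] E) : Continuous (fun v => B v) :=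
  LinearMap.continuous_of_finiteDimensional (B : E →ₗ[ℝ] E)

/-- nonzero vectors of the stable space force infinite order -/
theorem box_inf_order (A : E ≃ₗ[ℝ] E) {s : E} (hs : s ∈ Es A) (hs0 : s ≠ 0) :
    ∀ k : ℤ, A ^ k = 1 → k = 0 := by
  intro k hk
  by_contra hk0
  have hp : A ^ k.natAbs = 1 := by
    rcases Int.natAbs_eq k with h | h
    · rw [h] at hk
      exact_mod_cast hk
    · rw [h, zpow_neg, inv_eq_one] at hk
      exact_mod_cast hk
  have hpos : 0 < k.natAbs := Int.natAbs_pos.mpr hk0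
  have h1 : Tendsto (fun n : ℕ => (A ^ n) s) atTop (𝓝 0) := hs
  have h2 : Tendsto (fun n : ℕ => k.natAbs * n) atTop atTop :=
    tendsto_id.const_mul_atTop' hpos
  have h3 := h1.comp h2
  have h4 : ((fun n : ℕ => (A ^ n) s) ∘ fun n : ℕ => k.natAbs * n) = fun _ => s := by
    funext n
    simp only [Function.comp_apply]
    rw [pow_mul, hp, one_pow]
    rfl
  rw [h4] at h3
  exact hs0 (tendsto_nhds_unique tendsto_const_nhds h3)

/-- bound for `A ^ (-k) u`, `k ≥ M` -/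
theorem box_bound [FiniteDimensional ℝ E] (A : E ≃ₗ[ℝ] E) {u : E} (hu : u ∈ Es A⁻¹) (M : ℤ) :
    ∃ B : ℝ, 0 ≤ B ∧ ∀ k : ℤ, M ≤ k → ‖(A ^ (-k)) u‖ ≤ B := by
  have h1 : Tendsto (fun n : ℕ => (A⁻¹ ^ n) u) atTop (𝓝 0) := hu
  have h2 : Tendsto (fun n : ℕ => (A ^ (-M)) ((A⁻¹ ^ n) u)) atTop (𝓝 0) := by
    have h := ((box_pow_cont (A ^ (-M))).tendsto 0).comp h1
    rw [map_zero] at h
    exact h
  have h3 := h2.norm.bddAbove_range
  obtain ⟨B, hB⟩ := h3
  refine ⟨max B 0, le_max_right _ _, fun k hk => ?_⟩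
  obtain ⟨n, hn⟩ := Int.eq_ofNat_of_zero_le (sub_nonneg.mpr hk)
  have h4 : (A ^ (-k)) u = (A ^ (-M)) ((A⁻¹ ^ n) u) := by
    have h5 : A ^ (-k) = A ^ (-M) * A⁻¹ ^ n := by
      have : -k = -M + -(n : ℤ) := by omega
      rw [this, zpow_add, zpow_neg A (n : ℤ), zpow_natCast, inv_pow]
    rw [h5]
    rfl
  rw [h4]
  exact (hB ⟨n, rfl⟩).trans (le_max_left _ _)

/-- `A ^ (-k) s` is small for `k` very negative -/
theorem box_small (A : E ≃ₗ[ℝ] E) {s : E} (hs : s ∈ Es A) {ε : ℝ} (hε : 0 < ε) :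
    ∃ N : ℕ, ∀ k : ℤ, k ≤ -(N : ℤ) → ‖(A ^ (-k)) s‖ ≤ ε := by
  have h1 : Tendsto (fun n : ℕ => (A ^ n) s) atTop (𝓝 0) := hs
  have h2 := h1.norm
  rw [norm_zero] at h2
  have h3 := h2.eventually (Iic_mem_nhds hε)
  obtain ⟨N, hN⟩ := eventually_atTop.mp h3
  refine ⟨N, fun k hk => ?_⟩
  have hk' : (N : ℤ) ≤ -k := by omega
  obtain ⟨n, hn⟩ := Int.eq_ofNat_of_zero_le (show (0 : ℤ) ≤ -k by omega)
  rw [hn, zpow_natCast]
  exact hN n (by omega)

end lin

variable {E : Type*} [NormedAddCommGroup E] [NormedSpace ℝ E] [FiniteDimensional ℝ E]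
variable {X : Type*} [TopologicalSpace X] [T2Space X]
variable {Γ : Type*} [Group Γ] [MulAction Γ X] [ContinuousConstSMul Γ X]
  [ProperlyDiscontinuousSMul Γ X]
variable {D : X → E} {L : Γ →* (E ≃ₗ[ℝ] E)} {b : Γ → E} {A : E ≃ₗ[ℝ] E} {γ₀ : Γ} {K : Set X}
  {ε : ℝ}

/-- Box lemma. -/
theorem CycSys.box (S : CycSys D L b A γ₀ K ε) {x : X} {s u : E} (hs : s ∈ Es A)
    (hu : u ∈ Es A⁻¹) (hsD : s ∈ Dom D x) (huD : u ∈ Dom D x) : u + s ∈ Dom D x := by
  classical
  by_contra hz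
  have hD := S.hD
  have hε := S.ε_pos
  have hs0 : s ≠ 0 := by
    rintro rfl
    rw [add_zero] at hz
    exact hz huD
  have hinf := box_inf_order A hs hs0
  -- minimal failing corner
  set g : ℝ × ℝ → E := fun p => p.1 • u + p.2 • s with hg
  have hgc : Continuous g := by
    rw [hg]
    fun_prop
  set F : Set (ℝ × ℝ) := (Icc (0 : ℝ) 1 ×ˢ Icc (0 : ℝ) 1) ∩ g ⁻¹' (Dom D x)ᶜ with hF
  have hFc : IsCompact F := by
    refine (isCompact_Icc.prod isCompact_Icc).inter_right ?_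
    exact (isOpen_dom hD x).isClosed_compl.preimage hgc
  have hFn : F.Nonempty := by
    refine ⟨(1, 1), ⟨⟨⟨zero_le_one, le_rfl⟩, ⟨zero_le_one, le_rfl⟩⟩, ?_⟩⟩
    simp only [mem_preimage, mem_compl_iff, hg, one_smul]
    exact hz
  obtain ⟨⟨a, c⟩, hac, hmin⟩ := hFc.exists_isMinOn hFn
    (f := fun p : ℝ × ℝ => p.1 + p.2) (by fun_prop)
  obtain ⟨⟨ha, hc⟩, hacD⟩ := hac
  simp only at ha hc
  have hin : ∀ a' c' : ℝ, 0 ≤ a' → 0 ≤ c' → a' ≤ a → c' ≤ c → a' + c' < a + c →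
      a' • u + c' • s ∈ Dom D x := by
    intro a' c' h1 h2 h3 h4 h5
    by_contra h6
    have h7 : ((a', c') : ℝ × ℝ) ∈ F :=
      ⟨⟨⟨h1, h3.trans ha.2⟩, ⟨h2, h4.trans hc.2⟩⟩, h6⟩
    have h8 := hmin h7
    change a + c ≤ a' + c' at h8
    linarith
  have hzD : a • u + c • s ∉ Dom D x := hacD
  have ha0 : 0 < a := by
    rcases eq_or_lt_of_le ha.1 with h | h
    · exfalso
      rw [← h, zero_smul, zero_add] at hzD
      exact hzD (smul_mem_dom hsD hc)
    · exact h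
  have hc0 : 0 < c := by
    rcases eq_or_lt_of_le hc.1 with h | h
    · exfalso
      rw [← h, zero_smul, add_zero] at hzD
      exact hzD (smul_mem_dom huD ha)
    · exact h
  -- the half-open rectangle
  set C : Set E := g '' (Ico (0 : ℝ) a ×ˢ Icc (0 : ℝ) c) with hC
  have hCconv : Convex ℝ C := by
    have hl : IsLinearMap ℝ g := by
      constructor
      · intro p q
        simp only [hg, Prod.fst_add, Prod.snd_add, add_smul]
        abel
      · intro r p
        simp only [hg, Prod.smul_fst, Prod.smul_snd, smul_eq_mul, smul_add, mul_smul]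
    exact ((convex_Ico 0 a).prod (convex_Icc 0 c)).is_linear_image hl
  have hCsub : C ⊆ Dom D x := by
    rintro _ ⟨⟨a', c'⟩, ⟨h1, h2⟩, rfl⟩
    simp only at h1 h2
    exact hin a' c' h1.1 h2.1 h1.2.le h2.2 (by linarith [h1.2, h2.2])
  have hCmem : ∀ a' c' : ℝ, 0 ≤ a' → a' < a → 0 ≤ c' → c' ≤ c → a' • u + c' • s ∈ C :=
    fun a' c' h1 h2 h3 h4 => ⟨(a', c'), ⟨⟨h1, h2⟩, ⟨h3, h4⟩⟩, rfl⟩
  have hseg : ∀ t ∈ Ico (0 : ℝ) 1, t • (a • u + c • s) ∈ C := by
    intro t ht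
    rw [smul_add, smul_smul, smul_smul]
    refine hCmem _ _ (mul_nonneg ht.1 ha.1) ?_ (mul_nonneg ht.1 hc.1) ?_
    · nlinarith [ht.2]
    · nlinarith [ht.2]
  -- the bounds
  obtain ⟨C₀, hC₀⟩ := S.comparable hinf
  have hauD : a • u ∈ Dom D x := smul_mem_dom huD ha
  obtain ⟨ks, hks⟩ := S.exists_PK (ex D x (a • u))
  obtain ⟨N₀, hN₀⟩ := box_small A ((Es A).smul_mem c hs) hε
  set M : ℤ := min (-(N₀ : ℤ)) (ks - 2 * C₀ - 1) with hM
  obtain ⟨B, hB0, hB⟩ := box_bound A hu M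
  set B' : ℝ := B + ‖(A ^ (-ks)) u‖ + 1 with hB'
  have hB'pos : 0 < B' := by positivity
  set h : ℝ := min a (ε / B') with hh
  have hhpos : 0 < h := lt_min ha0 (div_pos hε hB'pos)
  have hha : h ≤ a := min_le_left _ _
  have hhB : h * B' ≤ ε := by
    have : h ≤ ε / B' := min_le_right _ _
    calc h * B' ≤ ε / B' * B' := by gcongr
      _ = ε := div_mul_cancel₀ _ hB'pos.ne'
  set τ : ℝ := a - h with hτ
  have hτ0 : 0 ≤ τ := by linarith
  have hτa : τ < a := by linarith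
  have hvC : τ • u + c • s ∈ C := hCmem τ c hτ0 hτa hc.1 le_rfl
  set y : X := ex D x (τ • u + c • s) with hy
  have hnot : h • u ∉ Dom D y := by
    intro hh'
    apply hzD
    refine ext_corner hD hCconv hCsub hvC ?_ hseg
    have : a • u + c • s - (τ • u + c • s) = h • u := by
      rw [add_sub_add_right_eq_sub, ← sub_smul]
      congr 1
      rw [hτ]
      ring
    rw [this]
    exact hh'
  obtain ⟨k, hk⟩ := S.exists_PK y
  have hkM : k < M := by
    by_contra hkM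
    push Not at hkM
    apply hnot
    rw [← box_zpow_neg_cancel A k (h • u)]
    refine S.chart_PK hk ?_
    rw [map_smul, norm_smul, Real.norm_of_nonneg hhpos.le]
    calc h * ‖(A ^ (-k)) u‖ ≤ h * B' := by
          gcongr
          have := hB k hkM
          have h2 := norm_nonneg ((A ^ (-ks)) u)
          rw [hB']
          linarith
      _ ≤ ε := hhB
  -- the point on the u-axis
  set xt : X := ex D x (τ • u) with hxt
  obtain ⟨l, hl⟩ := S.exists_PK xt
  have h1 : xt = ex D (ex D x (a • u)) (-(h • u)) := by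
    have hcv : Convex ℝ (segment ℝ (0 : E) (a • u)) := convex_segment _ _
    have hsub : segment ℝ (0 : E) (a • u) ⊆ Dom D x := by
      rintro _ ⟨p, q, hp, hq, hpq, rfl⟩
      rw [smul_zero, zero_add]
      exact smul_mem_dom hauD ⟨hq, by linarith⟩
    have h2 : a • u + -(h • u) = τ • u := by
      rw [← sub_eq_add_neg, ← sub_smul]
    have h3 := move hD hcv hsub (v := a • u) (w := -(h • u)) (right_mem_segment _ _ _) ?_
    · rw [h3.2, h2]
    · rw [h2]
      refine ⟨h / a, τ / a, div_nonneg hhpos.le ha.1, div_nonneg hτ0 ha.1, ?_, ?_⟩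
      · rw [← add_div, div_eq_one_iff_eq ha0.ne']
        rw [hτ]
        ring
      · rw [smul_zero, zero_add, smul_smul, div_mul_cancel₀ _ ha0.ne']
  have h2 : |ks - l| ≤ C₀ := by
    refine hC₀ (ex D x (a • u)) ks ((A ^ (-ks)) (-(h • u))) l hks ?_ ?_
    · rw [map_neg, norm_neg, map_smul, norm_smul, Real.norm_of_nonneg hhpos.le]
      calc h * ‖(A ^ (-ks)) u‖ ≤ h * B' := by
            gcongr
            rw [hB']
            linarith
        _ ≤ ε := hhB
    · rw [box_zpow_neg_cancel, ← h1]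
      exact hl
  have h3 : |k - l| ≤ C₀ := by
    refine hC₀ y k ((A ^ (-k)) (-(c • s))) l hk ?_ ?_
    · rw [map_neg, norm_neg]
      exact hN₀ k (by
        have := min_le_left (-(N₀ : ℤ)) (ks - 2 * C₀ - 1)
        omega)
    · rw [box_zpow_neg_cancel]
      have h4 := move hD hCconv hCsub (v := τ • u + c • s) (w := -(c • s)) hvC ?_
      · rw [hy, h4.2, add_neg_cancel_right]
        exact hl
      · rw [add_neg_cancel_right]
        have := hCmem τ 0 hτ0 hτa le_rfl hc.1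
        rwa [zero_smul, add_zero] at this
  have h4 := min_le_right (-(N₀ : ℤ)) (ks - 2 * C₀ - 1)
  rw [abs_le] at h2 h3
  omega

end H83T
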