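import Pool.Agent.H.MP_7a8a58_gt.h83.Norm

set_option autoImplicit false

open Set Metric Topology Filter

namespace H83T

section aux

variable {m : ℕ}

/-- the block matrix with the rows `(M, c)` and `(0, 1)` -/
private def ConvA (M : Matrix (Fin m) (Fin m) ℤ) (c : Fin m → ℤ) :
    Matrix (Fin (m + 1)) (Fin (m + 1)) ℤ :=
  Matrix.of (Fin.snoc (α := fun _ => Fin (m + 1) → ℤ)
    (fun i => Fin.snoc (α := fun _ => ℤ) (M i) (c i)) (Fin.snoc (α := fun _ => ℤ) 0 1))

private theorem ConvA_cc (M : Matrix (Fin m) (Fin m) ℤ) (c : Fin m → ℤ) (i j : Fin m) :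
    ConvA M c i.castSucc j.castSucc = M i j := by simp [ConvA]

private theorem ConvA_cl (M : Matrix (Fin m) (Fin m) ℤ) (c : Fin m → ℤ) (i : Fin m) :
    ConvA M c i.castSucc (Fin.last m) = c i := by simp [ConvA]

private theorem ConvA_lc (M : Matrix (Fin m) (Fin m) ℤ) (c : Fin m → ℤ) (j : Fin m) :
    ConvA M c (Fin.last m) j.castSucc = 0 := by simp [ConvA]

private theorem ConvA_ll (M : Matrix (Fin m) (Fin m) ℤ) (c : Fin m → ℤ) :
    ConvA M c (Fin.last m) (Fin.last m) = 1 := by simp [ConvA]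

private theorem ConvA_mul (M N : Matrix (Fin m) (Fin m) ℤ) (c d : Fin m → ℤ) :
    ConvA M c * ConvA N d = ConvA (M * N) (M.mulVec d + c) := by
  ext i j
  rw [Matrix.mul_apply, Fin.sum_univ_castSucc]
  induction i using Fin.lastCases with
  | last =>
    induction j using Fin.lastCases with
    | last => simp only [ConvA_lc, ConvA_ll, zero_mul, Finset.sum_const_zero, zero_add, mul_one]
    | cast j =>
      simp only [ConvA_lc, ConvA_ll, zero_mul, Finset.sum_const_zero, zero_add, mul_zero]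
  | cast i =>
    induction j using Fin.lastCases with
    | last =>
      simp only [ConvA_cc, ConvA_cl, ConvA_ll, mul_one]
      rfl
    | cast j =>
      simp only [ConvA_cc, ConvA_cl, ConvA_lc, mul_zero, add_zero]
      rfl

private theorem ConvA_one : ConvA (1 : Matrix (Fin m) (Fin m) ℤ) 0 = 1 := by
  ext i j
  induction i using Fin.lastCases with
  | last =>
    induction j using Fin.lastCases with
    | last => rw [ConvA_ll, Matrix.one_apply_eq]
    | cast j => rw [ConvA_lc, Matrix.one_apply_ne (Fin.castSucc_lt_last j).ne']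
  | cast i =>
    induction j using Fin.lastCases with
    | last =>
      rw [ConvA_cl, Matrix.one_apply_ne (Fin.castSucc_lt_last i).ne]
      rfl
    | cast j =>
      rw [ConvA_cc, Matrix.one_apply, Matrix.one_apply]
      simp

private theorem ConvA_mulVec_cast (M : Matrix (Fin m) (Fin m) ℤ) (c : Fin m → ℤ)
    (b : Fin (m + 1) → ℤ) (i : Fin m) : (ConvA M c).mulVec b i.castSucc =
      M.mulVec (fun k => b k.castSucc) i + c i * b (Fin.last m) := by
  rw [Matrix.mulVec, dotProduct, Fin.sum_univ_castSucc]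
  simp only [ConvA_cc, ConvA_cl]
  rfl

private theorem ConvA_mulVec_last (M : Matrix (Fin m) (Fin m) ℤ) (c : Fin m → ℤ)
    (b : Fin (m + 1) → ℤ) : (ConvA M c).mulVec b (Fin.last m) = b (Fin.last m) := by
  rw [Matrix.mulVec, dotProduct, Fin.sum_univ_castSucc]
  simp only [ConvA_lc, ConvA_ll, zero_mul, Finset.sum_const_zero, zero_add, one_mul]

/-- the linear part of the generator -/
private def ConvG (M : GL (Fin m) ℤ) (c : Fin m → ℤ) : GL (Fin (m + 1)) ℤ where
  val := ConvA (M : Matrix (Fin m) (Fin m) ℤ) c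
  inv := ConvA ((M⁻¹ : GL (Fin m) ℤ) : Matrix (Fin m) (Fin m) ℤ)
    (-(((M⁻¹ : GL (Fin m) ℤ) : Matrix (Fin m) (Fin m) ℤ).mulVec c))
  val_inv := by
    rw [ConvA_mul, ← Units.val_mul, mul_inv_cancel, Matrix.mulVec_neg, Matrix.mulVec_mulVec,
      ← Units.val_mul, mul_inv_cancel, Units.val_one, Matrix.one_mulVec, neg_add_cancel,
      ConvA_one]
  inv_val := by
    rw [ConvA_mul, ← Units.val_mul, inv_mul_cancel, Units.val_one, add_neg_cancel, ConvA_one]

/-- elements of `GL` which preserve the last coordinate -/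
private def ConvH (m : ℕ) : Subgroup (GL (Fin (m + 1)) ℤ) where
  carrier := {g | ∀ b : Fin (m + 1) → ℤ,
    (g : Matrix (Fin (m + 1)) (Fin (m + 1)) ℤ).mulVec b (Fin.last m) = b (Fin.last m)}
  one_mem' := by
    intro b
    rw [Units.val_one, Matrix.one_mulVec]
  mul_mem' := by
    intro g h hg hh b
    rw [Units.val_mul, ← Matrix.mulVec_mulVec, hg, hh]
  inv_mem' := by
    intro g hg b
    have h1 := hg (((g⁻¹ : GL (Fin (m + 1)) ℤ) : Matrix (Fin (m + 1)) (Fin (m + 1)) ℤ).mulVec b)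
    rw [Matrix.mulVec_mulVec, ← Units.val_mul, mul_inv_cancel, Units.val_one,
      Matrix.one_mulVec] at h1
    exact h1.symm

private theorem ConvG_mem (M : GL (Fin m) ℤ) (c : Fin m → ℤ) : ConvG M c ∈ ConvH m :=
  fun b => ConvA_mulVec_last _ c b

private theorem ConvG_zpow (M : GL (Fin m) ℤ) (c : Fin m → ℤ) (j : ℤ) (b : Fin (m + 1) → ℤ) :
    ((ConvG M c ^ j : GL (Fin (m + 1)) ℤ) : Matrix (Fin (m + 1)) (Fin (m + 1)) ℤ).mulVec b
      (Fin.last m) = b (Fin.last m) := (ConvH m).zpow_mem (ConvG_mem M c) j b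

private theorem ConvRM_mul {n : ℕ} (g h : GL (Fin n) ℤ) : rM (g * h) = rM g * rM h := by
  unfold rM
  rw [Units.val_mul]
  exact Matrix.map_mul (f := Int.castRingHom ℝ)

private theorem ConvRM_one {n : ℕ} : rM (1 : GL (Fin n) ℤ) = 1 := by
  unfold rM
  rw [Units.val_one]
  exact Matrix.map_one (fun a : ℤ => (a : ℝ)) (by simp) (by simp)

private theorem ConvRV {n : ℕ} (g : GL (Fin n) ℤ) (b : Fin n → ℤ) :
    rV ((g : Matrix (Fin n) (Fin n) ℤ).mulVec b) = (rM g).mulVec (rV b) := by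
  funext i
  exact RingHom.map_mulVec (Int.castRingHom ℝ) (g : Matrix (Fin n) (Fin n) ℤ) b i

private theorem ConvRM_last {g : GL (Fin (m + 1)) ℤ} (hg : g ∈ ConvH m) (x : Fin (m + 1) → ℝ) :
    (rM g).mulVec x (Fin.last m) = x (Fin.last m) := by
  have h1 : ∀ j, (g : Matrix (Fin (m + 1)) (Fin (m + 1)) ℤ) (Fin.last m) j =
      if j = Fin.last m then 1 else 0 := by
    intro j
    have h2 := hg (Pi.single j 1)
    rw [Matrix.mulVec_single_one] at h2
    have h3 : (g : Matrix (Fin (m + 1)) (Fin (m + 1)) ℤ).col j (Fin.last m) =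
      (g : Matrix (Fin (m + 1)) (Fin (m + 1)) ℤ) (Fin.last m) j := rfl
    rw [h3] at h2
    rw [h2, Pi.single_apply]
    by_cases h4 : j = Fin.last m
    · rw [if_pos h4, if_pos h4.symm]
    · rw [if_neg h4, if_neg (Ne.symm h4)]
  rw [Matrix.mulVec, dotProduct]
  have h2 : ∀ j, rM g (Fin.last m) j * x j = if j = Fin.last m then x j else 0 := by
    intro j
    show (((g : Matrix (Fin (m + 1)) (Fin (m + 1)) ℤ) (Fin.last m) j : ℤ) : ℝ) * x j = _
    rw [h1]
    split_ifs <;> simp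
  rw [Finset.sum_congr rfl fun j _ => h2 j, Finset.sum_ite_eq' Finset.univ (Fin.last m) x,
    if_pos (Finset.mem_univ _)]

/-- The group: integral translation parts, the linear part is the power given by the last
coordinate. -/
@[ext] structure ConvT {m : ℕ} (M : GL (Fin m) ℤ) (c : Fin m → ℤ) where
  v : Fin (m + 1) → ℤ

variable (M : GL (Fin m) ℤ) (c : Fin m → ℤ)

/-- the linear part -/
private def ConvT.l (a : ConvT M c) : GL (Fin (m + 1)) ℤ := ConvG M c ^ a.v (Fin.last m)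

instance : Mul (ConvT M c) :=
  ⟨fun a b => ⟨a.v + (a.l M c : Matrix (Fin (m + 1)) (Fin (m + 1)) ℤ).mulVec b.v⟩⟩

instance : One (ConvT M c) := ⟨⟨0⟩⟩

instance : Inv (ConvT M c) :=
  ⟨fun a => ⟨-(((a.l M c)⁻¹ : GL (Fin (m + 1)) ℤ) : Matrix (Fin (m + 1)) (Fin (m + 1)) ℤ).mulVec
    a.v⟩⟩

private theorem ConvT_mul_v (a b : ConvT M c) : (a * b).v =
    a.v + (a.l M c : Matrix (Fin (m + 1)) (Fin (m + 1)) ℤ).mulVec b.v := rfl

private theorem ConvT_one_v : (1 : ConvT M c).v = 0 := rfl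

private theorem ConvT_inv_v (a : ConvT M c) : (a⁻¹).v =
    -(((a.l M c)⁻¹ : GL (Fin (m + 1)) ℤ) : Matrix (Fin (m + 1)) (Fin (m + 1)) ℤ).mulVec a.v := rfl

private theorem ConvT_mul_last (a b : ConvT M c) : (a * b).v (Fin.last m) =
    a.v (Fin.last m) + b.v (Fin.last m) := by
  rw [ConvT_mul_v, Pi.add_apply]
  congr 1
  exact ConvG_zpow M c _ b.v

private theorem ConvT_inv_last (a : ConvT M c) : (a⁻¹).v (Fin.last m) =
    -(a.v (Fin.last m)) := by
  rw [ConvT_inv_v, Pi.neg_apply]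
  congr 1
  have h1 : (a.l M c)⁻¹ ∈ ConvH m := (ConvH m).inv_mem ((ConvH m).zpow_mem (ConvG_mem M c) _)
  exact h1 a.v

private theorem ConvT_l_mul (a b : ConvT M c) : (a * b).l M c = a.l M c * b.l M c := by
  unfold ConvT.l
  rw [ConvT_mul_last, zpow_add]

private theorem ConvT_l_one : (1 : ConvT M c).l M c = 1 := by
  unfold ConvT.l
  rw [ConvT_one_v, Pi.zero_apply, zpow_zero]

private theorem ConvT_l_inv (a : ConvT M c) : (a⁻¹).l M c = (a.l M c)⁻¹ := by
  unfold ConvT.l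
  rw [ConvT_inv_last, zpow_neg]

instance : Group (ConvT M c) :=
  Group.ofLeftAxioms
    (by
      intro a b d
      ext1
      rw [ConvT_mul_v, ConvT_mul_v, ConvT_mul_v, ConvT_mul_v, ConvT_l_mul, Matrix.mulVec_add,
        Units.val_mul, Matrix.mulVec_mulVec, add_assoc])
    (by
      intro a
      ext1
      rw [ConvT_mul_v, ConvT_l_one, ConvT_one_v, Units.val_one, Matrix.one_mulVec, zero_add])
    (by
      intro a
      ext1
      rw [ConvT_mul_v, ConvT_l_inv, ConvT_inv_v, ConvT_one_v, neg_add_cancel])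

instance : SMul (ConvT M c) (Fin (m + 1) → ℝ) :=
  ⟨fun a x => (rM (a.l M c)).mulVec x + rV a.v⟩

private theorem ConvT_smul (a : ConvT M c) (x : Fin (m + 1) → ℝ) :
    a • x = (rM (a.l M c)).mulVec x + rV a.v := rfl

private theorem ConvRV_add {n : ℕ} (a b : Fin n → ℤ) : rV (a + b) = rV a + rV b := by
  funext i
  simp [rV]

private theorem ConvRV_zero {n : ℕ} : rV (0 : Fin n → ℤ) = 0 := by
  funext i
  simp [rV]

instance : MulAction (ConvT M c) (Fin (m + 1) → ℝ) where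
  one_smul x := by
    rw [ConvT_smul, ConvT_l_one, ConvRM_one, Matrix.one_mulVec, ConvT_one_v, ConvRV_zero, add_zero]
  mul_smul a b x := by
    rw [ConvT_smul, ConvT_smul, ConvT_smul, ConvT_l_mul, ConvRM_mul, ConvT_mul_v, ConvRV_add,
      ConvRV, Matrix.mulVec_add, Matrix.mulVec_mulVec]
    abel

private theorem ConvT_smul_last (a : ConvT M c) (x : Fin (m + 1) → ℝ) :
    (a • x) (Fin.last m) = x (Fin.last m) + a.v (Fin.last m) := by
  have h : a.l M c ∈ ConvH m := (ConvH m).zpow_mem (ConvG_mem M c) _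
  rw [ConvT_smul, Pi.add_apply, ConvRM_last h]
  rfl

instance : ContinuousConstSMul (ConvT M c) (Fin (m + 1) → ℝ) where
  continuous_const_smul a := by
    have h1 : Continuous fun x : Fin (m + 1) → ℝ => (rM (a.l M c)).mulVec x + rV a.v :=
      (continuous_const.matrix_mulVec continuous_id).add continuous_const
    exact h1

private theorem ConvBox {n : ℕ} (B : ℝ) : {v : Fin n → ℤ | ∀ i, |(v i : ℝ)| ≤ B}.Finite := by
  have h1 : {v : Fin n → ℤ | ∀ i, |(v i : ℝ)| ≤ B} ⊆
      Set.pi Set.univ fun _ => {k : ℤ | |(k : ℝ)| ≤ B} := fun v hv i _ => hv i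
  refine (Set.Finite.pi' fun _ => ?_).subset fun v hv i => h1 hv i (Set.mem_univ i)
  refine (Set.finite_Icc (-⌈B⌉) ⌈B⌉).subset fun k hk => ?_
  have h2 := abs_le.1 (show |(k : ℝ)| ≤ B from hk)
  have h3 := Int.le_ceil B
  constructor
  · have h4 : -(⌈B⌉ : ℝ) ≤ k := by linarith
    exact_mod_cast h4
  · have h4 : (k : ℝ) ≤ ⌈B⌉ := by linarith
    exact_mod_cast h4

instance : ProperlyDiscontinuousSMul (ConvT M c) (Fin (m + 1) → ℝ) where
  finite_disjoint_inter_image := by
    intro K L hK hL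
    obtain ⟨R, hR⟩ := (hK.isBounded.union hL.isBounded).exists_norm_le
    have hx : ∀ x ∈ K, ‖x‖ ≤ R := fun x hx => hR x (Or.inl hx)
    have hy : ∀ x ∈ L, ‖x‖ ≤ R := fun x hx => hR x (Or.inr hx)
    -- the bounds for the linear parts
    have hC : ∀ j : ℤ, ∃ C : ℝ, ∀ x ∈ K, ‖(rM (ConvG M c ^ j)).mulVec x‖ ≤ C := by
      intro j
      have h1 : Continuous fun x : Fin (m + 1) → ℝ => (rM (ConvG M c ^ j)).mulVec x :=
        continuous_const.matrix_mulVec continuous_id
      exact hK.exists_bound_of_continuousOn h1.continuousOn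
    choose C hC using hC
    have hfin : (⋃ j ∈ {j : ℤ | |(j : ℝ)| ≤ R + R},
        {v : Fin (m + 1) → ℤ | ∀ i, |(v i : ℝ)| ≤ R + C j}).Finite := by
      refine Set.Finite.biUnion ?_ fun j _ => ConvBox _
      refine (Set.finite_Icc (-⌈R + R⌉) ⌈R + R⌉).subset fun k hk => ?_
      have h2 := abs_le.1 (show |(k : ℝ)| ≤ R + R from hk)
      have h3 := Int.le_ceil (R + R)
      constructor
      · have h4 : -(⌈R + R⌉ : ℝ) ≤ k := by linarith
        exact_mod_cast h4
      · have h4 : (k : ℝ) ≤ ⌈R + R⌉ := by linarith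
        exact_mod_cast h4
    have hinj : Set.InjOn (fun a : ConvT M c => a.v) ((fun a : ConvT M c => a.v) ⁻¹'
        (⋃ j ∈ {j : ℤ | |(j : ℝ)| ≤ R + R},
          {v : Fin (m + 1) → ℤ | ∀ i, |(v i : ℝ)| ≤ R + C j})) :=
      fun a _ b _ h => ConvT.ext h
    refine (hfin.preimage hinj).subset fun a ha => ?_
    obtain ⟨y, ⟨x, hxK, hxy⟩, hyL⟩ := ha
    have hxy' : a • x = y := hxy
    have h1 := hx x hxK
    have h2 := hy y hyL
    have h3 := ConvT_smul_last M c a x
    rw [hxy'] at h3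
    have h4 := (norm_le_pi_norm y (Fin.last m)).trans h2
    have h5 := (norm_le_pi_norm x (Fin.last m)).trans h1
    rw [Real.norm_eq_abs] at h4 h5
    refine Set.mem_biUnion (x := a.v (Fin.last m)) ?_ ?_
    · show |((a.v (Fin.last m) : ℤ) : ℝ)| ≤ R + R
      have h6 : ((a.v (Fin.last m) : ℤ) : ℝ) = y (Fin.last m) - x (Fin.last m) := by linarith
      rw [h6]
      exact (abs_sub _ _).trans (add_le_add h4 h5)
    · intro i
      have h6 : rV a.v = y - (rM (ConvG M c ^ a.v (Fin.last m))).mulVec x := by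
        rw [← hxy', ConvT_smul]
        unfold ConvT.l
        abel
      have h7 : ((a.v i : ℤ) : ℝ) = y i - (rM (ConvG M c ^ a.v (Fin.last m))).mulVec x i :=
        congrFun h6 i
      rw [h7]
      have h8 := (norm_le_pi_norm y i).trans h2
      have h9 := (norm_le_pi_norm _ i).trans (hC (a.v (Fin.last m)) x hxK)
      rw [Real.norm_eq_abs] at h8 h9
      exact (abs_sub _ _).trans (add_le_add h8 h9)

/-- the pair -/
private def ConvS : IntAffPair (m + 1) where
  X := Fin (m + 1) → ℝ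
  Γ := ConvT M c
  dev := id
  lin :=
    { toFun := fun a => a.l M c
      map_one' := ConvT_l_one M c
      map_mul' := ConvT_l_mul M c }
  trans := fun a => rV a.v
  isLocalHomeomorph_dev := (Homeomorph.refl _).isLocalHomeomorph
  dev_smul := fun a x => rfl
  free := by
    intro a x hax
    have h1 := ConvT_smul_last M c a x
    rw [hax] at h1
    have h2 : a.v (Fin.last m) = 0 := by
      have h3 : ((a.v (Fin.last m) : ℤ) : ℝ) = 0 := by linarith
      exact_mod_cast h3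
    have h3 : a.l M c = 1 := by
      unfold ConvT.l
      rw [h2, zpow_zero]
    rw [ConvT_smul, h3, ConvRM_one, Matrix.one_mulVec] at hax
    have h4 : rV a.v = 0 := by
      have h5 : x + rV a.v = x + 0 := by rw [hax, add_zero]
      exact add_left_cancel h5
    ext i
    have h5 := congrFun h4 i
    have h6 : ((a.v i : ℤ) : ℝ) = 0 := h5
    have h7 : a.v i = 0 := by exact_mod_cast h6
    rw [h7, ConvT_one_v, Pi.zero_apply]
  cocompact := by
    refine ⟨Set.Icc 0 1, isCompact_Icc, fun x => ?_⟩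
    obtain ⟨j, hj⟩ : ∃ j : ℤ, j = -⌊x (Fin.last m)⌋ := ⟨_, rfl⟩
    obtain ⟨b, hb⟩ : ∃ b : Fin (m + 1) → ℤ,
        b = fun i => -⌊(rM (ConvG M c ^ j)).mulVec x i⌋ := ⟨_, rfl⟩
    have hbl : b (Fin.last m) = j := by
      rw [hb]
      show -⌊(rM (ConvG M c ^ j)).mulVec x (Fin.last m)⌋ = j
      rw [ConvRM_last ((ConvH m).zpow_mem (ConvG_mem M c) _), hj]
    refine ⟨(⟨b⟩ : ConvT M c), ?_⟩
    have h1 : (⟨b⟩ : ConvT M c) • x = (rM (ConvG M c ^ j)).mulVec x + rV b := by
      show (rM (ConvG M c ^ b (Fin.last m))).mulVec x + rV b = _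
      rw [hbl]
    rw [h1]
    constructor
    · intro i
      show (0 : ℝ) ≤ (rM (ConvG M c ^ j)).mulVec x i + ((b i : ℤ) : ℝ)
      rw [hb]
      push_cast
      linarith [Int.floor_le ((rM (ConvG M c ^ j)).mulVec x i)]
    · intro i
      show (rM (ConvG M c ^ j)).mulVec x i + ((b i : ℤ) : ℝ) ≤ 1
      rw [hb]
      push_cast
      linarith [Int.lt_floor_add_one ((rM (ConvG M c ^ j)).mulVec x i)]

end aux

section aux2

variable {m : ℕ} (M : GL (Fin m) ℤ) (c : Fin m → ℤ)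

/-- the powers of the block matrix -/
private theorem Conv_zpow_block (k : ℤ) : ∃ d : Fin m → ℤ,
    ((ConvG M c ^ k : GL (Fin (m + 1)) ℤ) : Matrix (Fin (m + 1)) (Fin (m + 1)) ℤ) =
      ConvA ((M ^ k : GL (Fin m) ℤ) : Matrix (Fin m) (Fin m) ℤ) d := by
  induction k using Int.induction_on with
  | zero =>
    refine ⟨0, ?_⟩
    rw [zpow_zero, zpow_zero, Units.val_one, Units.val_one, ConvA_one]
  | succ k ih =>
    obtain ⟨d, hd⟩ := ih
    refine ⟨(((M ^ (k : ℤ) : GL (Fin m) ℤ) : Matrix (Fin m) (Fin m) ℤ)).mulVec c + d, ?_⟩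
    rw [zpow_add_one, Units.val_mul, hd, zpow_add_one, Units.val_mul, ← ConvA_mul]
    rfl
  | pred k ih =>
    obtain ⟨d, hd⟩ := ih
    refine ⟨(((M ^ (-(k : ℤ)) : GL (Fin m) ℤ) : Matrix (Fin m) (Fin m) ℤ)).mulVec
      (-(((M⁻¹ : GL (Fin m) ℤ) : Matrix (Fin m) (Fin m) ℤ).mulVec c)) + d, ?_⟩
    rw [zpow_sub_one, Units.val_mul, hd, zpow_sub_one, Units.val_mul, ← ConvA_mul]
    rfl

private theorem Conv_zpow_one {k : ℤ} (hk : ConvG M c ^ k = 1) : M ^ k = 1 := by
  obtain ⟨d, hd⟩ := Conv_zpow_block M c k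
  rw [hk, Units.val_one] at hd
  ext i j
  rw [Units.val_one, ← ConvA_cc ((M ^ k : GL (Fin m) ℤ) : Matrix (Fin m) (Fin m) ℤ) d i j, ← hd,
    Matrix.one_apply, Matrix.one_apply]
  simp

private theorem Conv_zpow_shear (hc : (M : Matrix (Fin m) (Fin m) ℤ).mulVec c = c) (k : ℤ)
    (i : Fin m) : ((ConvG M c ^ k : GL (Fin (m + 1)) ℤ) :
      Matrix (Fin (m + 1)) (Fin (m + 1)) ℤ) i.castSucc (Fin.last m) = k * c i := by
  have hc' : ((M⁻¹ : GL (Fin m) ℤ) : Matrix (Fin m) (Fin m) ℤ).mulVec c = c := by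
    conv_lhs => rw [← hc]
    rw [Matrix.mulVec_mulVec, ← Units.val_mul, inv_mul_cancel, Units.val_one, Matrix.one_mulVec]
  have hck : ∀ k : ℤ, ((M ^ k : GL (Fin m) ℤ) : Matrix (Fin m) (Fin m) ℤ).mulVec c = c := by
    intro k
    induction k using Int.induction_on with
    | zero => rw [zpow_zero, Units.val_one, Matrix.one_mulVec]
    | succ k ih => rw [zpow_add_one, Units.val_mul, ← Matrix.mulVec_mulVec, hc, ih]
    | pred k ih => rw [zpow_sub_one, Units.val_mul, ← Matrix.mulVec_mulVec, hc', ih]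
  have key : ∀ k : ℤ, ((ConvG M c ^ k : GL (Fin (m + 1)) ℤ) :
      Matrix (Fin (m + 1)) (Fin (m + 1)) ℤ) =
        ConvA ((M ^ k : GL (Fin m) ℤ) : Matrix (Fin m) (Fin m) ℤ) (k • c) := by
    intro k
    induction k using Int.induction_on with
    | zero => rw [zpow_zero, zpow_zero, Units.val_one, Units.val_one, zero_smul, ConvA_one]
    | succ k ih =>
      have h1 : (ConvG M c : Matrix (Fin (m + 1)) (Fin (m + 1)) ℤ) =
        ConvA (M : Matrix (Fin m) (Fin m) ℤ) c := rfl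
      rw [zpow_add_one, Units.val_mul, ih, zpow_add_one, Units.val_mul, h1, ConvA_mul, hck,
        add_smul, one_smul, add_comm c]
    | pred k ih =>
      have h1 : ((ConvG M c)⁻¹ : GL (Fin (m + 1)) ℤ) = (ConvG M c)⁻¹ := rfl
      have h2 : (((ConvG M c)⁻¹ : GL (Fin (m + 1)) ℤ) : Matrix (Fin (m + 1)) (Fin (m + 1)) ℤ) =
        ConvA ((M⁻¹ : GL (Fin m) ℤ) : Matrix (Fin m) (Fin m) ℤ)
          (-(((M⁻¹ : GL (Fin m) ℤ) : Matrix (Fin m) (Fin m) ℤ).mulVec c)) := rfl
      rw [zpow_sub_one, Units.val_mul, ih, zpow_sub_one, Units.val_mul, h2, ConvA_mul, hc',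
        Matrix.mulVec_neg, hck, sub_smul, one_smul, neg_add_eq_sub]
  rw [key, ConvA_cl]
  simp

/-- the homeomorphism with the product -/
private def ConvΘ (m : ℕ) : (Fin (m + 1) → ℝ) ≃ₜ ((Fin m → ℝ) × ℝ) where
  toFun x := (fun i => x i.castSucc, x (Fin.last m))
  invFun p := Fin.snoc (α := fun _ => ℝ) p.1 p.2
  left_inv x := by
    funext i
    induction i using Fin.lastCases with
    | last => simp
    | cast i => simp
  right_inv p := by
    refine Prod.ext ?_ ?_
    · funext i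
      simp
    · simp
  continuous_toFun := by fun_prop
  continuous_invFun := by
    refine continuous_pi fun i => ?_
    induction i using Fin.lastCases with
    | last =>
      simp only [Fin.snoc_last]
      exact continuous_snd
    | cast i =>
      simp only [Fin.snoc_castSucc]
      exact (continuous_apply i).comp continuous_fst

/-- the generator -/
private def ConvF : ConvT M c := ⟨Pi.single (Fin.last m) 1⟩

private theorem ConvF_last : (ConvF M c).v (Fin.last m) = 1 := by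
  show (Pi.single (Fin.last m) 1 : Fin (m + 1) → ℤ) (Fin.last m) = 1
  rw [Pi.single_eq_same]

private theorem ConvF_zpow (j : ℤ) : ((ConvF M c) ^ j).v (Fin.last m) = j := by
  induction j using Int.induction_on with
  | zero => rw [zpow_zero, ConvT_one_v, Pi.zero_apply]
  | succ k ih => rw [zpow_add_one, ConvT_mul_last, ih, ConvF_last]
  | pred k ih =>
    rw [zpow_sub_one, ConvT_mul_last, ih, ConvT_inv_last, ConvF_last]
    rfl

private theorem ConvF_smul (x : Fin (m + 1) → ℝ) : ConvΘ m (ConvF M c • x) =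
    ((rM M).mulVec (ConvΘ m x).1 + (ConvΘ m x).2 • rV c + 0, (ConvΘ m x).2 + 1) := by
  have h1 : (ConvF M c).l M c = ConvG M c := by
    unfold ConvT.l
    rw [ConvF_last, zpow_one]
  refine Prod.ext ?_ ?_
  · funext i
    show (ConvF M c • x) i.castSucc = ((rM M).mulVec (fun i => x i.castSucc)) i +
      x (Fin.last m) * (c i : ℝ) + 0
    rw [ConvT_smul, h1, Pi.add_apply, add_zero]
    have h2 : rV (ConvF M c).v i.castSucc = 0 := by
      show (((Pi.single (Fin.last m) 1 : Fin (m + 1) → ℤ) i.castSucc : ℤ) : ℝ) = 0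
      rw [Pi.single_eq_of_ne (Fin.castSucc_lt_last i).ne, Int.cast_zero]
    rw [h2, add_zero, Matrix.mulVec, dotProduct, Fin.sum_univ_castSucc]
    have h3 : ∀ j : Fin m, rM (ConvG M c) i.castSucc j.castSucc = rM M i j := by
      intro j
      show ((ConvA (M : Matrix (Fin m) (Fin m) ℤ) c i.castSucc j.castSucc : ℤ) : ℝ) = _
      rw [ConvA_cc]
      rfl
    have h4 : rM (ConvG M c) i.castSucc (Fin.last m) = c i := by
      show ((ConvA (M : Matrix (Fin m) (Fin m) ℤ) c i.castSucc (Fin.last m) : ℤ) : ℝ) = _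
      rw [ConvA_cl]
    simp only [h3, h4]
    rw [mul_comm (c i : ℝ)]
    rfl
  · show (ConvF M c • x) (Fin.last m) = x (Fin.last m) + 1
    rw [ConvT_smul_last, ConvF_last, Int.cast_one]

/-- translations -/
private theorem ConvZ_smul (a : ConvT M c) (ha : a.v (Fin.last m) = 0) (x : Fin (m + 1) → ℝ) :
    ConvΘ m (a • x) = ((ConvΘ m x).1 + (fun i => ((a.v i.castSucc : ℤ) : ℝ)), (ConvΘ m x).2) := by
  have h1 : a.l M c = 1 := by
    unfold ConvT.l
    rw [ha, zpow_zero]
  have h2 : a • x = x + rV a.v := by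
    rw [ConvT_smul, h1, ConvRM_one, Matrix.one_mulVec]
  refine Prod.ext ?_ ?_
  · rw [h2]
    rfl
  · show (a • x) (Fin.last m) = x (Fin.last m)
    rw [ConvT_smul_last, ha, Int.cast_zero, add_zero]

private theorem Conv_quot : Nonempty ((ConvS M c).Quot ⊤ ≃ₜ TorusBundle M) := by
  obtain ⟨Ψ, hΨ1, hΨ2, hΨ3⟩ := exists_normal_form M (rV c) 0
  have hF : ∀ x : Fin (m + 1) → ℝ, Ψ (ConvΘ m (ConvF M c • x)) =
      ((rM M).mulVec (Ψ (ConvΘ m x)).1, (Ψ (ConvΘ m x)).2 + 1) := by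
    intro x
    rw [ConvF_smul, hΨ3, show ((ConvΘ m x).1, (ConvΘ m x).2) = ConvΘ m x from rfl]
    congr 2
    exact (hΨ2 (ConvΘ m x).1 (ConvΘ m x).2).symm
  have hFj : ∀ (j : ℤ) (x : Fin (m + 1) → ℝ), Ψ (ConvΘ m ((ConvF M c) ^ j • x)) =
      ((rM (M ^ j)).mulVec (Ψ (ConvΘ m x)).1, (Ψ (ConvΘ m x)).2 + j) := by
    intro j
    induction j using Int.induction_on with
    | zero =>
      intro x
      rw [zpow_zero, one_smul, zpow_zero, ConvRM_one, Matrix.one_mulVec, Int.cast_zero, add_zero]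
    | succ k ih =>
      intro x
      rw [zpow_add_one, mul_smul, ih, hF, zpow_add_one, ConvRM_mul, ← Matrix.mulVec_mulVec]
      push_cast
      ring_nf
    | pred k ih =>
      intro x
      have h1 := hF ((ConvF M c)⁻¹ • x)
      rw [smul_inv_smul] at h1
      have h2 : (Ψ (ConvΘ m x)).1 = (rM M).mulVec (Ψ (ConvΘ m ((ConvF M c)⁻¹ • x))).1 := by
        rw [h1]
      have h3 : (Ψ (ConvΘ m x)).2 = (Ψ (ConvΘ m ((ConvF M c)⁻¹ • x))).2 + 1 := by
        rw [h1]
      rw [zpow_sub_one, mul_smul, ih, h2, h3, zpow_sub_one, Matrix.mulVec_mulVec, ← ConvRM_mul,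
        inv_mul_cancel_right]
      push_cast
      ring_nf
  have hZ : ∀ (a : ConvT M c), a.v (Fin.last m) = 0 → ∀ x : Fin (m + 1) → ℝ,
      Ψ (ConvΘ m (a • x)) = ((Ψ (ConvΘ m x)).1 + (fun i => ((a.v i.castSucc : ℤ) : ℝ)),
        (Ψ (ConvΘ m x)).2) := by
    intro a ha x
    rw [ConvZ_smul M c a ha, hΨ1]
  have key : ∀ x y : Fin (m + 1) → ℝ, (∃ a : ConvT M c, a • x = y) ↔
      TorusRel M (Ψ (ConvΘ m x)) (Ψ (ConvΘ m y)) := by
    intro x y
    constructor
    · rintro ⟨a, hay⟩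
      obtain ⟨j, hj⟩ : ∃ j : ℤ, j = a.v (Fin.last m) := ⟨_, rfl⟩
      obtain ⟨b, hb⟩ : ∃ b : ConvT M c, b = a * ((ConvF M c) ^ j)⁻¹ := ⟨_, rfl⟩
      have hb0 : b.v (Fin.last m) = 0 := by
        rw [hb, ConvT_mul_last, ConvT_inv_last, ConvF_zpow, hj, add_neg_cancel]
      have hba : b * (ConvF M c) ^ j = a := by rw [hb, inv_mul_cancel_right]
      refine ⟨j, fun i => b.v i.castSucc, ?_, ?_⟩
      · rw [← hay, ← hba, mul_smul, hZ b hb0, hFj]
      · show (Ψ (ConvΘ m y)).1 = (rM (M ^ j)).mulVec (Ψ (ConvΘ m x)).1 + _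
        rw [← hay, ← hba, mul_smul, hZ b hb0, hFj]
    · rintro ⟨j, z, h1, h2⟩
      have h2' : (Ψ (ConvΘ m y)).1 = (rM (M ^ j)).mulVec (Ψ (ConvΘ m x)).1 +
        fun i => (z i : ℝ) := h2
      obtain ⟨b, hb⟩ : ∃ b : ConvT M c, b = ⟨Fin.snoc (α := fun _ => ℤ) z 0⟩ := ⟨_, rfl⟩
      have hb0 : b.v (Fin.last m) = 0 := by
        rw [hb]
        simp
      have hbz : ∀ i : Fin m, b.v i.castSucc = z i := by
        intro i
        rw [hb]
        simp
      refine ⟨b * (ConvF M c) ^ j, ?_⟩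
      apply (ConvΘ m).injective
      apply Ψ.injective
      rw [mul_smul, hZ b hb0, hFj]
      refine Prod.ext ?_ ?_
      · rw [h2']
        simp only [hbz]
      · rw [h1]
  refine orbit_homeo_torusBundle (X := (ConvS M c).X) (Γ := (⊤ : Subgroup (ConvS M c).Γ)) M
    ((ConvΘ m).trans Ψ) fun x y => ?_
  refine Iff.trans ?_ (key x y)
  constructor
  · rintro ⟨⟨a, ha⟩, hax⟩
    exact ⟨a, hax⟩
  · rintro ⟨a, hax⟩
    exact ⟨⟨a, Subgroup.mem_top _⟩, hax⟩

end aux2

/-- The converse construction.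
PROOF: `X = (Fin m → ℝ) × ℝ`, `Γ = ℤ^m ⋊ ℤ` acting by `(z, j) : p ↦ T_z F ^ j p` where
`F (w, t) = (M w + t c, t + 1)`, `T_z (w, t) = (w + z, t)` (`F T_z = T_{M z} F`; a convenient choice: `Γ` = the
subgroup of homeomorphisms `{T_z F ^ j}`, or the semidirect product), `dev` = the linear homeomorphism
`(w, t) ↦ Fin.snoc w t`, `lin (z, j) = [[M, c], [0, 1]] ^ j` (block matrix, `c` integral). Free: `T_z F ^ j p = p`
gives `j = 0` (last coordinate), then `z = 0`. Proper: compact sets are in a box, finitely many `j`, then finitely many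
`z`. Cocompact: `[0,1]^m × [0,1]`. `lin.range = zpowers [[M, c], [0, 1]]`, infinite if `[[M,c],[0,1]]` has infinite
order. The orbit space is `TorusBundle M` by `exists_normal_form` (with `d = 0`) and `orbit_homeo_torusBundle`. -/
theorem exists_pair {m : ℕ} (M : GL (Fin m) ℤ) (c : Fin m → ℤ)
    (hinf : (∀ k : ℤ, M ^ k = 1 → k = 0) ∨
      ((M : Matrix (Fin m) (Fin m) ℤ).mulVec c = c ∧ c ≠ 0)) :
    ∃ S : IntAffPair (m + 1), IsCyclic S.lin.range ∧ Infinite S.lin.range ∧
      Nonempty (S.Quot ⊤ ≃ₜ TorusBundle M) := by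
  have hrange : ∀ g : GL (Fin (m + 1)) ℤ, g ∈ (ConvS M c).lin.range ↔ ∃ j : ℤ, ConvG M c ^ j = g := by
    intro g
    rw [MonoidHom.mem_range]
    constructor
    · rintro ⟨a, rfl⟩
      exact ⟨_, rfl⟩
    · rintro ⟨j, rfl⟩
      refine ⟨(⟨Pi.single (Fin.last m) j⟩ : ConvT M c), ?_⟩
      show ConvG M c ^ (Pi.single (Fin.last m) j : Fin (m + 1) → ℤ) (Fin.last m) = _
      rw [Pi.single_eq_same]
  have hinj : ∀ k : ℤ, ConvG M c ^ k = 1 → k = 0 := by
    intro k hk
    rcases hinf with h1 | ⟨h1, h2⟩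
    · apply h1
      exact Conv_zpow_one M c hk
    · obtain ⟨i, hi⟩ : ∃ i, c i ≠ 0 := by
        by_contra h3
        push Not at h3
        exact h2 (funext h3)
      have h3 := Conv_zpow_shear M c h1 k i
      rw [hk, Units.val_one, Matrix.one_apply_ne (Fin.castSucc_lt_last i).ne] at h3
      exact (mul_eq_zero.1 h3.symm).resolve_right hi
  refine ⟨ConvS M c, ⟨⟨⟨ConvG M c, (hrange _).2 ⟨1, zpow_one _⟩⟩, fun g => ?_⟩⟩, ?_, ?_⟩
  · obtain ⟨j, hj⟩ := (hrange g.1).1 g.2
    exact ⟨j, Subtype.ext hj⟩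
  · refine Infinite.of_injective
      (fun k : ℤ => (⟨ConvG M c ^ k, (hrange _).2 ⟨k, rfl⟩⟩ : (ConvS M c).lin.range)) ?_
    intro k k' hkk
    have h1 : ConvG M c ^ k = ConvG M c ^ k' := congrArg Subtype.val hkk
    have h2 : ConvG M c ^ (k - k') = 1 := by rw [zpow_sub, h1, mul_inv_cancel]
    have h3 := hinj _ h2
    omega
  · exact Conv_quot M c

/-- PROOF: if `det (M - 1) = 0` there is a nonzero integral vector `c` with `M c = c`
(`Matrix.exists_mulVec_eq_zero_iff`); otherwise take `c = 0`. -/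
theorem exists_pair' {m : ℕ} (M : GL (Fin m) ℤ)
    (h : (∀ k : ℤ, M ^ k = 1 → k = 0) ∨ ((M : Matrix (Fin m) (Fin m) ℤ) - 1).det = 0) :
    ∃ S : IntAffPair (m + 1), IsCyclic S.lin.range ∧ Infinite S.lin.range ∧
      Nonempty (S.Quot ⊤ ≃ₜ TorusBundle M) := by
  rcases h with h | h
  · exact exists_pair M 0 (Or.inl h)
  · obtain ⟨c, hc0, hc⟩ := Matrix.exists_mulVec_eq_zero_iff.2 h
    refine exists_pair M c (Or.inr ⟨?_, hc0⟩)
    rw [Matrix.sub_mulVec, Matrix.one_mulVec, sub_eq_zero] at hc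
    exact hc

end H83T
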