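import Pool.Agent.H.MP_7a8a58_gt.h83.Move

set_option autoImplicit false

open Set Metric Topology Filter

namespace H83T

variable {E : Type*} [NormedAddCommGroup E] [NormedSpace ℝ E]
variable {X : Type*} [TopologicalSpace X] [T2Space X]

/-- PROOF: for `v, w ∈ CD D`: `t (v + w) = t v + t w`, use `dom_add_of_path` for `t v`, `t w`. -/
theorem cd_add {D : X → E} (hD : IsLocalHomeomorph D) {v w : E} (hv : v ∈ CD D)
    (hw : w ∈ CD D) : v + w ∈ CD D := by
  intro x t
  rw [smul_add]
  refine (dom_add_of_path hD (hv x t) ?_).1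
  intro r _
  have h := hw (ex D x (r • t • v)) (r * t)
  rwa [mul_smul] at h

/-- The space of complete directions. -/
def Ec (D : X → E) (hD : IsLocalHomeomorph D) : Submodule ℝ E where
  carrier := CD D
  zero_mem' := fun x t => by rw [smul_zero]; exact zero_mem_dom D x
  add_mem' := fun hv hw => cd_add hD hv hw
  smul_mem' := fun c v hv x t => by rw [smul_smul]; exact hv x (t * c)

theorem mem_Ec {D : X → E} {hD : IsLocalHomeomorph D} {v : E} :
    v ∈ Ec D hD ↔ ∀ x, ∀ t : ℝ, t • v ∈ Dom D x := Iff.rfl

/-- PROOF: `dom_add_of_path` with `w = e`. -/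
theorem add_dom {D : X → E} (hD : IsLocalHomeomorph D) {x : X} {v e : E} (he : e ∈ Ec D hD)
    (hv : v ∈ Dom D x) : v + e ∈ Dom D x ∧ ex D x (v + e) = ex D (ex D x v) e := by
  refine dom_add_of_path hD hv ?_
  intro t _
  exact he _ t

/-- PROOF: `add_dom` for `e` and `-e`. -/
theorem add_dom_iff {D : X → E} (hD : IsLocalHomeomorph D) {x : X} {v e : E}
    (he : e ∈ Ec D hD) : v + e ∈ Dom D x ↔ v ∈ Dom D x := by
  refine ⟨fun h => ?_, fun h => (add_dom hD he h).1⟩
  have h1 := (add_dom hD ((Ec D hD).neg_mem he) h).1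
  rwa [add_neg_cancel_right] at h1

/-- PROOF: `t ↦ ex D (ex D x (t • v)) e` is a continuous lift of the segment from `D x + e` to
`D x + e + v` starting at `ex D x e`; and `add_dom`. -/
theorem add_dom' {D : X → E} (hD : IsLocalHomeomorph D) {x : X} {v e : E} (he : e ∈ Ec D hD)
    (hv : v ∈ Dom D x) : v ∈ Dom D (ex D x e) ∧ ex D (ex D x e) v = ex D x (v + e) := by
  have he1 : ∀ y, e ∈ Dom D y := fun y => by
    have := he y 1
    rwa [one_smul] at this
  have hpath : ∀ t ∈ Icc (0 : ℝ) 1, D (ex D (ex D x (t • v)) e) = D x + t • v + e := by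
    intro t ht
    rw [D_ex (he1 _), D_ex (smul_mem_dom hv ht)]
  have h := ex_eq hD (x := ex D x e) (v := v) (y := ex D (ex D x v) e)
    ⟨fun t => ex D (ex D x (t • v)) e, ?_, ?_, ?_, ?_⟩
  · refine ⟨h.1, ?_⟩
    rw [h.2, (add_dom hD he hv).2]
  · have h1 : ContinuousOn (fun t : ℝ => ((ex D x (t • v), e) : X × E)) (Icc 0 1) :=
      (ex_path hD hv).prodMk continuousOn_const
    exact (continuousOn_ex2 hD).comp h1 (fun t _ => he1 _)
  · simp only [zero_smul, ex_zero hD]
  · simp only [one_smul]
  · intro t ht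
    change D (ex D (ex D x (t • v)) e) = _
    rw [hpath t ht, D_ex (he1 x)]
    abel

/-- PROOF: `add_dom'` for `x, e` and for `ex D x e, -e` (use `back`). -/
theorem dom_ex {D : X → E} (hD : IsLocalHomeomorph D) {x : X} {e : E} (he : e ∈ Ec D hD) :
    Dom D (ex D x e) = Dom D x := by
  have he1 : e ∈ Dom D x := by
    have := he x 1
    rwa [one_smul] at this
  apply Subset.antisymm
  · intro v hv
    have h1 := (add_dom' hD ((Ec D hD).neg_mem he) hv).1
    rwa [(back hD he1).2] at h1
  · intro v hv
    exact (add_dom' hD he hv).1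

/-- PROOF: let `v` be given, `t : ℝ`, choose `m` with `|t| / m < δ`; by induction on `j`
`(j t / m) • v ∈ Dom D x` for every `x` (`collinear`-type concatenation). -/
theorem mem_Ec_of_small {D : X → E} (hD : IsLocalHomeomorph D) {v : E} {δ : ℝ} (hδ : 0 < δ)
    (h : ∀ x, ∀ t : ℝ, |t| < δ → t • v ∈ Dom D x) : v ∈ Ec D hD := by
  intro x t
  obtain ⟨m, hm⟩ := exists_nat_gt (|t| / δ)
  have hm0 : (0 : ℝ) < m := lt_of_le_of_lt (div_nonneg (abs_nonneg _) hδ.le) hm
  have hsmall : |t / m| < δ := by
    rw [abs_div, abs_of_pos hm0, div_lt_iff₀ hm0]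
    rw [div_lt_iff₀ hδ] at hm
    linarith
  set r : ℝ := t / m with hr
  have key : ∀ j : ℕ, ∀ y : X, ((j : ℝ) * r) • v ∈ Dom D y := by
    intro j
    induction j with
    | zero =>
      intro y
      rw [Nat.cast_zero, zero_mul, zero_smul]
      exact zero_mem_dom D y
    | succ j ih =>
      intro y
      have h1 : r • v ∈ Dom D y := h y r hsmall
      have h2 := collinear hD (x := y) (v := r • v) (r := (j : ℝ)) (Nat.cast_nonneg j) h1
        (by rw [smul_smul]; exact ih _)
      rw [smul_smul] at h2
      have h3 : ((j + 1 : ℕ) : ℝ) * r = (1 + (j : ℝ)) * r := by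
        push_cast
        ring
      rw [h3]
      exact h2.1
  have h4 := key m x
  have h5 : (m : ℝ) * r = t := by
    rw [hr]
    field_simp
  rwa [h5] at h4

/-- If one star domain is everything then all are.
PROOF: the set of `y` with `Dom D y = univ` is `range (ex D x)`-invariant: if `Dom D y = univ` then
(`move` with `C = univ`) `Dom D (ex D y v) = univ` for all `v`; so the set is open
(`nhds_eq_map_ex`) and closed (if `z = ex D y v` near `y` with small `v` has it, then
`y = ex D z (-v)`). `X` is connected. -/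
theorem Ec_top_of_univ {D : X → E} (hD : IsLocalHomeomorph D) [ConnectedSpace X] {x : X}
    (h : Dom D x = univ) : Ec D hD = ⊤ := by
  -- `Dom D (ex D y v) = univ` when `Dom D y = univ`
  have hstep : ∀ y v, Dom D y = univ → Dom D (ex D y v) = univ := by
    intro y v hy
    rw [eq_univ_iff_forall]
    intro w
    exact (move hD convex_univ (by rw [hy]) (mem_univ v) (mem_univ _)).1
  set G : Set X := {y | Dom D y = univ} with hG
  have hopen : IsOpen G := by
    rw [isOpen_iff_mem_nhds]
    intro z hz
    rw [nhds_eq_map_ex hD z, mem_map]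
    exact Filter.univ_mem' (fun v => hstep z v hz)
  have hclosed : IsClosed G := by
    rw [← isOpen_compl_iff, isOpen_iff_mem_nhds]
    intro z hz
    rw [nhds_eq_map_ex hD z, mem_map]
    refine Filter.mem_of_superset ((isOpen_dom hD z).mem_nhds (zero_mem_dom D z)) ?_
    intro v hv hv2
    apply hz
    have h1 := hstep (ex D z v) (-v) hv2
    rwa [(back hD hv).2] at h1
  have huniv : G = univ := IsClopen.eq_univ ⟨hclosed, hopen⟩ ⟨x, h⟩
  rw [eq_top_iff]
  intro v _ y t
  have : y ∈ G := huniv ▸ mem_univ y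
  have h2 : Dom D y = univ := this
  rw [h2]
  exact mem_univ _

/-- PROOF: fix `x`. `range (ex D x)` is open (`nhds_eq_map_ex` at `ex D x v`, and
`ex D (ex D x v) w = ex D x (v + w)` by `move` with `C = univ`) and its complement is open (if
`ex D y w = ex D x v` then `y = ex D (ex D x v) (-w) = ex D x (v - w)`). So it is everything. Hence `D`
is injective (`D (ex D x v) = D x + v`) and surjective; a bijective local homeomorphism is a
homeomorphism. -/
theorem isHomeomorph_of_Ec_top {D : X → E} (hD : IsLocalHomeomorph D) [ConnectedSpace X]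
    (h : Ec D hD = ⊤) : IsHomeomorph D := by
  have hall : ∀ y v, v ∈ Dom D y := by
    intro y v
    have h1 : v ∈ Ec D hD := by
      rw [h]
      trivial
    have := h1 y 1
    rwa [one_smul] at this
  have hadd : ∀ y v w, ex D (ex D y v) w = ex D y (v + w) := fun y v w =>
    (move hD convex_univ (fun u _ => hall y u) (mem_univ v) (mem_univ (v + w))).2
  obtain ⟨x⟩ : Nonempty X := inferInstance
  have hrange : range (ex D x) = univ := by
    have hopen : IsOpen (range (ex D x)) := by
      rw [isOpen_iff_mem_nhds]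
      rintro _ ⟨v, rfl⟩
      rw [nhds_eq_map_ex hD (ex D x v), mem_map]
      exact Filter.univ_mem' (fun w => ⟨v + w, (hadd x v w).symm⟩)
    have hclosed : IsClosed (range (ex D x)) := by
      rw [← isOpen_compl_iff, isOpen_iff_mem_nhds]
      intro y hy
      rw [nhds_eq_map_ex hD y, mem_map]
      refine Filter.univ_mem' (fun w => ?_)
      rintro ⟨v, hv⟩
      apply hy
      refine ⟨v - w, ?_⟩
      rw [sub_eq_add_neg, ← hadd, hv, hadd, add_neg_cancel, ex_zero hD]
    exact IsClopen.eq_univ ⟨hclosed, hopen⟩ (range_nonempty _)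
  have hbij : Function.Bijective D := by
    constructor
    · intro y z hyz
      obtain ⟨v, rfl⟩ : y ∈ range (ex D x) := hrange ▸ mem_univ y
      obtain ⟨w, rfl⟩ : z ∈ range (ex D x) := hrange ▸ mem_univ z
      rw [D_ex (hall x v), D_ex (hall x w)] at hyz
      rw [add_left_cancel hyz]
    · intro e
      refine ⟨ex D x (e - D x), ?_⟩
      rw [D_ex (hall x _)]
      abel
  exact ⟨hD.continuous, hD.isOpenMap, hbij⟩

end H83T
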