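import Mathlib

/-!
MP_7a8a58_gt, helper83.  Star domains of a developing map.
Paper proof: /team-store/h83_7a8a58_T1.md
-/

set_option autoImplicit false

open Set Metric Topology Filter

namespace H83T

variable {E : Type*} [NormedAddCommGroup E] [NormedSpace ℝ E]
variable {X : Type*} [TopologicalSpace X]

/-- The straight segment from `D x` to `D x + v` has a continuous lift through `D`
that starts at `x` and ends at `y`. -/
def LiftsTo (D : X → E) (x : X) (v : E) (y : X) : Prop :=
  ∃ c : ℝ → X, ContinuousOn c (Icc 0 1) ∧ c 0 = x ∧ c 1 = y ∧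
    ∀ t ∈ Icc (0 : ℝ) 1, D (c t) = D x + t • v

/-- The star domain of `x`: all `v` such that the segment from `D x` to `D x + v` lifts
from `x`. -/
def Dom (D : X → E) (x : X) : Set E := {v | ∃ y, LiftsTo D x v y}

open Classical in
/-- The end point `x + v` of the lifted segment (`x` itself if it does not lift). -/
noncomputable def ex (D : X → E) (x : X) (v : E) : X :=
  if h : v ∈ Dom D x then h.choose else x

/-- Vectors `v` such that the whole line in direction `v` lifts from every point. -/
def CD (D : X → E) : Set E := {v | ∀ x, ∀ t : ℝ, t • v ∈ Dom D x}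

theorem ex_spec {D : X → E} {x : X} {v : E} (h : v ∈ Dom D x) : LiftsTo D x v (ex D x v) := by
  classical
  unfold ex
  rw [dif_pos h]
  exact h.choose_spec

theorem D_ex {D : X → E} {x : X} {v : E} (h : v ∈ Dom D x) : D (ex D x v) = D x + v := by
  obtain ⟨c, hc, h0, h1, h2⟩ := ex_spec h
  rw [← h1, h2 1 ⟨zero_le_one, le_rfl⟩, one_smul]

theorem liftsTo_zero (D : X → E) (x : X) : LiftsTo D x 0 x :=
  ⟨fun _ => x, continuousOn_const, rfl, rfl, fun t _ => by simp⟩

theorem zero_mem_dom (D : X → E) (x : X) : (0 : E) ∈ Dom D x := ⟨x, liftsTo_zero D x⟩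

/-- stable space of a linear automorphism: `A ^ n v → 0`. -/
def Es (A : E ≃ₗ[ℝ] E) : Submodule ℝ E where
  carrier := {v | Tendsto (fun n : ℕ => (A ^ n) v) atTop (𝓝 0)}
  zero_mem' := by simp
  add_mem' := by
    intro a b ha hb
    simpa using Tendsto.add ha hb
  smul_mem' := by
    intro c a ha
    simpa using Tendsto.const_smul ha c

end H83T
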