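import Pool.Agent.H.MP_7a8a58_gt.h83.Box

set_option autoImplicit false

open Set Metric Topology Filter

namespace H83T

variable {E : Type*} [NormedAddCommGroup E] [NormedSpace ℝ E] [FiniteDimensional ℝ E]
variable {X : Type*} [TopologicalSpace X] [T2Space X]
variable {Γ : Type*} [Group Γ] [MulAction Γ X] [ContinuousConstSMul Γ X]
  [ProperlyDiscontinuousSMul Γ X]
variable {D : X → E} {L : Γ →* (E ≃ₗ[ℝ] E)} {b : Γ → E} {A : E ≃ₗ[ℝ] E} {γ₀ : Γ} {K : Set X}
  {ε : ℝ}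

omit [ProperlyDiscontinuousSMul Γ X] in
theorem CycSys.sup_top (S : CycSys D L b A γ₀ K ε) :
    Es A ⊔ Es A⁻¹ ⊔ Ec D S.hD = ⊤ := by
  refine sup_Es_eq_top A (Ec D S.hD) ?_ (fun w₀ h => S.lemmaB h)
  intro v
  have := S.Ec_iff γ₀ (v := v)
  rwa [S.gen] at this

/-- PROOF (section 3 of the page). By `sup_Es_eq_top` (hypotheses: `S.Ec_iff γ₀`, `S.lemmaB`) and
`exists_bounded_decomposition` there is `c`. If `E^s ⊆ Dom D x`, `ball 0 η ⊆ Dom D x`, `2 c ‖v‖ < η`:
`v = s₀ + u₀ + e₀`; `x₁ = ex D x s₀` has `E^s ⊆ Dom D x₁` (`move` with `C = E^s`); `ex D x (s₀ + u₀) =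
ex D x₁ u₀`, `u₀ ∈ Dom D x₁` (`move` with `C = ball 0 η`). For `s ∈ E^s` the parallelogram
`C = {τ u₀ + σ s}` is in `Dom D x₁` by the box lemma (`S.box`, `smul_mem_dom`), so by `move`
`s ∈ Dom D (ex D x₁ u₀)`; adding `e₀ ∈ Ec` does not change `Dom` (`dom_ex`, `add_dom`). -/
theorem CycSys.stable_step (S : CycSys D L b A γ₀ K ε) :
    ∃ c > 0, ∀ (x : X) (η : ℝ) (v : E), ball (0 : E) η ⊆ Dom D x → c * ‖v‖ < η →
      ((Es A : Set E) ⊆ Dom D x) → ((Es A : Set E) ⊆ Dom D (ex D x v)) := by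
  have hD := S.hD
  obtain ⟨c, hc, hdec⟩ := exists_bounded_decomposition A (Ec D S.hD) S.sup_top
  refine ⟨2 * c, by linarith, ?_⟩
  intro x η v hball hv hx
  obtain ⟨s₀, hs₀, u₀, hu₀, e₀, he₀, hvd, hsn, hun, -⟩ := hdec v
  have hη : 0 < η := lt_of_le_of_lt (by positivity) hv
  have hcv : 0 ≤ c * ‖v‖ := by positivity
  have hmb : ∀ w : E, ‖w‖ < η → w ∈ ball (0 : E) η := fun w hw => by
    rwa [mem_ball, dist_zero_right]
  have hsum : ‖s₀ + u₀‖ < η := by
    calc ‖s₀ + u₀‖ ≤ ‖s₀‖ + ‖u₀‖ := norm_add_le _ _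
      _ ≤ c * ‖v‖ + c * ‖v‖ := add_le_add hsn hun
      _ = 2 * c * ‖v‖ := by ring
      _ < η := hv
  have hs₀η : ‖s₀‖ < η := by
    linarith
  have hm1 := move hD (convex_ball (0 : E) η) hball (v := s₀) (w := u₀) (hmb _ hs₀η)
    (hmb _ hsum)
  set x₁ := ex D x s₀ with hx₁
  have hx₁s : (Es A : Set E) ⊆ Dom D x₁ := by
    intro s hs
    exact (move hD (Es A).convex hx (v := s₀) (w := s) hs₀ ((Es A).add_mem hs₀ hs)).1
  have hkey : ∀ s ∈ Es A, s ∈ Dom D (ex D x₁ u₀) := by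
    intro s hs
    set g : ℝ × ℝ → E := fun p => p.1 • u₀ + p.2 • s with hg
    have hl : IsLinearMap ℝ g := by
      constructor
      · intro p q
        simp only [hg, Prod.fst_add, Prod.snd_add, add_smul]
        abel
      · intro r p
        simp only [hg, Prod.smul_fst, Prod.smul_snd, smul_eq_mul, smul_add, mul_smul]
    have hconv : Convex ℝ (g '' (Icc (0 : ℝ) 1 ×ˢ Icc (0 : ℝ) 1)) :=
      ((convex_Icc 0 1).prod (convex_Icc 0 1)).is_linear_image hl
    have hsub : g '' (Icc (0 : ℝ) 1 ×ˢ Icc (0 : ℝ) 1) ⊆ Dom D x₁ := by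
      rintro _ ⟨⟨p, q⟩, ⟨hp, hq⟩, rfl⟩
      exact S.box ((Es A).smul_mem q hs) ((Es A⁻¹).smul_mem p hu₀)
        (hx₁s ((Es A).smul_mem q hs)) (smul_mem_dom hm1.1 hp)
    refine (move hD hconv hsub (v := u₀) (w := s) ?_ ?_).1
    · refine ⟨(1, 0), ⟨⟨zero_le_one, le_rfl⟩, ⟨le_rfl, zero_le_one⟩⟩, ?_⟩
      simp [hg]
    · refine ⟨(1, 1), ⟨⟨zero_le_one, le_rfl⟩, ⟨zero_le_one, le_rfl⟩⟩, ?_⟩
      simp [hg]
  have hv1 : ex D x v = ex D (ex D x (s₀ + u₀)) e₀ := by
    rw [hvd]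
    exact (add_dom hD he₀ (hball (hmb _ hsum))).2
  intro s hs
  rw [hv1, dom_ex hD he₀, ← hm1.2]
  exact hkey s hs

omit [FiniteDimensional ℝ E] in
/-- radius of a ball inside the star domain -/
theorem dich_radius (hD : IsLocalHomeomorph D) (x : X) :
    ∃ η > 0, ball (0 : E) η ⊆ Dom D x :=
  Metric.isOpen_iff.mp (isOpen_dom hD x) 0 (zero_mem_dom D x)

/-- PROOF: `{x | E^s ⊆ Dom D x}` is open and closed by `stable_step` (`nhds_eq_map_ex`, for closedness use
that for `‖v‖` small `ball 0 (η/2) ⊆ Dom D (ex D x v)` and `x = ex D (ex D x v) (-v)`). -/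
theorem CycSys.stable_all [ConnectedSpace X] (S : CycSys D L b A γ₀ K ε) {x : X}
    (h : (Es A : Set E) ⊆ Dom D x) (y : X) : (Es A : Set E) ⊆ Dom D y := by
  have hD := S.hD
  obtain ⟨c, hc, hstep⟩ := S.stable_step
  set G : Set X := {x | (Es A : Set E) ⊆ Dom D x} with hG
  have hopen : IsOpen G := by
    rw [isOpen_iff_mem_nhds]
    intro z hz
    obtain ⟨η, hη, hball⟩ := dich_radius hD z
    rw [nhds_eq_map_ex hD z, mem_map]
    refine Filter.mem_of_superset (ball_mem_nhds (0 : E) (div_pos hη hc)) ?_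
    intro v hv
    rw [mem_ball, dist_zero_right, lt_div_iff₀ hc] at hv
    exact hstep z η v hball (by linarith) hz
  have hclosed : IsClosed G := by
    rw [← isOpen_compl_iff, isOpen_iff_mem_nhds]
    intro z hz
    obtain ⟨η, hη, hball⟩ := dich_radius hD z
    rw [nhds_eq_map_ex hD z, mem_map]
    have hr : 0 < min (η / 2) (η / 2 / c) := lt_min (by linarith) (div_pos (by linarith) hc)
    refine Filter.mem_of_superset (ball_mem_nhds (0 : E) hr) ?_
    intro v hv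
    rw [mem_ball, dist_zero_right] at hv
    have hv1 : ‖v‖ < η / 2 := hv.trans_le (min_le_left _ _)
    have hv2 : c * ‖v‖ < η / 2 := by
      have := hv.trans_le (min_le_right (η / 2) (η / 2 / c))
      rw [lt_div_iff₀ hc] at this
      linarith
    intro hzG
    apply hz
    have hvD : v ∈ Dom D z := hball (by rw [mem_ball, dist_zero_right]; linarith)
    have hball' : ball (0 : E) (η / 2) ⊆ Dom D (ex D z v) := by
      intro w hw
      rw [mem_ball, dist_zero_right] at hw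
      refine (move hD (convex_ball (0 : E) η) hball (v := v) (w := w) ?_ ?_).1
      · rw [mem_ball, dist_zero_right]
        linarith
      · rw [mem_ball, dist_zero_right]
        calc ‖v + w‖ ≤ ‖v‖ + ‖w‖ := norm_add_le _ _
          _ < η := by linarith
    have := hstep (ex D z v) (η / 2) (-v) hball' (by rwa [norm_neg]) hzG
    rwa [(back hD hvD).2] at this
  have huniv : G = univ := IsClopen.eq_univ ⟨hclosed, hopen⟩ ⟨x, h⟩
  have : y ∈ G := huniv ▸ mem_univ y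
  exact this

/-- PROOF: end of section 3. -/
theorem CycSys.unstable_of_not (S : CycSys D L b A γ₀ K ε)
    (h : ∀ x, ¬ ((Es A : Set E) ⊆ Dom D x)) (x : X) : (Es A⁻¹ : Set E) ⊆ Dom D x := by
  have hD := S.hD
  have hε := S.ε_pos
  intro u hu
  by_contra huD
  -- first failing time
  set F : Set ℝ := Icc (0 : ℝ) 1 ∩ (fun t : ℝ => t • u) ⁻¹' (Dom D x)ᶜ with hF
  have hFc : IsCompact F :=
    isCompact_Icc.inter_right
      ((isOpen_dom hD x).isClosed_compl.preimage (by fun_prop))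
  have hFn : F.Nonempty := ⟨1, ⟨zero_le_one, le_rfl⟩, by
    simp only [mem_preimage, one_smul, mem_compl_iff]
    exact huD⟩
  obtain ⟨T, hT, hTmin⟩ := hFc.exists_isMinOn hFn (f := fun t : ℝ => t) continuousOn_id
  obtain ⟨hT01, hTD⟩ := hT
  have hTD' : T • u ∉ Dom D x := hTD
  have hT0 : 0 < T := by
    rcases eq_or_lt_of_le hT01.1 with h0 | h0
    · exfalso
      rw [← h0, zero_smul] at hTD'
      exact hTD' (zero_mem_dom D x)
    · exact h0
  have hlt : ∀ t : ℝ, 0 ≤ t → t < T → t • u ∈ Dom D x := by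
    intro t h0 h1
    by_contra h2
    have h3 : t ∈ F := ⟨⟨h0, h1.le.trans hT01.2⟩, h2⟩
    have h4 := hTmin h3
    change T ≤ t at h4
    linarith
  set C : Set E := (fun t : ℝ => t • u) '' Ico (0 : ℝ) T with hC
  have hCconv : Convex ℝ C := by
    refine (convex_Ico (0 : ℝ) T).is_linear_image ?_
    constructor
    · intro p q
      exact add_smul p q u
    · intro r p
      simp only [smul_eq_mul, mul_smul]
  have hCsub : C ⊆ Dom D x := by
    rintro _ ⟨t, ht, rfl⟩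
    exact hlt t ht.1 ht.2
  have hseg : ∀ t ∈ Ico (0 : ℝ) 1, t • (T • u) ∈ C := by
    intro t ht
    rw [smul_smul]
    exact ⟨t * T, ⟨mul_nonneg ht.1 hT0.le, by nlinarith [ht.2]⟩, rfl⟩
  apply h x
  intro s hs
  obtain ⟨N₀, hN₀⟩ := box_small A hs hε
  obtain ⟨B, hB0, hB⟩ := box_bound A hu (-(N₀ : ℤ))
  set τ : ℝ := min T (ε / (B + 1)) with hτ
  have hB1 : 0 < B + 1 := by linarith
  have hτ0 : 0 < τ := lt_min hT0 (div_pos hε hB1)
  have hτT : τ ≤ T := min_le_left _ _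
  have hτB : τ * B ≤ ε := by
    have h1 : τ ≤ ε / (B + 1) := min_le_right _ _
    calc τ * B ≤ τ * (B + 1) := by nlinarith
      _ ≤ ε / (B + 1) * (B + 1) := by gcongr
      _ = ε := div_mul_cancel₀ _ hB1.ne'
  set y : X := ex D x ((T - τ) • u) with hy
  have hvC : (T - τ) • u ∈ C := ⟨T - τ, ⟨by linarith, by linarith⟩, rfl⟩
  have hnot : τ • u ∉ Dom D y := by
    intro h1
    apply hTD'
    refine ext_corner hD hCconv hCsub hvC ?_ hseg
    have : T • u - (T - τ) • u = τ • u := by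
      rw [← sub_smul]
      congr 1
      ring
    rw [this]
    exact h1
  obtain ⟨k, hk⟩ := S.exists_PK y
  have hkM : k < -(N₀ : ℤ) := by
    by_contra hkM
    push Not at hkM
    apply hnot
    rw [← box_zpow_neg_cancel A k (τ • u)]
    refine S.chart_PK hk ?_
    rw [map_smul, norm_smul, Real.norm_of_nonneg hτ0.le]
    calc τ * ‖(A ^ (-k)) u‖ ≤ τ * B := by
          gcongr
          exact hB k hkM
      _ ≤ ε := hτB
  have hsy : s ∈ Dom D y := by
    rw [← box_zpow_neg_cancel A k s]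
    exact S.chart_PK hk (hN₀ k hkM.le)
  have hback := back hD (hCsub hvC)
  -- parallelogram at `y`
  set g : ℝ × ℝ → E := fun p => p.1 • (-((T - τ) • u)) + p.2 • s with hg
  have hl : IsLinearMap ℝ g := by
    constructor
    · intro p q
      simp only [hg, Prod.fst_add, Prod.snd_add, add_smul]
      abel
    · intro r p
      simp only [hg, Prod.smul_fst, Prod.smul_snd, smul_eq_mul, smul_add, mul_smul]
  have hconv : Convex ℝ (g '' (Icc (0 : ℝ) 1 ×ˢ Icc (0 : ℝ) 1)) :=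
    ((convex_Icc 0 1).prod (convex_Icc 0 1)).is_linear_image hl
  have hsub : g '' (Icc (0 : ℝ) 1 ×ˢ Icc (0 : ℝ) 1) ⊆ Dom D y := by
    rintro _ ⟨⟨p, q⟩, ⟨hp, hq⟩, rfl⟩
    refine S.box ((Es A).smul_mem q hs)
      ((Es A⁻¹).smul_mem p ((Es A⁻¹).neg_mem ((Es A⁻¹).smul_mem (T - τ) hu))) ?_ ?_
    · exact smul_mem_dom hsy hq
    · exact smul_mem_dom hback.1 hp
  have hfin := (move hD hconv hsub (v := -((T - τ) • u)) (w := s) ?_ ?_).1
  · rwa [hy, hback.2] at hfin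
  · refine ⟨(1, 0), ⟨⟨zero_le_one, le_rfl⟩, ⟨le_rfl, zero_le_one⟩⟩, ?_⟩
    simp [hg]
  · refine ⟨(1, 1), ⟨⟨zero_le_one, le_rfl⟩, ⟨zero_le_one, le_rfl⟩⟩, ?_⟩
    simp [hg]

/-- Dichotomy. -/
theorem CycSys.dich [ConnectedSpace X] (S : CycSys D L b A γ₀ K ε) :
    Es A ≤ Ec D S.hD ∨ Es A⁻¹ ≤ Ec D S.hD := by
  by_cases h : ∃ x, (Es A : Set E) ⊆ Dom D x
  · obtain ⟨x, hx⟩ := h
    left
    intro v hv y t
    exact S.stable_all hx y ((Es A).smul_mem t hv)
  · right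
    intro v hv y t
    exact S.unstable_of_not (fun x hx => h ⟨x, hx⟩) y ((Es A⁻¹).smul_mem t hv)

end H83T
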