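import Mathlib

set_option autoImplicit false

open Set Metric Topology Filter

namespace H83T

private theorem Ends_conn {V : Type*} [NormedAddCommGroup V] [NormedSpace ℝ V]
    (hr : 1 < Module.rank ℝ V) (r : ℝ) (hr0 : 0 ≤ r) : IsConnected ((closedBall (0 : V) r)ᶜ) := by
  have h1 := isConnected_compl_singleton_of_one_lt_rank hr (0 : V)
  have h2 : (closedBall (0 : V) r)ᶜ = (fun v : V => (r / ‖v‖ + 1) • v) '' {(0 : V)}ᶜ := by
    ext x
    constructor
    · intro hx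
      have hx' : r < ‖x‖ := by simpa using hx
      have hx0 : 0 < ‖x‖ := lt_of_le_of_lt hr0 hx'
      have hx1 : 0 < (‖x‖ - r) / ‖x‖ := div_pos (sub_pos.2 hx') hx0
      refine ⟨((‖x‖ - r) / ‖x‖) • x, ?_, ?_⟩
      · simp only [mem_compl_iff, mem_singleton_iff, smul_eq_zero, not_or]
        exact ⟨hx1.ne', norm_pos_iff.1 hx0⟩
      · have hn : ‖((‖x‖ - r) / ‖x‖) • x‖ = ‖x‖ - r := by
          rw [norm_smul, Real.norm_of_nonneg hx1.le, div_mul_cancel₀ _ hx0.ne']
        have hne : ‖x‖ - r ≠ 0 := (sub_pos.2 hx').ne'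
        simp only [hn, smul_smul]
        have : (r / (‖x‖ - r) + 1) * ((‖x‖ - r) / ‖x‖) = 1 := by
          field_simp
          ring
        rw [this, one_smul]
    · rintro ⟨v, hv, rfl⟩
      have hv0 : 0 < ‖v‖ := norm_pos_iff.2 hv
      have hc : 0 ≤ r / ‖v‖ + 1 := by positivity
      simp only [mem_compl_iff, mem_closedBall, dist_zero_right, not_le, norm_smul,
        Real.norm_of_nonneg hc]
      have : (r / ‖v‖ + 1) * ‖v‖ = r + ‖v‖ := by
        field_simp
      rw [this]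
      linarith
  rw [h2]
  refine h1.image _ ?_
  intro v hv
  have hv0 : ‖v‖ ≠ 0 := norm_ne_zero_iff.2 hv
  apply ContinuousAt.continuousWithinAt
  have : ContinuousAt (fun v : V => r / ‖v‖ + 1) v :=
    (continuousAt_const.div continuous_norm.continuousAt hv0).add continuousAt_const
  exact this.smul continuousAt_id

/-- `ℤ` does not act properly and cocompactly on `ℝ^m`, `m ≥ 2`.
PROOF: take `r₁` with `K' ⊆ ball 0 r₁`. By `hprop` for `closedBall 0 r₁` there is `j₁` with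
`h ^ j '' K' ∩ K' = ∅` for `|j| ≥ j₁` (also `(h ^ i '' K') ∩ (h ^ j '' K') = ∅` if `|i - j| ≥ j₁`).
Let `U₊ = ⋃_{j ≥ 0} h ^ j '' K'`, `U₋ = ⋃_{j < 0} h ^ j '' K'`; both closed (locally finite union of compact
sets by `hprop`), they cover `V`, and `U₊ ∩ U₋` is contained in the compact union of the `h ^ i '' K'`,
`|i| < j₁`, hence in some `ball 0 r₂`. The complement of `ball 0 r₂` is connected (dimension `≥ 2`), covered by
the two closed sets disjoint there: so it is inside `U₊` or inside `U₋`. Say inside `U₊`; then every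
`h ^ j '' K'`, `j ≤ -j₁` (disjoint from all `h ^ i '' K'`, `i ≥ 0`) lies in `ball 0 r₂` (`K'` nonempty):
infinitely many `h ^ j '' K'` meet the compact `closedBall 0 r₂`, contradicting `hprop`. -/
theorem finrank_le_one_of_cocompact {V : Type*} [NormedAddCommGroup V] [NormedSpace ℝ V]
    [FiniteDimensional ℝ V] (h : V ≃ₜ V) (K' : Set V) (hK' : IsCompact K')
    (hcov : ∀ v : V, ∃ j : ℤ, ∃ y ∈ K', v = (h ^ j) y)
    (hprop : ∀ C C' : Set V, IsCompact C → IsCompact C' →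
      {j : ℤ | ((h ^ j) '' C ∩ C').Nonempty}.Finite) :
    Module.finrank ℝ V ≤ 1 := by
  by_contra hlt
  have hrank : 1 < Module.rank ℝ V := by
    rw [← Module.finrank_eq_rank]
    exact_mod_cast not_le.1 hlt
  haveI : ProperSpace V := FiniteDimensional.proper ℝ V
  obtain ⟨j0, y0, hy0, -⟩ := hcov 0
  have hc : ∀ j : ℤ, IsCompact ((h ^ j) '' K') := fun j => hK'.image (h ^ j).continuous
  have hlf : LocallyFinite (fun j : ℤ => (h ^ j) '' K') := by
    intro x
    exact ⟨closedBall x 1, closedBall_mem_nhds x one_pos,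
      hprop K' (closedBall x 1) hK' (isCompact_closedBall x 1)⟩
  have hclosed : ∀ P : ℤ → Prop, IsClosed (⋃ j : {j // P j}, (h ^ (j : ℤ)) '' K') := by
    intro P
    exact (hlf.comp_injective Subtype.val_injective).isClosed_iUnion fun j => (hc j).isClosed
  obtain ⟨N, hN⟩ : ∃ N : ℤ, ∀ n ∈ {j : ℤ | ((h ^ j) '' K' ∩ K').Nonempty}, n ≤ N :=
    (hprop K' K' hK' hK').bddAbove
  have hfin : (Set.Icc (0 : ℤ) N).Finite := Set.finite_Icc _ _
  obtain ⟨r, hr⟩ := (hfin.isCompact_biUnion fun j _ => hc j).isBounded.subset_closedBall (0 : V)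
  have hsub : (⋃ j : {j : ℤ // 0 ≤ j}, (h ^ (j : ℤ)) '' K') ∩
      (⋃ j : {j : ℤ // j < 0}, (h ^ (j : ℤ)) '' K') ⊆ closedBall 0 (max r 0) := by
    rintro x ⟨hx1, hx2⟩
    obtain ⟨⟨i, hi⟩, y, hy, hyx⟩ := mem_iUnion.1 hx1
    obtain ⟨⟨j, hj⟩, z, hz, hzx⟩ := mem_iUnion.1 hx2
    simp only at hyx hzx
    have hm : i - j ≤ N := by
      apply hN
      refine ⟨z, ⟨y, hy, ?_⟩, hz⟩
      have e1 : (h ^ (i - j)) y = (h ^ (-j)) ((h ^ i) y) := by
        rw [sub_eq_neg_add, zpow_add]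
        rfl
      rw [e1, hyx, ← hzx]
      have e2 : (h ^ (-j)) ((h ^ j) z) = (h ^ (-j + j)) z := by
        rw [zpow_add]
        rfl
      rw [e2, neg_add_cancel, zpow_zero]
      rfl
    have hx : x ∈ closedBall (0 : V) r := hr (mem_biUnion (show i ∈ Set.Icc 0 N from
      ⟨hi, by omega⟩) ⟨y, hy, hyx⟩)
    exact closedBall_subset_closedBall (le_max_left _ _) hx
  have hcon := Ends_conn hrank (max r 0) (le_max_right _ _)
  have hpre := isPreconnected_closed_iff.1 hcon.isPreconnected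
    (⋃ j : {j : ℤ // 0 ≤ j}, (h ^ (j : ℤ)) '' K') (⋃ j : {j : ℤ // j < 0}, (h ^ (j : ℤ)) '' K')
    (hclosed _) (hclosed _) (by
      intro v _
      obtain ⟨j, y, hy, hv⟩ := hcov v
      rcases le_or_gt 0 j with hj | hj
      · exact Or.inl (mem_iUnion.2 ⟨⟨j, hj⟩, y, hy, hv.symm⟩)
      · exact Or.inr (mem_iUnion.2 ⟨⟨j, hj⟩, y, hy, hv.symm⟩))
  have hfinal : ∀ P : ℤ → Prop, {j | P j}.Infinite →
      ¬ (⋃ j : {j // P j}, (h ^ (j : ℤ)) '' K') ⊆ closedBall 0 (max r 0) := by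
    intro P hP hs
    apply hP
    refine (hprop K' _ hK' (isCompact_closedBall (0 : V) (max r 0))).subset ?_
    intro j hj
    refine ⟨(h ^ j) y0, mem_image_of_mem _ hy0, hs (mem_iUnion.2 ⟨⟨j, hj⟩, mem_image_of_mem _ hy0⟩)⟩
  have hne : ∀ S : Set V, ¬ S ⊆ closedBall 0 (max r 0) →
      ((closedBall (0 : V) (max r 0))ᶜ ∩ S).Nonempty := by
    intro S hS
    obtain ⟨x, hx, hx'⟩ := not_subset.1 hS
    exact ⟨x, hx', hx⟩
  obtain ⟨x, hx, hx'⟩ := hpre (hne _ (hfinal _ (Set.Ici_infinite 0)))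
    (hne _ (hfinal _ (Set.Iio_infinite 0)))
  exact hx (hsub hx')

end H83T
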