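import Pool.Agent.H.MP_7a8a58_gt.h83.FinA
import Pool.Agent.H.MP_7a8a58_gt.h83.Conv

set_option autoImplicit false

open Set Metric Topology Filter

namespace H83T

/-- A generator of an infinite cyclic range, lifted to the group. -/
private theorem fin_generator {G H : Type*} [Group G] [Group H] (f : G →* H)
    (hc : IsCyclic f.range) (hi : Infinite f.range) :
    ∃ g₀ : G, (∀ k : ℤ, f g₀ ^ k = 1 → k = 0) ∧ (∀ g : G, ∃ k : ℤ, f g = f g₀ ^ k) ∧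
      VirtCyclic f.range := by
  obtain ⟨⟨h, hh⟩, hgen⟩ := hc.exists_generator
  obtain ⟨g₀, rfl⟩ := hh
  refine ⟨g₀, ?_, ?_, ?_⟩
  · intro k hk
    by_contra hk0
    have h1 : (⟨f g₀, ⟨g₀, rfl⟩⟩ : f.range) ^ k = 1 := by
      apply Subtype.ext
      simpa using hk
    have hfo : IsOfFinOrder (⟨f g₀, ⟨g₀, rfl⟩⟩ : f.range) :=
      isOfFinOrder_iff_zpow_eq_one.2 ⟨k, hk0, h1⟩
    have hfin : (Subgroup.zpowers (⟨f g₀, ⟨g₀, rfl⟩⟩ : f.range) : Set f.range).Finite :=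
      hfo.finite_zpowers
    have huniv : (Subgroup.zpowers (⟨f g₀, ⟨g₀, rfl⟩⟩ : f.range) : Set f.range) = Set.univ :=
      Set.eq_univ_of_forall hgen
    rw [huniv] at hfin
    exact (Set.infinite_univ (α := f.range)) hfin
  · intro g
    obtain ⟨k, hk⟩ := Subgroup.mem_zpowers_iff.1 (hgen ⟨f g, ⟨g, rfl⟩⟩)
    refine ⟨k, ?_⟩
    have := congrArg Subtype.val hk
    simpa using this.symm
  · refine ⟨⟨f g₀, ⟨g₀, rfl⟩⟩, ?_⟩
    have htop : Subgroup.zpowers (⟨f g₀, ⟨g₀, rfl⟩⟩ : f.range) = ⊤ := by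
      rw [Subgroup.eq_top_iff']
      exact hgen
    rw [htop]
    infer_instance

theorem final (m : ℕ) :
    (∀ S : IntAffPair (m + 1), VirtCyclic S.lin.range →
      IsHomeomorph S.dev ∧ (Infinite S.lin.range →
        ∃ Γ' : Subgroup S.Γ, Γ'.FiniteIndex ∧ ∃ M : GL (Fin m) ℤ,
          Nonempty (S.Quot Γ' ≃ₜ TorusBundle M))) ∧
    (∀ (B : Type) [TopologicalSpace B],
      (∃ S : IntAffPair (m + 1), IsCyclic S.lin.range ∧ Infinite S.lin.range ∧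
        Nonempty (B ≃ₜ S.Quot ⊤)) ↔
      ∃ M : GL (Fin m) ℤ, ((∀ k : ℤ, M ^ k = 1 → k = 0) ∨
          ((M : Matrix (Fin m) (Fin m) ℤ) - 1).det = 0) ∧
        Nonempty (B ≃ₜ TorusBundle M)) := by
  refine ⟨?_, ?_⟩
  · intro S hS
    refine ⟨S.complete hS, ?_⟩
    intro hinf
    obtain ⟨Γ', hΓ', γ₀, hγ₀, h1, h2⟩ := S.exists_cyclic_subgroup hS hinf
    have := hΓ'
    obtain ⟨M, -, hM⟩ := S.quot_homeo (S.complete hS) Γ' γ₀ hγ₀ h1 h2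
    exact ⟨Γ', hΓ', M, hM⟩
  · intro B _
    constructor
    · rintro ⟨S, hc, hi, ⟨e⟩⟩
      obtain ⟨γ₀, h1, h2, h3⟩ := fin_generator S.lin hc hi
      obtain ⟨M, hM, ⟨e'⟩⟩ := S.quot_homeo (S.complete h3) ⊤ γ₀ (Subgroup.mem_top γ₀) h1
        (fun γ _ => h2 γ)
      exact ⟨M, hM, ⟨e.trans e'⟩⟩
    · rintro ⟨M, hM, ⟨e⟩⟩
      obtain ⟨S, hc, hi, ⟨e'⟩⟩ := exists_pair' M hM
      exact ⟨S, hc, hi, ⟨e.trans e'.symm⟩⟩

end H83T
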