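import Pool.Agent.H.MP_7a8a58_gt.h83.Pair

set_option autoImplicit false

open Set Metric Topology Filter

namespace H83T

/-- Recognition of the mapping torus: if `Θ : X ≃ₜ ℝ^m × ℝ` turns the orbit relation of a group action
into the relation `TorusRel M`, the orbit space is homeomorphic to `TorusBundle M`.
PROOF: `Θ` is a homeomorphism compatible with the two relations (`TorusRel M` is an equivalence relation, `M ^ (i+j)`,
so `Quot.mk` identifies exactly related points); both maps `X → orbit space` and `ℝ^m × ℝ → TorusBundle M` are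
quotient maps. -/
theorem orbit_homeo_torusBundle {m : ℕ} (M : GL (Fin m) ℤ) {X : Type} [TopologicalSpace X]
    {Γ : Type} [Group Γ] [MulAction Γ X] (Θ : X ≃ₜ ((Fin m → ℝ) × ℝ))
    (h : ∀ x y : X, (∃ γ : Γ, γ • x = y) ↔ TorusRel M (Θ x) (Θ y)) :
    Nonempty (MulAction.orbitRel.Quotient Γ X ≃ₜ TorusBundle M) := by
  have hf : ∀ x y : X, (MulAction.orbitRel Γ X) x y →
      (_root_.Quot.mk (TorusRel M) (Θ x)) = _root_.Quot.mk (TorusRel M) (Θ y) := by
    intro x y hxy
    obtain ⟨γ, hγ⟩ := MulAction.orbitRel_apply.1 hxy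
    exact (_root_.Quot.sound ((h y x).1 ⟨γ, hγ⟩)).symm
  have hg : ∀ p q : (Fin m → ℝ) × ℝ, TorusRel M p q →
      (Quotient.mk (MulAction.orbitRel Γ X) (Θ.symm p)) =
        Quotient.mk (MulAction.orbitRel Γ X) (Θ.symm q) := by
    intro p q hpq
    obtain ⟨γ, hγ⟩ := (h (Θ.symm p) (Θ.symm q)).2 (by
      rw [Θ.apply_symm_apply, Θ.apply_symm_apply]
      exact hpq)
    exact (Quotient.sound (MulAction.orbitRel_apply.2 ⟨γ, hγ⟩)).symm
  let f : MulAction.orbitRel.Quotient Γ X → TorusBundle M :=
    Quotient.lift (fun x => _root_.Quot.mk (TorusRel M) (Θ x)) hf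
  let g : TorusBundle M → MulAction.orbitRel.Quotient Γ X :=
    _root_.Quot.lift (fun p => Quotient.mk (MulAction.orbitRel Γ X) (Θ.symm p)) hg
  have hfc : Continuous f := Continuous.quotient_lift
    ((continuous_quot_mk (r := TorusRel M)).comp Θ.continuous) hf
  have hgc : Continuous g := continuous_quot_lift hg
    (continuous_quotient_mk'.comp Θ.symm.continuous)
  refine ⟨⟨⟨f, g, ?_, ?_⟩, hfc, hgc⟩⟩
  · intro z
    induction z using Quotient.inductionOn with
    | _ x =>
      show Quotient.mk (MulAction.orbitRel Γ X) (Θ.symm (Θ x)) = _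
      rw [Θ.symm_apply_apply]
  · intro z
    induction z using _root_.Quot.inductionOn with
    | _ p =>
      show _root_.Quot.mk (TorusRel M) (Θ (Θ.symm p)) = _
      rw [Θ.apply_symm_apply]

end H83T
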