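import Pool.Agent.H.MP_7a8a58_gt.h83.StrA

set_option autoImplicit false

open Set Metric Topology Filter

namespace H83T

variable {E : Type*} [NormedAddCommGroup E] [NormedSpace ℝ E] [FiniteDimensional ℝ E]
variable {Γ : Type*} [Group Γ] {L : Γ →* (E ≃ₗ[ℝ] E)} {b : Γ → E} {γ₀ : Γ}

/-- For a matrix of finite order without the eigenvalue `1` the sum of the powers is zero. -/
private theorem StrE_geom {m : ℕ} (M : Matrix (Fin m) (Fin m) ℤ) {k : ℕ} (hM : M ^ k = 1)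
    (hdet : (M - 1).det ≠ 0) : ∑ i ∈ Finset.range k, M ^ i = 0 := by
  have h1 : (M - 1) * ∑ i ∈ Finset.range k, M ^ i = 0 := by
    rw [mul_geom_sum, hM, sub_self]
  have h2 : (M - 1).adjugate * ((M - 1) * ∑ i ∈ Finset.range k, M ^ i) = 0 := by
    rw [h1, mul_zero]
  rw [← Matrix.mul_assoc, Matrix.adjugate_mul, Matrix.smul_mul, one_mul] at h2
  exact (smul_eq_zero.1 h2).resolve_left hdet

/-- If `M` has finite order and no eigenvalue `1` then `L γ₀` has finite order.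
PROOF: in the coordinates `Φ`, `L γ₀ (w, t) = (M w + t c, t)`. If `M ^ k = 1`, `k > 0`,
and `det (M - 1) ≠ 0` then `∑_{i<k} M ^ i = 0` (it is killed by `M - 1`), so `(L γ₀) ^ k = 1`. -/
theorem AffCyc.order_or_eigenvalue (S : AffCyc L b γ₀) {m : ℕ}
    (Φ : E ≃ₗ[ℝ] ((Fin m → ℝ) × ℝ)) (M : GL (Fin m) ℤ) (c d : Fin m → ℝ)
    (h : ∀ x : E, Φ (L γ₀ x + b γ₀) =
        ((rM M).mulVec (Φ x).1 + (Φ x).2 • c + d, (Φ x).2 + 1)) :
    (∀ k : ℤ, M ^ k = 1 → k = 0) ∨ ((M : Matrix (Fin m) (Fin m) ℤ) - 1).det = 0 := by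
  by_contra hcon
  rw [not_or] at hcon
  obtain ⟨hc1, hdet⟩ := hcon
  push Not at hc1
  obtain ⟨k0, hk0, hk0'⟩ := hc1
  obtain ⟨k, hk, hMk⟩ : ∃ k : ℕ, k ≠ 0 ∧ M ^ k = 1 := by
    obtain ⟨n, rfl | rfl⟩ := Int.eq_nat_or_neg k0
    · exact ⟨n, by rintro rfl; exact hk0' rfl, by rw [← zpow_natCast]; exact hk0⟩
    · refine ⟨n, by rintro rfl; exact hk0' (by simp), ?_⟩
      rw [zpow_neg, inv_eq_one, zpow_natCast] at hk0
      exact hk0
  have hM : (M : Matrix (Fin m) (Fin m) ℤ) ^ k = 1 := by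
    rw [← Units.val_pow_eq_pow_val, hMk, Units.val_one]
  have hR : rM M = (Int.castRingHom ℝ).mapMatrix (M : Matrix (Fin m) (Fin m) ℤ) := rfl
  have hRk : rM M ^ k = 1 := by
    rw [hR, ← map_pow, hM, map_one]
  have hRs : ∑ i ∈ Finset.range k, rM M ^ i = 0 := by
    have h1 := congrArg (Int.castRingHom ℝ).mapMatrix (StrE_geom _ hM hdet)
    rw [map_sum, map_zero] at h1
    rw [← h1]
    exact Finset.sum_congr rfl fun i _ => by rw [hR, map_pow]
  have hb : Φ (b γ₀) = (d, 1) := by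
    have h1 := h 0
    rw [map_zero, zero_add, map_zero] at h1
    rw [h1]
    simp
  have hstep : ∀ x, Φ (L γ₀ x) = ((rM M).mulVec (Φ x).1 + (Φ x).2 • c, (Φ x).2) := by
    intro x
    have h1 := h x
    rw [map_add, hb] at h1
    have h2 : Φ (L γ₀ x) = ((rM M).mulVec (Φ x).1 + (Φ x).2 • c + d, (Φ x).2 + 1) - (d, 1) := by
      rw [← h1, add_sub_cancel_right]
    rw [h2]
    ext <;> simp
  have hiter : ∀ (j : ℕ) (x : E), Φ ((L γ₀ ^ j) x) = ((rM M ^ j).mulVec (Φ x).1 +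
      (Φ x).2 • (∑ i ∈ Finset.range j, rM M ^ i).mulVec c, (Φ x).2) := by
    intro j
    induction j with
    | zero =>
      intro x
      simp
    | succ j ih =>
      intro x
      rw [pow_succ']
      show Φ (L γ₀ ((L γ₀ ^ j) x)) = _
      rw [hstep, ih x, geom_sum_succ, pow_succ', Matrix.mulVec_add, Matrix.mulVec_smul,
        Matrix.add_mulVec, Matrix.one_mulVec, Matrix.mulVec_mulVec, Matrix.mulVec_mulVec,
        smul_add, add_assoc]
  apply hk
  have h1 : L γ₀ ^ k = 1 := by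
    ext x
    apply Φ.injective
    rw [hiter k x, hRk, hRs]
    simp
  have h2 := S.inf k (by rw [zpow_natCast]; exact h1)
  exact_mod_cast h2

end H83T
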