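import Pool.Agent.H.MP_7a8a58_gt.h83.Int
import Pool.Agent.H.MP_7a8a58_gt.h83.Str
import Pool.Agent.H.MP_7a8a58_gt.h83.Norm

set_option autoImplicit false

open Set Metric Topology Filter

namespace H83T

/-- the linear automorphism of a real vector space given by an integral matrix -/
noncomputable def finA_L (n : ℕ) : GL (Fin n) ℤ →* ((Fin n → ℝ) ≃ₗ[ℝ] (Fin n → ℝ)) :=
  (LinearMap.GeneralLinearGroup.generalLinearEquiv ℝ (Fin n → ℝ)).toMonoidHom.comp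
    ((Matrix.GeneralLinearGroup.toLin (n := Fin n) (R := ℝ)).toMonoidHom.comp
      (Matrix.GeneralLinearGroup.map (Int.castRingHom ℝ)))

theorem finA_L_apply {n : ℕ} (g : GL (Fin n) ℤ) (x : Fin n → ℝ) :
    finA_L n g x = (rM g).mulVec x := rfl

theorem finA_rM_mul {n : ℕ} (A B : GL (Fin n) ℤ) : rM (A * B) = rM A * rM B := by
  unfold rM
  rw [Units.val_mul]
  exact (Int.castRingHom ℝ).mapMatrix.map_mul _ _

theorem finA_rM_one {n : ℕ} : rM (1 : GL (Fin n) ℤ) = 1 := by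
  unfold rM
  rw [Units.val_one]
  exact (Int.castRingHom ℝ).mapMatrix.map_one

theorem finA_L_inj {n : ℕ} {g : GL (Fin n) ℤ} (h : finA_L n g = 1) : g = 1 := by
  have h1 : rM g = rM (1 : GL (Fin n) ℤ) := by
    rw [finA_rM_one]
    apply Matrix.ext_of_mulVec_single
    intro i
    rw [← finA_L_apply, h, Matrix.one_mulVec]
    rfl
  apply Units.ext
  ext i j
  have h2 := congrFun (congrFun h1 i) j
  unfold rM at h2
  rw [Matrix.map_apply, Matrix.map_apply] at h2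
  exact_mod_cast h2

theorem finA_det {n : ℕ} (g : GL (Fin n) ℤ) :
    |LinearMap.det (finA_L n g : (Fin n → ℝ) →ₗ[ℝ] (Fin n → ℝ))| = 1 := by
  have h1 : (finA_L n g : (Fin n → ℝ) →ₗ[ℝ] (Fin n → ℝ)) = Matrix.toLin' (rM g) := by
    apply LinearMap.ext
    intro x
    rw [Matrix.toLin'_apply]
    exact finA_L_apply g x
  rw [h1, LinearMap.det_toLin']
  have h2 : (rM g).det = (((g : Matrix (Fin n) (Fin n) ℤ).det : ℤ) : ℝ) :=
    ((Int.castRingHom ℝ).map_det (g : Matrix (Fin n) (Fin n) ℤ)).symm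
  rw [h2]
  have h3 : IsUnit (g : Matrix (Fin n) (Fin n) ℤ).det :=
    (Matrix.isUnit_iff_isUnit_det _).1 g.isUnit
  rcases Int.isUnit_iff.1 h3 with h4 | h4 <;> rw [h4] <;> simp

theorem finA_dev {n : ℕ} (S : IntAffPair n) (γ : S.Γ) (x : S.X) :
    S.dev (γ • x) = finA_L n (S.lin γ) (S.dev x) + S.trans γ := S.dev_smul γ x

theorem finA_trans_one {n : ℕ} (S : IntAffPair n) : S.trans 1 = 0 := by
  obtain ⟨x⟩ : Nonempty S.X := inferInstance
  have h := finA_dev S 1 x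
  rw [one_smul, map_one, map_one] at h
  have h1 : S.dev x = S.dev x + S.trans 1 := h
  exact (left_eq_add.1 h1)

theorem finA_trans_mul {n : ℕ} (S : IntAffPair n) (γ γ' : S.Γ) :
    S.trans (γ * γ') = finA_L n (S.lin γ) (S.trans γ') + S.trans γ := by
  obtain ⟨x⟩ : Nonempty S.X := inferInstance
  have h := finA_dev S (γ * γ') x
  rw [mul_smul, finA_dev, finA_dev, map_add, map_mul, map_mul] at h
  have h1 : finA_L n (S.lin γ) (finA_L n (S.lin γ') (S.dev x)) + finA_L n (S.lin γ) (S.trans γ') +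
      S.trans γ = finA_L n (S.lin γ) (finA_L n (S.lin γ') (S.dev x)) + S.trans (γ * γ') := h
  rw [add_assoc] at h1
  exact (add_left_cancel h1).symm

/-- the transported action -/
theorem finA_affCyc {n : ℕ} (S : IntAffPair n) (hdev : IsHomeomorph S.dev)
    (Γ' : Subgroup S.Γ) [Γ'.FiniteIndex] (γ₀ : Γ')
    (hinf : ∀ k : ℤ, S.lin γ₀ ^ k = 1 → k = 0)
    (hcyc : ∀ γ ∈ Γ', ∃ k : ℤ, S.lin γ = S.lin γ₀ ^ k) :
    AffCyc ((finA_L n).comp (S.lin.comp Γ'.subtype)) (fun γ : Γ' => S.trans (γ : S.Γ)) γ₀ := by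
  refine ⟨finA_trans_one S, fun γ γ' => finA_trans_mul S γ γ', ?_, ?_, ?_, ?_, ?_, finA_det _⟩
  · intro γ
    obtain ⟨k, hk⟩ := hcyc γ γ.2
    refine ⟨k, ?_⟩
    show finA_L n (S.lin (γ : S.Γ)) = (finA_L n (S.lin (γ₀ : S.Γ))) ^ k
    rw [hk, map_zpow]
  · intro k hk
    apply hinf
    apply finA_L_inj
    rw [map_zpow]
    exact hk
  · intro γ x hx
    obtain ⟨y, rfl⟩ := hdev.surjective x
    have h1 : S.dev ((γ : S.Γ) • y) = S.dev y := by
      rw [finA_dev]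
      exact hx
    exact Subtype.ext (S.free _ _ (hdev.injective h1))
  · intro C hC
    have hK : IsCompact (hdev.homeomorph.symm '' C) := hC.image hdev.homeomorph.symm.continuous
    have h1 := ProperlyDiscontinuousSMul.finite_disjoint_inter_image (Γ := S.Γ) hK hK
    have h2 := h1.preimage (Subtype.val_injective (p := fun γ => γ ∈ Γ')).injOn
    refine h2.subset ?_
    rintro γ ⟨z, ⟨x, hx, hxz⟩, hz⟩
    obtain ⟨y, rfl⟩ := hdev.surjective x
    have hy : ∀ w : S.X, hdev.homeomorph.symm (S.dev w) = w := fun w =>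
      hdev.homeomorph.symm_apply_apply w
    have h3 : S.dev ((γ : S.Γ) • y) = z := by
      rw [finA_dev]
      exact hxz
    have hne : (((fun x => (γ : S.Γ) • x) '' (hdev.homeomorph.symm '' C)) ∩
        (hdev.homeomorph.symm '' C)).Nonempty := by
      refine ⟨(γ : S.Γ) • y, ⟨y, ⟨_, hx, hy y⟩, rfl⟩, ⟨_, hz, ?_⟩⟩
      rw [← h3]
      exact hy _
    exact hne
  · obtain ⟨T, e, f, -, h2, -⟩ := S.exists_restrict Γ'
    obtain ⟨K, hK, hKx⟩ := T.cocompact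
    refine ⟨S.dev '' (e '' K), (hK.image e.continuous).image hdev.continuous, fun x => ?_⟩
    obtain ⟨y, rfl⟩ := hdev.surjective x
    obtain ⟨γ, hγ⟩ := hKx (e.symm y)
    refine ⟨f γ, ?_⟩
    have h3 : S.dev ((f γ : S.Γ) • y) ∈ S.dev '' (e '' K) := by
      refine ⟨_, ⟨_, hγ, ?_⟩, rfl⟩
      rw [h2, e.apply_symm_apply]
    rw [finA_dev] at h3
    exact h3

/-- Structure of complete pairs with infinite cyclic linear holonomy (for a subgroup `Γ'` whose linear parts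
are the powers of `lin γ₀`, of infinite order, `γ₀ ∈ Γ'`, of finite index).
PROOF: transport the action to `E = Fin (m+1) → ℝ` by the homeomorphism `dev`: `AffCyc` holds for `Γ'` (`exists_restrict`
gives cocompactness; `prop` from `ProperlyDiscontinuousSMul` by `dev`-images of compact sets).
`exists_coordinates` gives `Φ, M, c, d`; `exists_normal_form` gives `Ψ`; `Θ = Ψ ∘ Φ ∘ dev` satisfies the hypothesis of
`orbit_homeo_torusBundle`: every `γ ∈ Γ'` is `n γ₀ ^ j` with `lin n = 1`, `n` acts by `(rV z, 0)`. -/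
theorem IntAffPair.quot_homeo {m : ℕ} (S : IntAffPair (m + 1)) (hdev : IsHomeomorph S.dev)
    (Γ' : Subgroup S.Γ) [Γ'.FiniteIndex] (γ₀ : S.Γ) (hγ₀ : γ₀ ∈ Γ')
    (hinf : ∀ k : ℤ, S.lin γ₀ ^ k = 1 → k = 0)
    (hcyc : ∀ γ ∈ Γ', ∃ k : ℤ, S.lin γ = S.lin γ₀ ^ k) :
    ∃ M : GL (Fin m) ℤ,
      ((∀ k : ℤ, M ^ k = 1 → k = 0) ∨ ((M : Matrix (Fin m) (Fin m) ℤ) - 1).det = 0) ∧
      Nonempty (S.Quot Γ' ≃ₜ TorusBundle M) := by
  have hA := finA_affCyc S hdev Γ' ⟨γ₀, hγ₀⟩ hinf hcyc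
  obtain ⟨Φ, M, c, d, hTr, hΦ⟩ := hA.exists_coordinates (m := m) (by simp)
  refine ⟨M, hA.order_or_eigenvalue Φ M c d hΦ, ?_⟩
  obtain ⟨Ψ, hΨ1, hΨ2, hΨ3⟩ := exists_normal_form M c d
  obtain ⟨Θ, hΘ⟩ : ∃ Θ : S.X ≃ₜ ((Fin m → ℝ) × ℝ), ∀ x, Θ x = Ψ (Φ (S.dev x)) :=
    ⟨hdev.homeomorph.trans (Φ.toContinuousLinearEquiv.toHomeomorph.trans Ψ), fun x => rfl⟩
  -- the generator
  have h1 : ∀ x : S.X, Θ (γ₀ • x) = ((rM M).mulVec (Θ x).1, (Θ x).2 + 1) := by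
    intro x
    have h2 := hΦ (S.dev x)
    have h3 : Φ (S.dev (γ₀ • x)) = ((rM M).mulVec (Φ (S.dev x)).1 + (Φ (S.dev x)).2 • c + d,
        (Φ (S.dev x)).2 + 1) := by
      rw [finA_dev]
      exact h2
    rw [hΘ, h3, hΨ3, hΘ]
    have h4 := hΨ2 (Φ (S.dev x)).1 (Φ (S.dev x)).2
    rw [Prod.mk.eta] at h4
    rw [h4]
  -- its powers
  have h2 : ∀ (k : ℤ) (x : S.X), Θ ((γ₀ ^ k) • x) = ((rM (M ^ k)).mulVec (Θ x).1, (Θ x).2 + k) := by
    intro k x
    induction k with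
    | zero =>
      rw [zpow_zero, zpow_zero, one_smul, finA_rM_one, Matrix.one_mulVec, Int.cast_zero, add_zero]
    | succ k ih =>
      have e1 : γ₀ ^ ((k : ℤ) + 1) = γ₀ * γ₀ ^ (k : ℤ) := by
        rw [← zpow_one_add]
        congr 1
        ring
      have e2 : M ^ ((k : ℤ) + 1) = M * M ^ (k : ℤ) := by
        rw [← zpow_one_add]
        congr 1
        ring
      rw [e1, e2, mul_smul, h1, ih, finA_rM_mul, ← Matrix.mulVec_mulVec]
      push_cast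
      rw [add_assoc]
    | pred k ih =>
      have e1 : γ₀ ^ (-(k : ℤ)) = γ₀ * γ₀ ^ (-(k : ℤ) - 1) := by
        rw [← zpow_one_add]
        congr 1
        ring
      have e2 : M ^ (-(k : ℤ)) = M * M ^ (-(k : ℤ) - 1) := by
        rw [← zpow_one_add]
        congr 1
        ring
      rw [e1, e2, mul_smul, h1, finA_rM_mul, ← Matrix.mulVec_mulVec] at ih
      have i1 := congrArg Prod.fst ih
      have i2 := congrArg Prod.snd ih
      simp only at i1 i2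
      have i3 : ∀ v w : Fin m → ℝ, (rM M).mulVec v = (rM M).mulVec w → v = w := by
        intro v w hvw
        have := congrArg (rM M⁻¹).mulVec hvw
        rwa [Matrix.mulVec_mulVec, Matrix.mulVec_mulVec, ← finA_rM_mul, inv_mul_cancel,
          finA_rM_one, Matrix.one_mulVec, Matrix.one_mulVec] at this
      refine Prod.ext (i3 _ _ i1) ?_
      push_cast at i2 ⊢
      linarith
  -- the translations
  have h3 : ∀ (n : Γ') (z : Fin m → ℤ), S.lin (n : S.Γ) = 1 → Φ (S.trans (n : S.Γ)) = (rV z, 0) →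
      ∀ x : S.X, Θ ((n : S.Γ) • x) = ((Θ x).1 + rV z, (Θ x).2) := by
    intro n z hn hz x
    rw [hΘ, finA_dev, hn, map_one]
    have e1 : Φ ((1 : (Fin (m + 1) → ℝ) ≃ₗ[ℝ] (Fin (m + 1) → ℝ)) (S.dev x) + S.trans (n : S.Γ)) =
        ((Φ (S.dev x)).1 + rV z, (Φ (S.dev x)).2) := by
      have e2 : (1 : (Fin (m + 1) → ℝ) ≃ₗ[ℝ] (Fin (m + 1) → ℝ)) (S.dev x) = S.dev x := rfl
      rw [e2, map_add, hz]
      exact Prod.ext rfl (add_zero _)
    rw [e1, hΨ1, hΘ]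
  refine orbit_homeo_torusBundle M Θ fun x y => ⟨?_, ?_⟩
  · rintro ⟨γ, rfl⟩
    obtain ⟨k, hk⟩ := hcyc γ γ.2
    obtain ⟨n, hn⟩ : ∃ n : Γ', n = γ * (⟨γ₀, hγ₀⟩ : Γ') ^ (-k) := ⟨_, rfl⟩
    have hnc : (n : S.Γ) = (γ : S.Γ) * γ₀ ^ (-k) := by
      rw [hn]
      rfl
    have hn1 : S.lin (n : S.Γ) = 1 := by
      rw [hnc, map_mul, map_zpow, hk, ← zpow_add, add_neg_cancel, zpow_zero]
    have hγ : (γ : S.Γ) = (n : S.Γ) * γ₀ ^ k := by
      rw [hnc, mul_assoc, ← zpow_add, neg_add_cancel, zpow_zero, mul_one]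
    obtain ⟨z, hz⟩ := (hTr (S.trans (n : S.Γ))).1 ⟨n, by
      show finA_L (m + 1) (S.lin (n : S.Γ)) = 1
      rw [hn1, map_one], rfl⟩
    refine ⟨k, z, ?_⟩
    have e1 : Θ (γ • x) = ((rM (M ^ k)).mulVec (Θ x).1 + rV z, (Θ x).2 + k) := by
      rw [Subgroup.smul_def, hγ, mul_smul, h3 n z hn1 hz, h2]
    rw [e1]
    exact ⟨rfl, rfl⟩
  · rintro ⟨j, z, e1, e2⟩
    obtain ⟨n, hn, hnz⟩ := (hTr (Φ.symm (rV z, 0))).2 ⟨z, Φ.apply_symm_apply _⟩
    have hn1 : S.lin (n : S.Γ) = 1 := finA_L_inj hn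
    have hnz' : S.trans (n : S.Γ) = Φ.symm (rV z, 0) := hnz
    refine ⟨n * (⟨γ₀, hγ₀⟩ : Γ') ^ j, ?_⟩
    apply Θ.injective
    have e3 : (n * (⟨γ₀, hγ₀⟩ : Γ') ^ j) • x = (n : S.Γ) • ((γ₀ ^ j) • x) := by
      rw [mul_smul]
      rfl
    rw [e3, h3 n z hn1 (by rw [hnz', Φ.apply_symm_apply]), h2]
    exact Prod.ext e2.symm e1.symm

end H83T
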