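import Pool.Agent.H.MP_7a8a58_gt.h83.Pair

set_option autoImplicit false

open Set Metric Topology Filter

namespace H83T

/-- A subgroup of finite index gives a developing pair (of a finite covering of `B`).
PROOF: restriction; cocompactness as in `markus_virtually_cyclic`. -/
theorem IntAffPair.exists_restrict {n : ℕ} (S : IntAffPair n) (Γ' : Subgroup S.Γ)
    [Γ'.FiniteIndex] : ∃ T : IntAffPair n, ∃ e : T.X ≃ₜ S.X, ∃ f : T.Γ ≃* Γ',
      (∀ x, T.dev x = S.dev (e x)) ∧ (∀ γ x, e (γ • x) = (f γ : S.Γ) • e x) ∧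
      (∀ γ, T.lin γ = S.lin (f γ : S.Γ)) := by
  have hpd : ProperlyDiscontinuousSMul Γ' S.X := by
    refine ⟨fun {K L} hK hL => ?_⟩
    have h := S.pd.finite_disjoint_inter_image hK hL
    exact (h.preimage (Subtype.coe_injective (p := fun γ => γ ∈ Γ')).injOn).subset
      fun γ hγ => hγ
  have hcont : ContinuousConstSMul Γ' S.X :=
    ⟨fun γ => S.cont.continuous_const_smul (γ : S.Γ)⟩
  have hco : ∃ K : Set S.X, IsCompact K ∧ ∀ x : S.X, ∃ γ : Γ', γ • x ∈ K := by
    obtain ⟨K, hK, hKx⟩ := S.cocompact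
    refine ⟨⋃ q : S.Γ ⧸ Γ', (fun x => (Quotient.out q)⁻¹ • x) '' K, ?_, fun x => ?_⟩
    · exact isCompact_iUnion fun q => hK.image (S.cont.continuous_const_smul _)
    · obtain ⟨γ, hγ⟩ := hKx x
      have h1 : (Quotient.out (γ : S.Γ ⧸ Γ'))⁻¹ * γ ∈ Γ' := by
        rw [← QuotientGroup.eq]
        exact Quotient.out_eq' _
      refine ⟨⟨_, h1⟩, mem_iUnion.2 ⟨(γ : S.Γ ⧸ Γ'), γ • x, hγ, ?_⟩⟩
      exact (mul_smul _ γ x).symm
  refine ⟨{ X := S.X
            Γ := Γ'
            pd := hpd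
            cont := hcont
            dev := S.dev
            lin := S.lin.comp Γ'.subtype
            trans := fun γ => S.trans γ
            isLocalHomeomorph_dev := S.isLocalHomeomorph_dev
            dev_smul := fun γ x => S.dev_smul (γ : S.Γ) x
            free := fun γ x h => Subtype.ext (S.free (γ : S.Γ) x h)
            cocompact := hco }, Homeomorph.refl _, MulEquiv.refl _, fun x => rfl, fun γ x => rfl,
    fun γ => rfl⟩

/-- PROOF: let `g = lin γ₀` generate a finite-index cyclic subgroup of the infinite group `lin.range`;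
`Γ' = comap lin (zpowers (lin γ₀))`. -/
theorem IntAffPair.exists_cyclic_subgroup {n : ℕ} (S : IntAffPair n)
    (h : VirtCyclic S.lin.range) (hinf : Infinite S.lin.range) :
    ∃ Γ' : Subgroup S.Γ, Γ'.FiniteIndex ∧ ∃ γ₀ ∈ Γ', (∀ k : ℤ, S.lin γ₀ ^ k = 1 → k = 0) ∧
      ∀ γ ∈ Γ', ∃ k : ℤ, S.lin γ = S.lin γ₀ ^ k := by
  obtain ⟨g, hg⟩ := h
  obtain ⟨γ₀, hγ₀⟩ := g.2
  have hg0 : S.lin.rangeRestrict γ₀ = g := Subtype.ext hγ₀
  refine ⟨(Subgroup.zpowers g).comap S.lin.rangeRestrict, ?_, γ₀, ?_, ?_, ?_⟩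
  · refine ⟨?_⟩
    rw [Subgroup.index_comap_of_surjective _ S.lin.rangeRestrict_surjective]
    exact hg.index_ne_zero
  · rw [Subgroup.mem_comap, hg0]
    exact Subgroup.mem_zpowers g
  · intro k hk
    by_contra hk0
    have h1 : g ^ k = 1 := by
      apply Subtype.ext
      rw [Subgroup.coe_zpow, ← hγ₀, hk]
      rfl
    have h2 : IsOfFinOrder g := isOfFinOrder_iff_zpow_eq_one.2 ⟨k, hk0, h1⟩
    have h3 : (Subgroup.zpowers g : Set S.lin.range).Finite := finite_zpowers.2 h2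
    have h4 : Finite (Subgroup.zpowers g) := h3.to_subtype
    have h5 := Subgroup.card_mul_index (Subgroup.zpowers g)
    have h6 : Nat.card S.lin.range ≠ 0 := by
      rw [← h5]
      exact mul_ne_zero Nat.card_pos.ne' hg.index_ne_zero
    exact absurd (Nat.finite_of_card_ne_zero h6) (not_finite_iff_infinite.2 hinf)
  · intro γ hγ
    obtain ⟨k, hk⟩ := Subgroup.mem_zpowers_iff.1 (Subgroup.mem_comap.1 hγ)
    refine ⟨k, ?_⟩
    have h1 := congrArg Subtype.val hk
    rw [Subgroup.coe_zpow, ← hγ₀] at h1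
    exact h1.symm

end H83T
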