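import Mathlib

/-!
MP_7a8a58_gt, helper83.  Closed integral affine manifolds presented by developing pairs, and
mapping tori of linear automorphisms of the torus.
-/

set_option autoImplicit false

open Set Metric Topology Filter

namespace H83T

/-- A developing pair of a closed integral affine `n`-manifold `B = Γ \ X`: a connected Hausdorff
space `X`, a group `Γ` acting on `X` by homeomorphisms, freely, properly discontinuously and
cocompactly, a local homeomorphism `dev : X → ℝⁿ` and a homomorphism `lin : Γ → GL(n, ℤ)` with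
`dev (γ x) = lin γ (dev x) + trans γ`. -/
structure IntAffPair (n : ℕ) where
  X : Type
  Γ : Type
  [topX : TopologicalSpace X]
  [t2X : T2Space X]
  [connX : ConnectedSpace X]
  [grp : Group Γ]
  [act : MulAction Γ X]
  [cont : ContinuousConstSMul Γ X]
  [pd : ProperlyDiscontinuousSMul Γ X]
  dev : X → (Fin n → ℝ)
  lin : Γ →* GL (Fin n) ℤ
  trans : Γ → (Fin n → ℝ)
  isLocalHomeomorph_dev : IsLocalHomeomorph dev
  dev_smul : ∀ (γ : Γ) (x : X),
    dev (γ • x) = ((lin γ : Matrix (Fin n) (Fin n) ℤ).map (fun a : ℤ => (a : ℝ))).mulVec (dev x)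
      + trans γ
  free : ∀ (γ : Γ) (x : X), γ • x = x → γ = 1
  cocompact : ∃ K : Set X, IsCompact K ∧ ∀ x : X, ∃ γ : Γ, γ • x ∈ K

attribute [instance] IntAffPair.topX IntAffPair.t2X IntAffPair.connX IntAffPair.grp
  IntAffPair.act IntAffPair.cont IntAffPair.pd

/-- The closed manifold `Γ' \ X` for a subgroup `Γ'` of `Γ` (for `Γ' = ⊤` it is `B`), with the quotient
topology. -/
abbrev IntAffPair.Quot {n : ℕ} (S : IntAffPair n) (Γ' : Subgroup S.Γ) : Type :=
  MulAction.orbitRel.Quotient Γ' S.X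

/-- A group is virtually cyclic: it has a cyclic subgroup of finite index. -/
def VirtCyclic (G : Type*) [Group G] : Prop :=
  ∃ g : G, (Subgroup.zpowers g).FiniteIndex

/-- `(w, t) ∼ (w', t')` iff `t' = t + j` and `w' = M ^ j w + z` for some `j ∈ ℤ`, `z ∈ ℤⁿ`. -/
def TorusRel {n : ℕ} (M : GL (Fin n) ℤ) (p q : (Fin n → ℝ) × ℝ) : Prop :=
  ∃ (j : ℤ) (z : Fin n → ℤ), q.2 = p.2 + j ∧
    q.1 = (((M ^ j : GL (Fin n) ℤ) : Matrix (Fin n) (Fin n) ℤ).map (fun a : ℤ => (a : ℝ))).mulVec
      p.1 + fun i => (z i : ℝ)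

/-- The mapping torus of the automorphism of `ℝⁿ / ℤⁿ` given by `M`, a closed `(n+1)`-manifold:
the quotient of `ℝⁿ × ℝ` by `TorusRel M` (an equivalence relation). -/
def TorusBundle {n : ℕ} (M : GL (Fin n) ℤ) : Type := _root_.Quot (TorusRel M)

instance {n : ℕ} (M : GL (Fin n) ℤ) : TopologicalSpace (TorusBundle M) :=
  inferInstanceAs (TopologicalSpace (_root_.Quot (TorusRel M)))

/-- real matrix of an integral one -/
def rM {n : ℕ} (M : GL (Fin n) ℤ) : Matrix (Fin n) (Fin n) ℝ :=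
  (M : Matrix (Fin n) (Fin n) ℤ).map (fun a : ℤ => (a : ℝ))

/-- integral vectors in `ℝⁿ` -/
def rV {n : ℕ} (z : Fin n → ℤ) : Fin n → ℝ := fun i => (z i : ℝ)

end H83T
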