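import Pool.Agent.H.MP_7a8a58_gt.h83.Vc
import Pool.Agent.H.MP_7a8a58_gt.h83.Pair

set_option autoImplicit false

open Set Metric Topology Filter

namespace H83T

/-- The linear automorphism of an integral matrix. -/
private noncomputable def IntA_iota (n : ℕ) :
    GL (Fin n) ℤ →* ((Fin n → ℝ) ≃ₗ[ℝ] (Fin n → ℝ)) :=
  (LinearMap.GeneralLinearGroup.generalLinearEquiv ℝ (Fin n → ℝ)).toMonoidHom.comp
    (Matrix.GeneralLinearGroup.toLin.toMonoidHom.comp
      (Matrix.GeneralLinearGroup.map (Int.castRingHom ℝ)))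

private theorem IntA_apply {n : ℕ} (M : GL (Fin n) ℤ) (v : Fin n → ℝ) :
    IntA_iota n M v =
      ((M : Matrix (Fin n) (Fin n) ℤ).map (fun a : ℤ => (a : ℝ))).mulVec v := by
  rfl

private theorem IntA_det {n : ℕ} (M : GL (Fin n) ℤ) :
    |LinearMap.det (IntA_iota n M : (Fin n → ℝ) →ₗ[ℝ] (Fin n → ℝ))| = 1 := by
  have h1 : (IntA_iota n M : (Fin n → ℝ) →ₗ[ℝ] (Fin n → ℝ)) =
      Matrix.toLin' ((M : Matrix (Fin n) (Fin n) ℤ).map (fun a : ℤ => (a : ℝ))) := by
    apply LinearMap.ext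
    intro v
    rw [Matrix.toLin'_apply]
    exact IntA_apply M v
  have h2 : ((M : Matrix (Fin n) (Fin n) ℤ).map (fun a : ℤ => (a : ℝ))).det =
      ((M : Matrix (Fin n) (Fin n) ℤ).det : ℝ) :=
    ((Int.castRingHom ℝ).map_det (M : Matrix (Fin n) (Fin n) ℤ)).symm
  have h3 : IsUnit (M : Matrix (Fin n) (Fin n) ℤ).det :=
    (Matrix.isUnit_iff_isUnit_det _).1 M.isUnit
  rw [h1, LinearMap.det_toLin', h2, ← Int.cast_abs, Int.isUnit_iff_abs_eq.1 h3, Int.cast_one]

/-- Completeness for developing pairs.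
PROOF: apply `markus_virtually_cyclic` with `E = Fin n → ℝ` and `L γ` = the linear automorphism of the
matrix `lin γ` over `ℝ` (composition of `GL (Fin n) ℤ →* GL (Fin n) ℝ` (`Matrix.GeneralLinearGroup.map`) and
`GL (Fin n) ℝ ≃* LinearMap.GeneralLinearGroup` and `(E ≃ₗ[ℝ] E)`); its range is isomorphic to
`lin.range` (the composed homomorphism is injective), `det = ± 1`. -/
theorem IntAffPair.complete {n : ℕ} (S : IntAffPair n) (h : VirtCyclic S.lin.range) :
    IsHomeomorph S.dev := by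
  refine markus_virtually_cyclic S.dev ((IntA_iota n).comp S.lin) S.trans
    S.isLocalHomeomorph_dev (fun γ x => ?_) S.cocompact (fun γ => IntA_det _) ?_
  · rw [S.dev_smul, MonoidHom.comp_apply, IntA_apply]
  · obtain ⟨g, hg⟩ := h
    have hmem : ∀ x : S.lin.range, IntA_iota n (x : GL (Fin n) ℤ) ∈
        ((IntA_iota n).comp S.lin).range := by
      rintro ⟨_, γ, rfl⟩
      exact ⟨γ, rfl⟩
    set f : S.lin.range →* ((IntA_iota n).comp S.lin).range :=
      ((IntA_iota n).comp S.lin.range.subtype).codRestrict _ hmem with hf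
    have hs : Function.Surjective f := by
      rintro ⟨_, γ, rfl⟩
      exact ⟨⟨S.lin γ, γ, rfl⟩, rfl⟩
    refine ⟨f g, ⟨?_⟩⟩
    rw [← MonoidHom.map_zpowers]
    intro h0
    have h1 := Subgroup.index_map_dvd (Subgroup.zpowers g) hs
    rw [h0, zero_dvd_iff] at h1
    exact hg.index_ne_zero h1

end H83T
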