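import Pool.Agent.H.MP_7a8a58_gt.h83.LatB

set_option autoImplicit false

open Set Metric Topology Filter

namespace H83T

variable {E : Type*} [NormedAddCommGroup E] [NormedSpace ℝ E] [FiniteDimensional ℝ E]
variable {X : Type*} [TopologicalSpace X] [T2Space X] [ConnectedSpace X]
variable {Γ : Type*} [Group Γ] [MulAction Γ X] [ContinuousConstSMul Γ X]
  [ProperlyDiscontinuousSMul Γ X]
variable {D : X → E} {L : Γ →* (E ≃ₗ[ℝ] E)} {b : Γ → E} {A : E ≃ₗ[ℝ] E} {γ₀ : Γ} {K : Set X}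
  {ε : ℝ}

/-- Main lemma. PROOF: restrict `A` and `Λ` to `Ec`, `abs_det_eq_one_of_lattice`, `eq_top_of_det`. -/
theorem CycSys.main (S : CycSys D L b A γ₀ K ε) (hsup : Es A ⊔ Ec D S.hD = ⊤) :
    Ec D S.hD = ⊤ := by
  by_contra hne
  have hA : ∀ v, A v ∈ Ec D S.hD ↔ v ∈ Ec D S.hD := by
    intro v
    have h := S.Ec_iff γ₀ (v := v)
    rwa [S.gen] at h
  let T : Ec D S.hD ≃ₗ[ℝ] Ec D S.hD :=
    { toFun := fun x => ⟨A x, (hA x).2 x.2⟩
      map_add' := fun x y => Subtype.ext (map_add A _ _)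
      map_smul' := fun c x => Subtype.ext (map_smul A c _)
      invFun := fun x => ⟨A.symm x, (hA _).1 (by
        rw [A.apply_symm_apply]
        exact x.2)⟩
      left_inv := fun x => Subtype.ext (A.symm_apply_apply _)
      right_inv := fun x => Subtype.ext (A.apply_symm_apply _) }
  let Λ : AddSubgroup (Ec D S.hD) :=
    (Lam D S.hD L).comap (Ec D S.hD).subtype.toAddMonoidHom
  have hmem : ∀ w : Ec D S.hD, w ∈ Λ ↔ (w : E) ∈ Lam D S.hD L := fun w => Iff.rfl
  obtain ⟨r, hr, hdisc⟩ := S.lam_discrete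
  obtain ⟨R, hR⟩ := S.lam_cocompact hsup hne
  have hdet : |LinearMap.det (T : Ec D S.hD →ₗ[ℝ] Ec D S.hD)| = 1 := by
    refine abs_det_eq_one_of_lattice Λ ⟨r, hr, fun w hw hwr => ?_⟩ ⟨R, fun w => ?_⟩ T fun w => ?_
    · exact Subtype.ext (hdisc w ((hmem w).1 hw) hwr)
    · obtain ⟨l, hl, hlR⟩ := hR w w.2
      exact ⟨⟨l, hl.1⟩, (hmem _).2 hl, hlR⟩
    · rw [hmem, hmem]
      exact S.lam_A w
  exact hne (eq_top_of_det A _ hA S.det T (fun v => rfl) hdet hsup)

/-- Cyclic case. -/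
theorem CycSys.complete (S : CycSys D L b A γ₀ K ε) : IsHomeomorph D := by
  have h1 : Es A ⊔ Es A⁻¹ ⊔ Ec D S.hD = ⊤ := by
    refine sup_Es_eq_top A (Ec D S.hD) ?_ (fun w₀ h => S.lemmaB h)
    intro v
    have := S.Ec_iff γ₀ (v := v)
    rwa [S.gen] at this
  refine isHomeomorph_of_Ec_top S.hD ?_
  rcases S.dich with h | h
  · refine S.inv.main ?_
    rw [← h1]
    apply le_antisymm
    · exact sup_le (le_sup_of_le_left le_sup_right) le_sup_right
    · exact sup_le (sup_le (le_sup_of_le_right h) le_sup_left) le_sup_right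
  · refine S.main ?_
    rw [← h1]
    apply le_antisymm
    · exact sup_le (le_sup_of_le_left le_sup_left) le_sup_right
    · exact sup_le (sup_le le_sup_left (le_sup_of_le_right h)) le_sup_right

end H83T
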