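import Pool.Agent.H.MP_7a8a58_gt.h83.RadA
import Pool.Agent.H.MP_7a8a58_gt.h83.LinAlg

set_option autoImplicit false

open Set Metric Topology Filter

namespace H83T

variable {E : Type*} [NormedAddCommGroup E] [NormedSpace ℝ E]
variable {X : Type*} [TopologicalSpace X] [T2Space X]
variable {Γ : Type*} [Group Γ] [MulAction Γ X] [ContinuousConstSMul Γ X]
variable {D : X → E} {L : Γ →* (E ≃ₗ[ℝ] E)} {b : Γ → E} {A : E ≃ₗ[ℝ] E} {γ₀ : Γ} {K : Set X}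
  {ε : ℝ}

/-- (4.1) of the page.
PROOF: let `ρ = Rd x₀ > 0`, `Rd ≤ r₂` and `Rd ≥ ε` on `K` (`Rd_continuous`, `le_Rd`). By
`infDist_contraction` there is `k₀` with: for `k ≥ k₀` (natural), `L γ = A ^ k` gives
`Rd (γ • y) ≤ δ Rd y` with `δ r₂ < ρ` and `δ ρ < ε`. If `ex D x₀ w = γ • y`, `y ∈ K`, `L γ = A ^ k`, then
`Rd (γ • y) = ρ` (`Rd_ex`), so `k < k₀`; and for `k ≤ -k₀` `ε ≤ Rd y = Rd (γ⁻¹ • (γ • y)) ≤ δ ρ < ε`, so
`k > -k₀`. Put `K₁ = ⋃_{|k| < k₀} γ₀ ^ k • K` and `n = (γ γ₀ ^ (-k))⁻¹`. -/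
theorem CycSys.orbit_in_compact [ConnectedSpace X] [FiniteDimensional ℝ E]
    (S : CycSys D L b A γ₀ K ε) (hsup : Es A ⊔ Ec D S.hD = ⊤) (hne : Ec D S.hD ≠ ⊤) (x₀ : X) :
    ∃ K₁ : Set X, IsCompact K₁ ∧ ∀ w ∈ Ec D S.hD, ∃ n : Γ, L n = 1 ∧ n • ex D x₀ w ∈ K₁ := by
  have hD := S.hD
  have hε := S.ε_pos
  have hun : ∀ x, Dom D x ≠ univ := fun x h => hne (Ec_top_of_univ hD h)
  have hRc := Rd_continuous hD hun
  have hρ : 0 < Rd D hD x₀ := by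
    obtain ⟨r, hr, hb⟩ := Metric.isOpen_iff.mp (isOpen_dom hD x₀) 0 (zero_mem_dom D x₀)
    exact lt_of_lt_of_le hr (le_Rd hD (hun x₀) hb)
  set ρ := Rd D hD x₀ with hρdef
  obtain ⟨r₂, hr₂⟩ := S.hK.bddAbove_image hRc.continuousOn
  have hr₂' : ∀ y ∈ K, Rd D hD y ≤ max r₂ 0 := fun y hy =>
    (hr₂ (mem_image_of_mem _ hy)).trans (le_max_left _ _)
  set R := max r₂ 0 with hR
  have hR0 : 0 ≤ R := le_max_right _ _
  have hKε : ∀ y ∈ K, ε ≤ Rd D hD y := fun y hy =>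
    le_Rd hD (hun y) (ball_subset_closedBall.trans (S.chart y hy))
  set δ := min (ρ / (R + 1)) (ε / (ρ + 1)) with hδ
  have hδ0 : 0 < δ := lt_min (by positivity) (by positivity)
  have hδ1 : δ * R < ρ := by
    have h1 : δ * (R + 1) ≤ ρ := by
      rw [← le_div_iff₀ (by positivity)]
      exact min_le_left _ _
    nlinarith
  have hδ2 : δ * ρ < ε := by
    have h1 : δ * (ρ + 1) ≤ ε := by
      rw [← le_div_iff₀ (by positivity)]
      exact min_le_right _ _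
    nlinarith
  have hF : ∀ v, A v ∈ Ec D hD ↔ v ∈ Ec D hD := by
    intro v
    have := S.Ec_iff γ₀ (v := v)
    rwa [S.gen] at this
  obtain ⟨k₀, hk₀⟩ := infDist_contraction A (Ec D hD) hF hsup δ hδ0
  have hcon : ∀ (γ : Γ) (k : ℤ), L γ = A ^ k → (k₀ : ℤ) ≤ k → ∀ y : X,
      Rd D hD (γ • y) ≤ δ * Rd D hD y := by
    intro γ k hγ hk y
    refine S.Rd_smul_le hun hδ0.le (fun v => ?_) y
    obtain ⟨n, rfl⟩ := Int.eq_ofNat_of_zero_le (le_trans (Int.natCast_nonneg k₀) hk)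
    have h1 := hk₀ n (by exact_mod_cast hk) v
    rw [hγ, zpow_natCast]
    exact h1
  refine ⟨⋃ k ∈ Ioo (-(k₀ : ℤ)) k₀, (fun y => (γ₀ ^ k) • y) '' K,
    (finite_Ioo _ _).isCompact_biUnion
      (fun k _ => S.hK.image (continuous_const_smul (γ₀ ^ k))), ?_⟩
  intro w hw
  obtain ⟨γ, y, hy, hx⟩ := S.cov (ex D x₀ w)
  obtain ⟨k, hk⟩ := S.cyc γ
  have hRx : Rd D hD (γ • y) = ρ := by rw [← hx, Rd_ex hD hw]
  have hk1 : k < k₀ := by
    by_contra h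
    push Not at h
    have h1 := hcon γ k hk h y
    rw [hRx] at h1
    have h2 : δ * Rd D hD y ≤ δ * R := mul_le_mul_of_nonneg_left (hr₂' y hy) hδ0.le
    linarith
  have hk2 : -(k₀ : ℤ) < k := by
    by_contra h
    push Not at h
    have h1 := hcon γ⁻¹ (-k) (by rw [map_inv, hk, zpow_neg]) (by omega) (γ • y)
    rw [hRx, inv_smul_smul] at h1
    have h2 := hKε y hy
    linarith
  refine ⟨(γ * γ₀ ^ (-k))⁻¹, ?_, ?_⟩
  · rw [map_inv, map_mul, map_zpow, S.gen, hk, zpow_neg, mul_inv_cancel, inv_one]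
  · rw [mem_iUnion₂]
    refine ⟨k, ⟨hk2, hk1⟩, y, hy, ?_⟩
    show γ₀ ^ k • y = (γ * γ₀ ^ (-k))⁻¹ • ex D x₀ w
    rw [hx, mul_inv_rev, zpow_neg, inv_inv, mul_smul, inv_smul_smul]

end H83T
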