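import Pool.Agent.H.MP_7a8a58_gt.h83.SD
import Pool.Agent.H.MP_7a8a58_gt.h83.Rad
import Pool.Agent.H.MP_7a8a58_gt.h83.Dich

set_option autoImplicit false

open Set Metric Topology Filter

namespace H83T

variable {E : Type*} [NormedAddCommGroup E] [NormedSpace ℝ E] [FiniteDimensional ℝ E]
variable {X : Type*} [TopologicalSpace X] [T2Space X] [ConnectedSpace X]
variable {Γ : Type*} [Group Γ] [MulAction Γ X] [ContinuousConstSMul Γ X]
  [ProperlyDiscontinuousSMul Γ X]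
variable {D : X → E} {L : Γ →* (E ≃ₗ[ℝ] E)} {b : Γ → E} {A : E ≃ₗ[ℝ] E} {γ₀ : Γ} {K : Set X}
  {ε : ℝ}

/-- `Λ` (4.3): the `w ∈ Ec` such that the flow by `w` is the action of an element of `ker L`. -/
def Lam (D : X → E) (hD : IsLocalHomeomorph D) (L : Γ →* (E ≃ₗ[ℝ] E)) : AddSubgroup E where
  carrier := {w | w ∈ Ec D hD ∧ ∃ n : Γ, L n = 1 ∧ ∀ x : X, n • x = ex D x w}
  zero_mem' := ⟨(Ec D hD).zero_mem, 1, map_one L, fun x => by rw [one_smul, ex_zero hD]⟩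
  add_mem' := by
    rintro v w ⟨hv, n, hn, h⟩ ⟨hw, m, hm, h'⟩
    refine ⟨(Ec D hD).add_mem hv hw, m * n, by rw [map_mul, hn, hm, one_mul], fun x => ?_⟩
    have hvd : v ∈ Dom D x := by
      have h1 := hv x 1
      rwa [one_smul] at h1
    rw [mul_smul, h x, h' (ex D x v)]
    exact (add_dom hD hw hvd).2.symm
  neg_mem' := by
    rintro v ⟨hv, n, hn, h⟩
    refine ⟨(Ec D hD).neg_mem hv, n⁻¹, by rw [map_inv, hn, inv_one], fun x => ?_⟩
    have hvd : -v ∈ Dom D x := by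
      have h1 := (Ec D hD).neg_mem hv x 1
      rwa [one_smul] at h1
    have h2 := (add_dom hD hv hvd).2
    rw [neg_add_cancel, ex_zero hD] at h2
    rw [inv_smul_eq_iff, h]
    exact h2

omit [FiniteDimensional ℝ E] [ConnectedSpace X] [ProperlyDiscontinuousSMul Γ X] in
private theorem LatA_conj (S : CycSys D L b A γ₀ K ε) (γ : Γ) {w : E}
    (hw : w ∈ Lam D S.hD L) : L γ w ∈ Lam D S.hD L := by
  obtain ⟨hE, n, hn, h⟩ := hw
  refine ⟨(S.Ec_iff γ).2 hE, γ * n * γ⁻¹, ?_, fun x => ?_⟩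
  · rw [map_mul, map_mul, hn, mul_one, ← map_mul, mul_inv_cancel, map_one]
  · have hd : w ∈ Dom D (γ⁻¹ • x) := by
      have h1 := hE (γ⁻¹ • x) 1
      rwa [one_smul] at h1
    have h2 := (S.smul_dom γ hd).2
    rw [smul_inv_smul] at h2
    rw [mul_smul, mul_smul, h, h2]

/-- PROOF: conjugate by `γ₀` (`smul_dom`, `Ec_iff`). -/
theorem CycSys.lam_A (S : CycSys D L b A γ₀ K ε) (w : E) :
    A w ∈ Lam D S.hD L ↔ w ∈ Lam D S.hD L := by
  constructor
  · intro h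
    have h1 := LatA_conj S γ₀⁻¹ h
    have h2 : L γ₀⁻¹ (A w) = w := by
      rw [← S.gen, map_inv]
      exact (L γ₀).symm_apply_apply w
    rwa [h2] at h1
  · intro h
    have h1 := LatA_conj S γ₀ h
    rwa [S.gen] at h1

/-- PROOF: fix `x₀`, `η` with `closedBall 0 η ⊆ Dom D x₀`, `K₂ = ex D x₀ '' closedBall 0 η` compact. For
`w ∈ Λ`, `‖w‖ ≤ η`, `n • x₀ = ex D x₀ w ∈ K₂`: finitely many `n`, and `w = D (n • x₀) - D x₀`. So
`Λ ∩ closedBall 0 η` is finite. -/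
theorem CycSys.lam_discrete (S : CycSys D L b A γ₀ K ε) :
    ∃ r > 0, ∀ w ∈ Lam D S.hD L, ‖w‖ < r → w = 0 := by
  obtain ⟨x₀⟩ : Nonempty X := inferInstance
  obtain ⟨η, hη, hsub⟩ := Metric.isOpen_iff.1 (isOpen_dom S.hD x₀) 0 (zero_mem_dom D x₀)
  have hsub' : closedBall (0 : E) (η / 2) ⊆ Dom D x₀ :=
    (closedBall_subset_ball (half_lt_self hη)).trans hsub
  have hK₂ : IsCompact (ex D x₀ '' closedBall (0 : E) (η / 2)) :=
    (isCompact_closedBall (0 : E) (η / 2)).image_of_continuousOn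
      ((continuousOn_ex S.hD x₀).mono hsub')
  have hF : Set.Finite {γ : Γ | (((γ • ·) '' ({x₀} : Set X)) ∩
      (ex D x₀ '' closedBall (0 : E) (η / 2))).Nonempty} :=
    ProperlyDiscontinuousSMul.finite_disjoint_inter_image isCompact_singleton hK₂
  have hT := (hF.image fun γ : Γ => D (γ • x₀) - D x₀).subset
    (sdiff_subset (t := ({0} : Set E)))
  obtain ⟨r, hr, hrs⟩ := Metric.isOpen_iff.1 hT.isClosed.isOpen_compl (0 : E)
    (fun h => h.2 rfl)
  refine ⟨min r (η / 2), lt_min hr (half_pos hη), fun w hw hwr => ?_⟩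
  obtain ⟨hE, n, -, h⟩ := hw
  have hwd : w ∈ Dom D x₀ := by
    have h1 := hE x₀ 1
    rwa [one_smul] at h1
  by_contra hne
  have h1 : w ∈ ball (0 : E) r := by
    rw [mem_ball_zero_iff]
    exact hwr.trans_le (min_le_left _ _)
  refine hrs h1 ⟨⟨n, ?_, ?_⟩, hne⟩
  · refine ⟨n • x₀, ⟨x₀, rfl, rfl⟩, w, ?_, (h x₀).symm⟩
    rw [mem_closedBall_zero_iff]
    exact (hwr.trans_le (min_le_right _ _)).le
  · show D (n • x₀) - D x₀ = w
    rw [h x₀, D_ex hwd, add_sub_cancel_left]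

end H83T
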