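import Pool.Agent.H.MP_7a8a58_gt.h83.LatA

set_option autoImplicit false

open Set Metric Topology Filter

namespace H83T

variable {E : Type*} [NormedAddCommGroup E] [NormedSpace ℝ E] [FiniteDimensional ℝ E]
variable {X : Type*} [TopologicalSpace X] [T2Space X] [ConnectedSpace X]
variable {Γ : Type*} [Group Γ] [MulAction Γ X] [ContinuousConstSMul Γ X]
  [ProperlyDiscontinuousSMul Γ X]
variable {D : X → E} {L : Γ →* (E ≃ₗ[ℝ] E)} {b : Γ → E} {A : E ≃ₗ[ℝ] E} {γ₀ : Γ} {K : Set X}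
  {ε : ℝ}

omit [FiniteDimensional ℝ E] [ProperlyDiscontinuousSMul Γ X] in
/-- An element over a translation which moves one point by `u ∈ Ec` moves all points by `u`. -/
private theorem LatB_all (S : CycSys D L b A γ₀ K ε) {m : Γ} (hm : L m = 1) {u : E}
    (hu : u ∈ Ec D S.hD) {y : X} (hy : m • y = ex D y u) : ∀ x : X, m • x = ex D x u := by
  have hmem : ∀ x : X, u ∈ Dom D x := fun x => by
    have h := hu x 1
    rwa [one_smul] at h
  have hDm : ∀ x : X, D (m • x) = D x + b m := by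
    intro x
    rw [S.eqv, hm]
    rfl
  have hb : b m = u := by
    have h1 := hDm y
    rw [hy, D_ex (hmem y)] at h1
    exact (add_left_cancel h1).symm
  have hf : Continuous fun x : X => m • x := continuous_const_smul m
  have hg : Continuous fun x : X => ex D x u :=
    (continuousOn_ex2 S.hD).comp_continuous (f := fun x : X => (x, u))
      (continuous_id.prodMk continuous_const) hmem
  intro x
  refine eqOn_of_lift S.hD (isPreconnected_univ (α := X)) hf.continuousOn hg.continuousOn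
    (fun a _ => ?_) (mem_univ y) hy x (mem_univ x)
  rw [hDm, D_ex (hmem a), hb]

omit [FiniteDimensional ℝ E] [ConnectedSpace X] [ProperlyDiscontinuousSMul Γ X] in
private theorem LatB_smul (S : CycSys D L b A γ₀ K ε) {n : Γ} (hn : L n = 1) {x : X} {v : E}
    (hv : v ∈ Dom D x) : ex D (n • x) v = n • ex D x v := by
  have h := (S.smul_dom n hv).2
  rw [hn] at h
  exact h

omit [FiniteDimensional ℝ E] [ConnectedSpace X] in
/-- Small charts. -/
private theorem LatB_chart (hD : IsLocalHomeomorph D) {δ : ℝ} (hδ : 0 < δ) (p : X) :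
    ∃ U ∈ 𝓝 p, ∀ y ∈ U, ∀ z ∈ U, ∃ v : E, ‖v‖ < δ ∧ v ∈ Dom D y ∧ z = ex D y v := by
  obtain ⟨η, hη, hsub⟩ := Metric.isOpen_iff.1 (isOpen_dom hD p) 0 (zero_mem_dom D p)
  refine ⟨ex D p '' ball 0 (min η (δ / 2)), ?_, ?_⟩
  · rw [nhds_eq_map_ex hD p]
    exact image_mem_map (ball_mem_nhds 0 (lt_min hη (half_pos hδ)))
  · rintro y ⟨a, ha, rfl⟩ z ⟨c, hc, rfl⟩
    have hC : ball (0 : E) (min η (δ / 2)) ⊆ Dom D p :=
      (ball_subset_ball (min_le_left _ _)).trans hsub
    have hac : a + (c - a) = c := by abel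
    obtain ⟨h1, h2⟩ := move hD (convex_ball (0 : E) (min η (δ / 2))) hC (v := a) (w := c - a) ha
      (by rw [hac]; exact hc)
    rw [hac] at h2
    refine ⟨c - a, ?_, h1, h2.symm⟩
    rw [mem_ball_zero_iff] at ha hc
    have h3 := norm_sub_le c a
    have h4 := min_le_right η (δ / 2)
    linarith

/-- PROOF: (4.3). `k w = n w • ex D x₀ w ∈ K₁` (`orbit_in_compact`). With `δ` of `small_displacement` cover
`K₁` by finitely many sets such that any two points `p, p'` of one set satisfy `p' = ex D p v`, `‖v‖ < δ`,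
`v ∈ Dom D p` (`nhds_eq_map_ex`, `move`, `back`). If `k w' = ex D (k w) v` then
`n w' • ex D x₀ w' = n w' • n w⁻¹ • ex D (k w) (w' - w)`, so `v ∈ Ec`, and
`n = n w' (n w)⁻¹` satisfies `n • x = ex D x (v - (w' - w))` for all `x` (both sides are continuous lifts
which agree at `ex D (k w) (w' - w)`... use `eqOn_of_lift` on `univ`), so `w' - w - v ∈ Λ` (up to sign).
So `w'` is within bounded distance of `Λ`. -/
theorem CycSys.lam_cocompact (S : CycSys D L b A γ₀ K ε) (hsup : Es A ⊔ Ec D S.hD = ⊤)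
    (hne : Ec D S.hD ≠ ⊤) :
    ∃ R : ℝ, ∀ w ∈ Ec D S.hD, ∃ l ∈ Lam D S.hD L, ‖w - l‖ ≤ R := by
  classical
  obtain ⟨x₀⟩ : Nonempty X := inferInstance
  obtain ⟨K₁, hK₁, hn⟩ := S.orbit_in_compact hsup hne x₀
  choose! n hn1 hn2 using hn
  obtain ⟨δ, hδ, hsd⟩ := small_displacement (Γ := Γ) S.hD hK₁
  have hmem : ∀ e ∈ Ec D S.hD, ∀ x : X, e ∈ Dom D x := fun e he x => by
    have h := he x 1
    rwa [one_smul] at h
  -- the key step
  have key : ∀ w ∈ Ec D S.hD, ∀ w' ∈ Ec D S.hD, ∀ v : E, ‖v‖ < δ →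
      v ∈ Dom D (n w • ex D x₀ w) → n w' • ex D x₀ w' = ex D (n w • ex D x₀ w) v →
      (w' - w) - v ∈ Lam D S.hD L := by
    intro w hw w' hw' v hv hvd hvk
    have hd : w' - w ∈ Ec D S.hD := (Ec D S.hD).sub_mem hw' hw
    have e1 : ex D x₀ w' = ex D (ex D x₀ w) (w' - w) := by
      have h1 := (add_dom S.hD hd (hmem w hw x₀)).2
      rwa [add_sub_cancel] at h1
    set p := n w • ex D x₀ w with hp
    have hp' : ex D x₀ w = (n w)⁻¹ • p := by rw [hp, inv_smul_smul]
    have hLinv : L (n w)⁻¹ = 1 := by rw [map_inv, hn1 w hw, inv_one]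
    set m := n w' * (n w)⁻¹ with hm
    have hLm : L m = 1 := by rw [hm, map_mul, hn1 w' hw', hLinv, one_mul]
    have e2 : m • ex D p (w' - w) = ex D p v := by
      rw [← hvk, e1, hp', LatB_smul S hLinv (hmem _ hd p), hm, mul_smul]
    have hvE : v ∈ Ec D S.hD := by
      refine hsd p (hn2 w hw) m (b m) (fun y => ?_) (w' - w) hd v hv hvd e2
      rw [S.eqv, hLm]
      rfl
    have hu : v - (w' - w) ∈ Ec D S.hD := (Ec D S.hD).sub_mem hvE hd
    have e3 : m • ex D p (w' - w) = ex D (ex D p (w' - w)) (v - (w' - w)) := by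
      rw [e2]
      have h1 := (add_dom S.hD hu (hmem _ hd p)).2
      rwa [add_sub_cancel] at h1
    have hall := LatB_all S hLm hu e3
    have hlam : v - (w' - w) ∈ Lam D S.hD L := ⟨hu, m, hLm, hall⟩
    have h2 := (Lam D S.hD L).neg_mem hlam
    rwa [neg_sub] at h2
  -- finitely many charts
  choose U hU hUv using fun p : X => LatB_chart S.hD hδ p
  obtain ⟨t, -, ht⟩ := hK₁.elim_nhds_subcover U fun p _ => hU p
  have hW : ∀ p : X, ∃ w : E, w ∈ Ec D S.hD ∧
      ((∃ w' ∈ Ec D S.hD, n w' • ex D x₀ w' ∈ U p) → n w • ex D x₀ w ∈ U p) := by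
    intro p
    by_cases h : ∃ w' ∈ Ec D S.hD, n w' • ex D x₀ w' ∈ U p
    · obtain ⟨w', hw', hw''⟩ := h
      exact ⟨w', hw', fun _ => hw''⟩
    · exact ⟨0, (Ec D S.hD).zero_mem, fun h' => absurd h' h⟩
  choose W hW1 hW2 using hW
  refine ⟨(∑ p ∈ t, ‖W p‖) + δ, fun w hw => ?_⟩
  obtain ⟨p, hp⟩ := mem_iUnion.1 (ht (hn2 w hw))
  obtain ⟨hpt, hpU⟩ := mem_iUnion.1 hp
  have hWU := hW2 p ⟨w, hw, hpU⟩
  obtain ⟨v, hv, hvd, hvk⟩ := hUv p _ hWU _ hpU
  refine ⟨(w - W p) - v, key (W p) (hW1 p) w hw v hv hvd hvk, ?_⟩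
  have e1 : w - ((w - W p) - v) = W p + v := by abel
  rw [e1]
  have h1 : ‖W p‖ ≤ ∑ p ∈ t, ‖W p‖ :=
    Finset.single_le_sum (f := fun p => ‖W p‖) (fun _ _ => norm_nonneg _) hpt
  have h2 := norm_add_le (W p) v
  linarith

end H83T
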