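import Pool.Agent.H.MP_7a8a58_gt.h83.LiftA

set_option autoImplicit false

open Set Metric Topology Filter

namespace H83T

variable {E : Type*} [NormedAddCommGroup E] [NormedSpace ℝ E]
variable {X : Type*} [TopologicalSpace X] [T2Space X]

/-- Tube lemma.
PROOF: let `c` be the path of `v`, `S = c '' Icc 0 1` compact. If `v ≠ 0`, `D` is injective on `S`
(`D (c t) = D x + t v`); if `v = 0` the path is constant by uniqueness. By
`Set.InjOn.exists_mem_nhdsSet` (`D` is continuous and near each point injective) there is an open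
`U ⊇ S` on which `D` is injective; `D '' U` is open (a local homeomorphism is an open map), contains the
compact segment `D x + segment 0 v`, so it contains its `δ`-thickening
(`IsCompact.exists_thickening_subset_open`). Put `s w = the point of U over D x + w`
(`Function.invFunOn D U (D x + w)`); it is continuous because `D|U` is an open injective map. -/
theorem tube {D : X → E} (hD : IsLocalHomeomorph D) {x : X} {v : E} (h : v ∈ Dom D x) :
    ∃ δ > 0, ∃ s : E → X, ContinuousOn s (thickening δ (segment ℝ 0 v)) ∧ s 0 = x ∧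
      ∀ w ∈ thickening δ (segment ℝ 0 v), D (s w) = D x + w := by
  obtain ⟨y, c, hc, hc0, -, hDc⟩ := h
  have : Nonempty X := ⟨x⟩
  have hS : IsCompact (c '' Icc (0 : ℝ) 1) := isCompact_Icc.image_of_continuousOn hc
  have hinj : InjOn D (c '' Icc (0 : ℝ) 1) := by
    rintro _ ⟨a, ha, rfl⟩ _ ⟨b, hb, rfl⟩ hab
    rw [hDc a ha, hDc b hb] at hab
    have h1 : a • v = b • v := add_left_cancel hab
    by_cases hv : v = 0
    · have h2 : ∀ t ∈ Icc (0 : ℝ) 1, c t = x := by
        refine eqOn_of_lift hD (isPreconnected_Icc) hc (continuousOn_const (c := x))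
          (fun t ht => ?_) (a₀ := (0 : ℝ)) ⟨le_rfl, zero_le_one⟩ hc0
        rw [hDc t ht, hv, smul_zero, add_zero]
      rw [h2 a ha, h2 b hb]
    · have h3 : (a - b) • v = 0 := by rw [sub_smul, h1, sub_self]
      rcases smul_eq_zero.1 h3 with h4 | h4
      · rw [sub_eq_zero.1 h4]
      · exact absurd h4 hv
  obtain ⟨t, ht, htinj⟩ := hinj.exists_mem_nhdsSet hS (fun z _ => hD.continuous.continuousAt)
    (fun z _ => by
      obtain ⟨e, he, hee⟩ := hD z
      refine ⟨e.source, e.open_source.mem_nhds he, ?_⟩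
      rw [hee]
      exact e.injOn)
  obtain ⟨U, hU, hSU, hUt⟩ := mem_nhdsSet_iff_exists.1 ht
  have hUinj : InjOn D U := htinj.mono hUt
  have hxU : x ∈ U := hSU ⟨0, ⟨le_rfl, zero_le_one⟩, hc0⟩
  have hDU : IsOpen (D '' U) := hD.isOpenMap U hU
  have hW : IsOpen ((fun w : E => D x + w) ⁻¹' (D '' U)) :=
    hDU.preimage (continuous_const.add continuous_id)
  have hseg : segment ℝ 0 v ⊆ (fun w : E => D x + w) ⁻¹' (D '' U) := by
    intro w hw
    rw [segment_eq_image'] at hw
    obtain ⟨a, ha, rfl⟩ := hw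
    refine ⟨c a, hSU ⟨a, ha, rfl⟩, ?_⟩
    show D (c a) = D x + (0 + a • (v - 0))
    rw [hDc a ha, sub_zero, zero_add]
  have hcs : IsCompact (segment ℝ 0 v) := by
    rw [segment_eq_image']
    exact isCompact_Icc.image (by fun_prop)
  obtain ⟨δ, hδ, hT⟩ := hcs.exists_thickening_subset_open hW hseg
  refine ⟨δ, hδ, fun w => Function.invFunOn D U (D x + w), ?_, ?_, ?_⟩
  · have h1 : IsOpenMap (U.domRestrict D) := hD.isOpenMap.comp hU.isOpenMap_subtype_val
    have h2 := h1.continuousOn_image_of_leftInvOn hUinj.leftInvOn_invFunOn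
    exact h2.comp (continuousOn_const.add continuousOn_id) hT
  · show Function.invFunOn D U (D x + 0) = x
    rw [add_zero]
    exact hUinj.leftInvOn_invFunOn hxU
  · intro w hw
    exact Function.invFunOn_eq (hT hw)

/-- near `(x₀, v₀)` the lifts are given by one section -/
theorem Lift_aux {D : X → E} (hD : IsLocalHomeomorph D) {x₀ : X} {v₀ : E} (h : v₀ ∈ Dom D x₀) :
    ∃ s : E → X, ContinuousAt s v₀ ∧
      ∀ᶠ p : X × E in 𝓝 (x₀, v₀), LiftsTo D p.1 p.2 (s (D p.1 - D x₀ + p.2)) := by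
  obtain ⟨δ, hδ, s, hs, hs0, hDs⟩ := tube hD h
  have hTo : IsOpen (thickening δ (segment ℝ 0 v₀)) := isOpen_thickening
  have h0 : (0 : E) ∈ thickening δ (segment ℝ 0 v₀) :=
    self_subset_thickening hδ _ (left_mem_segment ℝ 0 v₀)
  have hv : v₀ ∈ thickening δ (segment ℝ 0 v₀) :=
    self_subset_thickening hδ _ (right_mem_segment ℝ 0 v₀)
  have hu : Tendsto (fun x => D x - D x₀) (𝓝 x₀) (𝓝 0) := by
    have := (hD.continuous.tendsto x₀).sub (tendsto_const_nhds (x := D x₀))
    rwa [sub_self] at this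
  have e1 : ∀ᶠ x in 𝓝 x₀, s (D x - D x₀) = x := by
    obtain ⟨e, he, hee⟩ := hD x₀
    have hN : e.source ∈ 𝓝 x₀ := e.open_source.mem_nhds he
    have hc : Tendsto (fun x => s (D x - D x₀)) (𝓝 x₀) (𝓝 x₀) := by
      have h1 : Tendsto s (𝓝 0) (𝓝 x₀) := by
        have := (hs.continuousAt (hTo.mem_nhds h0)).tendsto
        rwa [hs0] at this
      exact h1.comp hu
    filter_upwards [hc.eventually hN, hN, hu.eventually (hTo.mem_nhds h0)] with x h1 h2 h3
    have h4 : D (s (D x - D x₀)) = D x := by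
      rw [hDs _ h3, add_sub_cancel]
    exact e.injOn h1 h2 (by rwa [← hee])
  have e2 : ∀ᶠ x in 𝓝 x₀, ‖D x - D x₀‖ < δ / 2 := by
    have := hu.norm
    rw [norm_zero] at this
    exact this.eventually (gt_mem_nhds (by positivity))
  have e3 : ∀ᶠ v in 𝓝 v₀, ‖v - v₀‖ < δ / 2 := by
    have h1 : Tendsto (fun v : E => ‖v - v₀‖) (𝓝 v₀) (𝓝 0) := by
      have := ((continuous_id.sub (continuous_const (y := v₀))).norm).tendsto v₀
      simpa using this
    exact h1.eventually (gt_mem_nhds (by positivity))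
  refine ⟨s, hs.continuousAt (hTo.mem_nhds hv), ?_⟩
  rw [nhds_prod_eq]
  filter_upwards [(e1.and e2).prod_mk e3] with p hp
  obtain ⟨⟨h1, h2⟩, h3⟩ := hp
  have hmem : ∀ t ∈ Icc (0 : ℝ) 1,
      D p.1 - D x₀ + t • p.2 ∈ thickening δ (segment ℝ 0 v₀) := by
    intro t ht
    rw [mem_thickening_iff]
    refine ⟨t • v₀, ?_, ?_⟩
    · rw [segment_eq_image']
      refine ⟨t, ht, ?_⟩
      show (0 : E) + t • (v₀ - 0) = t • v₀
      rw [sub_zero, zero_add]
    · rw [dist_eq_norm]
      have h4 : D p.1 - D x₀ + t • p.2 - t • v₀ = (D p.1 - D x₀) + t • (p.2 - v₀) := by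
        rw [smul_sub]
        abel
      rw [h4]
      refine (norm_add_le _ _).trans_lt ?_
      rw [norm_smul, Real.norm_eq_abs, abs_of_nonneg ht.1]
      have h5 : t * ‖p.2 - v₀‖ ≤ ‖p.2 - v₀‖ :=
        mul_le_of_le_one_left (norm_nonneg _) ht.2
      linarith
  refine ⟨fun t => s (D p.1 - D x₀ + t • p.2), ?_, ?_, ?_, ?_⟩
  · exact hs.comp (by fun_prop) hmem
  · show s (D p.1 - D x₀ + (0 : ℝ) • p.2) = p.1
    rw [zero_smul, add_zero, h1]
  · show s (D p.1 - D x₀ + (1 : ℝ) • p.2) = s (D p.1 - D x₀ + p.2)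
    rw [one_smul]
  · intro t ht
    show D (s (D p.1 - D x₀ + t • p.2)) = D p.1 + t • p.2
    rw [hDs _ (hmem t ht)]
    abel

/-- Openness in both variables.
PROOF: at `(x₀, v₀)` take the tube section `s` at `x₀` with `δ`. For `x` near `x₀` one has
`x = s u` with `u = D x - D x₀`, `‖u‖ < δ/2` (both `x'` and `s (D x' - D x₀)` are points over `D x'`
near `x₀`, where `D` is injective), and for `‖v - v₀‖ < δ/2` the points `u + t v` lie in the tube, so
`t ↦ s (u + t v)` lifts the segment from `x`. -/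
theorem isOpen_dom2 {D : X → E} (hD : IsLocalHomeomorph D) :
    IsOpen {p : X × E | p.2 ∈ Dom D p.1} := by
  rw [isOpen_iff_mem_nhds]
  rintro ⟨x₀, v₀⟩ h
  obtain ⟨s, -, hs⟩ := Lift_aux hD h
  exact hs.mono fun p hp => ⟨_, hp⟩

/-- Joint continuity. PROOF: as above, near `(x₀, v₀)`, `ex D x v = s (D x - D x₀ + v)`. -/
theorem continuousOn_ex2 {D : X → E} (hD : IsLocalHomeomorph D) :
    ContinuousOn (fun p : X × E => ex D p.1 p.2) {p | p.2 ∈ Dom D p.1} := by
  rintro ⟨x₀, v₀⟩ h
  obtain ⟨s, hc, hs⟩ := Lift_aux hD h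
  refine ContinuousAt.continuousWithinAt ?_
  have h1 : ContinuousAt (fun p : X × E => s (D p.1 - D x₀ + p.2)) (x₀, v₀) := by
    have h2 : ContinuousAt (fun p : X × E => D p.1 - D x₀ + p.2) (x₀, v₀) := by
      have := hD.continuous
      fun_prop
    have h3 : ContinuousAt s ((fun p : X × E => D p.1 - D x₀ + p.2) (x₀, v₀)) := by
      show ContinuousAt s (D x₀ - D x₀ + v₀)
      rwa [sub_self, zero_add]
    exact ContinuousAt.comp (f := fun p : X × E => D p.1 - D x₀ + p.2) h3 h2
  exact h1.congr (hs.mono fun p hp => (ex_eq hD hp).2.symm)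

end H83T
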