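import Pool.Agent.H.MP_7a8a58_gt.h83.Defs

set_option autoImplicit false

open Set Metric Topology Filter

namespace H83T

variable {E : Type*} [NormedAddCommGroup E] [NormedSpace ℝ E]
variable {X : Type*} [TopologicalSpace X] [T2Space X]

/-- Unique lifting on a preconnected set.
PROOF: the set of `a : S` with `f a = g a` is clopen in the subtype `S` (closed: `X` is T2; open: `D` is
injective near `f a`); or use `IsSeparatedMap` + `IsLocallyInjective` (`T2Space.isSeparatedMap`,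
`IsLocalHomeomorph.isLocallyInjective`, `IsSeparatedMap.eq_of_comp_eq` or similar) on the
preconnected space `S`. -/
theorem eqOn_of_lift {D : X → E} (hD : IsLocalHomeomorph D) {A : Type*} [TopologicalSpace A]
    {S : Set A} (hS : IsPreconnected S) {f g : A → X} (hf : ContinuousOn f S)
    (hg : ContinuousOn g S) (hfg : ∀ a ∈ S, D (f a) = D (g a)) {a₀ : A} (ha₀ : a₀ ∈ S)
    (h : f a₀ = g a₀) : ∀ a ∈ S, f a = g a := by
  exact fun a ha => (T2Space.isSeparatedMap D).eqOn_of_comp_eqOn hD.isLocallyInjective hS hf hg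
    (fun a ha => hfg a ha) ha₀ h ha

/-- PROOF: `eqOn_of_lift` on `Icc 0 1`. -/
theorem liftsTo_unique {D : X → E} (hD : IsLocalHomeomorph D) {x : X} {v : E} {y y' : X}
    (h : LiftsTo D x v y) (h' : LiftsTo D x v y') : y = y' := by
  obtain ⟨c, hc, hc0, hc1, hcD⟩ := h
  obtain ⟨c', hc', hc0', hc1', hcD'⟩ := h'
  rw [← hc1, ← hc1']
  exact eqOn_of_lift hD isPreconnected_Icc hc hc' (fun t ht => by rw [hcD t ht, hcD' t ht])
    (a₀ := (0 : ℝ)) ⟨le_rfl, zero_le_one⟩ (by rw [hc0, hc0']) 1 ⟨zero_le_one, le_rfl⟩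

theorem ex_eq {D : X → E} (hD : IsLocalHomeomorph D) {x : X} {v : E} {y : X}
    (h : LiftsTo D x v y) : v ∈ Dom D x ∧ ex D x v = y := by
  have hv : v ∈ Dom D x := ⟨y, h⟩
  exact ⟨hv, liftsTo_unique hD (ex_spec hv) h⟩

theorem ex_zero {D : X → E} (hD : IsLocalHomeomorph D) (x : X) : ex D x 0 = x := by
  exact (ex_eq hD (liftsTo_zero D x)).2

/-- PROOF: restrict the path: `s ↦ c (t s)`. -/
theorem smul_mem_dom {D : X → E} {x : X} {v : E} (h : v ∈ Dom D x) {t : ℝ}
    (ht : t ∈ Icc (0 : ℝ) 1) : t • v ∈ Dom D x := by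
  obtain ⟨y, c, hc, hc0, hc1, hcD⟩ := h
  have hmaps : MapsTo (fun s : ℝ => t * s) (Icc 0 1) (Icc 0 1) := fun s hs =>
    ⟨mul_nonneg ht.1 hs.1, mul_le_one₀ ht.2 hs.1 hs.2⟩
  refine ⟨c t, fun s => c (t * s), hc.comp (by fun_prop) hmaps, ?_, ?_, ?_⟩
  · simp only [mul_zero, hc0]
  · simp only [mul_one]
  · intro s hs
    have h1 := hcD (t * s) (hmaps hs)
    change D (c (t * s)) = _
    rw [h1, smul_smul, mul_comm]

/-- PROOF: `ex D x (t • v) = c t` for the path `c` of `v` (by `ex_eq` applied to `s ↦ c (t s)`). -/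
theorem ex_path {D : X → E} (hD : IsLocalHomeomorph D) {x : X} {v : E} (h : v ∈ Dom D x) :
    ContinuousOn (fun t : ℝ => ex D x (t • v)) (Icc 0 1) := by
  obtain ⟨y, c, hc, hc0, hc1, hcD⟩ := h
  refine hc.congr ?_
  intro t ht
  have hmaps : MapsTo (fun s : ℝ => t * s) (Icc 0 1) (Icc 0 1) := fun s hs =>
    ⟨mul_nonneg ht.1 hs.1, mul_le_one₀ ht.2 hs.1 hs.2⟩
  refine (ex_eq hD ⟨fun s => c (t * s), hc.comp (by fun_prop) hmaps, ?_, ?_, ?_⟩).2
  · simp only [mul_zero, hc0]
  · simp only [mul_one]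
  · intro s hs
    have h1 := hcD (t * s) (hmaps hs)
    change D (c (t * s)) = _
    rw [h1, smul_smul, mul_comm]

/-- A continuous section over a convex (star-shaped) set containing `0` is given by `ex`.
PROOF: for `v ∈ C` the path `t ↦ s (t • v)` lifts the segment. -/
theorem dom_of_section {D : X → E} (hD : IsLocalHomeomorph D) {x : X} {C : Set E}
    (hC : StarConvex ℝ 0 C) {s : E → X} (hs : ContinuousOn s C)
    (hs0 : s 0 = x) (hDs : ∀ v ∈ C, D (s v) = D x + v) :
    ∀ v ∈ C, v ∈ Dom D x ∧ ex D x v = s v := by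
  intro v hv
  have hmaps : MapsTo (fun t : ℝ => t • v) (Icc 0 1) C := fun t ht =>
    hC.smul_mem hv ht.1 ht.2
  refine ex_eq hD ⟨fun t => s (t • v), hs.comp (by fun_prop) hmaps, ?_, ?_, ?_⟩
  · simp only [zero_smul, hs0]
  · simp only [one_smul]
  · intro t ht
    exact hDs _ (hmaps ht)

end H83T
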