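import Pool.Agent.H.MP_7a8a58_gt.h83.Defs

set_option autoImplicit false

open Set Metric Topology Filter

namespace H83T

/-- A recursion lemma. PROOF: given `δ > 0`, eventually `c n ≤ (1 - q) δ / 2`, and
`a (n + 1) ≤ q a n + (1 - q) δ / 2` gives `a (N + m) ≤ q ^ m a N + δ / 2`. -/
theorem tendsto_zero_of_rec {a c : ℕ → ℝ} {q : ℝ} (hq0 : 0 ≤ q) (hq : q < 1)
    (ha : ∀ n, 0 ≤ a n) (hrec : ∀ n, a (n + 1) ≤ q * a n + c n)
    (hc : Tendsto c atTop (𝓝 0)) : Tendsto a atTop (𝓝 0) := by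
  rw [Metric.tendsto_atTop]
  intro δ hδ
  have hq1 : 0 < 1 - q := sub_pos.2 hq
  obtain ⟨N, hN⟩ := Metric.tendsto_atTop.1 hc ((1 - q) * (δ / 2)) (by positivity)
  have hN' : ∀ n ≥ N, c n ≤ (1 - q) * (δ / 2) := fun n hn => by
    have := hN n hn
    rw [Real.dist_eq, sub_zero] at this
    exact (le_abs_self _).trans this.le
  have h1 : ∀ m, a (N + m) ≤ q ^ m * a N + δ / 2 := by
    intro m
    induction m with
    | zero =>
      rw [pow_zero, one_mul, add_zero]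
      linarith
    | succ m ih =>
      have h2 := hN' (N + m) (by omega)
      calc a (N + (m + 1)) ≤ q * a (N + m) + c (N + m) := hrec (N + m)
        _ ≤ q * (q ^ m * a N + δ / 2) + (1 - q) * (δ / 2) :=
          add_le_add (mul_le_mul_of_nonneg_left ih hq0) h2
        _ = q ^ (m + 1) * a N + δ / 2 := by ring
  have h2 : Tendsto (fun m => q ^ m * a N) atTop (𝓝 0) := by
    have := (tendsto_pow_atTop_nhds_zero_of_lt_one hq0 hq).mul_const (a N)
    simpa using this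
  obtain ⟨M, hM⟩ := Metric.tendsto_atTop.1 h2 (δ / 2) (by linarith)
  refine ⟨N + M, fun n hn => ?_⟩
  obtain ⟨m, rfl⟩ := Nat.exists_eq_add_of_le hn
  have h3 := h1 (M + m)
  have h4 := hM (M + m) (by omega)
  rw [Real.dist_eq, sub_zero] at h4 ⊢
  rw [abs_of_nonneg (ha _), add_assoc]
  have := le_abs_self (q ^ (M + m) * a N)
  linarith

variable {E : Type*} [NormedAddCommGroup E] [NormedSpace ℝ E] [FiniteDimensional ℝ E]

section Cx

variable {d : ℕ} (b : Module.Basis (Fin d) ℝ E)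

/-- The complexification of a linear map in coordinates. -/
noncomputable def LinA_cx (B : E →ₗ[ℝ] E) : Module.End ℂ (Fin d → ℂ) :=
  Matrix.toLin' ((LinearMap.toMatrix b b B).map (algebraMap ℝ ℂ))

omit [FiniteDimensional ℝ E] in
theorem LinA_cx_mul (B B' : E →ₗ[ℝ] E) :
    LinA_cx b (B ∘ₗ B') = LinA_cx b B * LinA_cx b B' := by
  unfold LinA_cx
  rw [LinearMap.toMatrix_comp b b b, Matrix.map_mul, Matrix.toLin'_mul]
  rfl

omit [FiniteDimensional ℝ E] in
theorem LinA_cx_one : LinA_cx b LinearMap.id = 1 := by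
  unfold LinA_cx
  rw [LinearMap.toMatrix_id, Matrix.map_one _ (map_zero _) (map_one _), Matrix.toLin'_one]
  rfl

/-- The real part. -/
noncomputable def LinA_re : (Fin d → ℂ) →ₗ[ℝ] E :=
  b.equivFun.symm.toLinearMap ∘ₗ (LinearMap.pi fun i => Complex.reLm ∘ₗ LinearMap.proj i)

omit [FiniteDimensional ℝ E] in
theorem LinA_repr (z : Fin d → ℂ) (i : Fin d) : b.repr (LinA_re b z) i = (z i).re := by
  have h : b.equivFun (LinA_re b z) = fun i => (z i).re :=
    b.equivFun.apply_symm_apply _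
  have h2 := congrFun h i
  rwa [Module.Basis.equivFun_apply] at h2

omit [FiniteDimensional ℝ E] in
theorem LinA_re_cx (B : E →ₗ[ℝ] E) (z : Fin d → ℂ) :
    LinA_re b (LinA_cx b B z) = B (LinA_re b z) := by
  apply b.repr.injective
  ext i
  rw [LinA_repr]
  have h1 := congrFun (LinearMap.toMatrix_mulVec_repr b b B (LinA_re b z)) i
  rw [← h1]
  unfold LinA_cx
  rw [Matrix.toLin'_apply, Matrix.mulVec, Matrix.mulVec, dotProduct, dotProduct, Complex.re_sum]
  refine Finset.sum_congr rfl fun j _ => ?_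
  rw [Matrix.map_apply, LinA_repr]
  simp

/-- The complex vectors all of whose multiples have their real part in `G`. -/
def LinA_sub (G : Submodule ℝ E) : Submodule ℂ (Fin d → ℂ) where
  carrier := {z | ∀ c : ℂ, LinA_re b (c • z) ∈ G}
  zero_mem' := by
    intro c
    rw [smul_zero, map_zero]
    exact G.zero_mem
  add_mem' := by
    intro x y hx hy c
    rw [smul_add, map_add]
    exact G.add_mem (hx c) (hy c)
  smul_mem' := by
    intro c' x hx c
    rw [smul_smul]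
    exact hx _

omit [FiniteDimensional ℝ E] in
theorem LinA_stable (T : Module.End ℂ (Fin d → ℂ)) {μ : ℂ} (hμ : ‖μ‖ < 1) :
    ∀ (j : ℕ) (z : Fin d → ℂ), ((T - μ • (1 : Module.End ℂ (Fin d → ℂ))) ^ j) z = 0 →
      Tendsto (fun n : ℕ => (T ^ n) z) atTop (𝓝 0)
  | 0, z, h => by
    have h1 : z = 0 := by simpa using h
    rw [h1]
    simp
  | j + 1, z, h => by
    set z' := (T - μ • (1 : Module.End ℂ (Fin d → ℂ))) z with hz'
    have h1 : ((T - μ • (1 : Module.End ℂ (Fin d → ℂ))) ^ j) z' = 0 := by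
      rw [pow_succ] at h
      exact h
    have ih := LinA_stable T hμ j z' h1
    have h2 : ∀ n : ℕ, (T ^ (n + 1)) z = μ • (T ^ n) z + (T ^ n) z' := by
      intro n
      have h3 : T z = μ • z + z' := by
        rw [hz']
        simp
      rw [pow_succ]
      change (T ^ n) (T z) = _
      rw [h3, map_add, map_smul]
    rw [tendsto_zero_iff_norm_tendsto_zero] at ih ⊢
    refine tendsto_zero_of_rec (norm_nonneg μ) hμ (fun n => norm_nonneg _) (fun n => ?_) ih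
    rw [h2, ← norm_smul]
    exact norm_add_le _ _

omit [FiniteDimensional ℝ E] in
theorem LinA_re_pow (A : E ≃ₗ[ℝ] E) (z : Fin d → ℂ) (n : ℕ) :
    LinA_re b ((LinA_cx b A.toLinearMap ^ n) z) = (A ^ n) (LinA_re b z) := by
  induction n with
  | zero => simp
  | succ n ih =>
    rw [pow_succ', pow_succ']
    change LinA_re b (LinA_cx b A.toLinearMap ((LinA_cx b A.toLinearMap ^ n) z)) =
      A ((A ^ n) (LinA_re b z))
    rw [LinA_re_cx, ih]
    rfl

omit [FiniteDimensional ℝ E] in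
theorem LinA_mem_Es (A : E ≃ₗ[ℝ] E) {μ : ℂ} (hμ : ‖μ‖ < 1) (j : ℕ) (z : Fin d → ℂ)
    (h : ((LinA_cx b A.toLinearMap - μ • (1 : Module.End ℂ (Fin d → ℂ))) ^ j) z = 0) :
    LinA_re b z ∈ Es A := by
  have h1 := LinA_stable (LinA_cx b A.toLinearMap) hμ j z h
  have h2 : Continuous (LinA_re b) := LinearMap.continuous_of_finiteDimensional _
  have h3 := (h2.tendsto 0).comp h1
  rw [map_zero] at h3
  change Tendsto (fun n : ℕ => (A ^ n) (LinA_re b z)) atTop (𝓝 0)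
  refine h3.congr fun n => ?_
  exact LinA_re_pow b A z n

omit [FiniteDimensional ℝ E] in
theorem LinA_cx_inv (A : E ≃ₗ[ℝ] E) :
    LinA_cx b (A⁻¹ : E ≃ₗ[ℝ] E).toLinearMap * LinA_cx b A.toLinearMap = 1 ∧
    LinA_cx b A.toLinearMap * LinA_cx b (A⁻¹ : E ≃ₗ[ℝ] E).toLinearMap = 1 := by
  constructor
  · rw [← LinA_cx_mul, ← LinA_cx_one b]
    congr 1
    ext v
    exact A.symm_apply_apply v
  · rw [← LinA_cx_mul, ← LinA_cx_one b]
    congr 1
    ext v
    exact A.apply_symm_apply v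

omit [FiniteDimensional ℝ E] in
theorem LinA_inv_pow (A : E ≃ₗ[ℝ] E) {μ : ℂ} (hμ : μ ≠ 0) (j : ℕ) (z : Fin d → ℂ)
    (h : ((LinA_cx b A.toLinearMap - μ • (1 : Module.End ℂ (Fin d → ℂ))) ^ j) z = 0) :
    ((LinA_cx b (A⁻¹ : E ≃ₗ[ℝ] E).toLinearMap -
      μ⁻¹ • (1 : Module.End ℂ (Fin d → ℂ))) ^ j) z = 0 := by
  obtain ⟨h1, h2⟩ := LinA_cx_inv b A
  set T := LinA_cx b A.toLinearMap
  set S := LinA_cx b (A⁻¹ : E ≃ₗ[ℝ] E).toLinearMap
  have h3 : S - μ⁻¹ • (1 : Module.End ℂ (Fin d → ℂ)) = (-μ⁻¹ • S) * (T - μ • 1) := by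
    rw [mul_sub, smul_mul_assoc, h1, mul_smul_comm, mul_one, smul_smul, mul_neg,
      mul_inv_cancel₀ hμ]
    module
  have h4 : Commute (-μ⁻¹ • S) (T - μ • 1) := by
    refine Commute.smul_left ?_ _
    refine Commute.sub_right (h1.trans h2.symm) ?_
    exact (Commute.one_right S).smul_right μ
  rw [h3, h4.mul_pow]
  change ((-μ⁻¹ • S) ^ j) (((T - μ • 1) ^ j) z) = 0
  rw [h, map_zero]

omit [FiniteDimensional ℝ E] in
theorem LinA_zpow (A : E ≃ₗ[ℝ] E) (F : Submodule ℝ E) (hF : ∀ v, A v ∈ F ↔ v ∈ F)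
    {μ : ℂ} (hμ : μ ≠ 0) (k : ℤ) : ∀ w : Fin d → ℂ,
    LinA_cx b A.toLinearMap w - μ • w ∈ LinA_sub b F →
      LinA_re b w - (A ^ k) (LinA_re b ((μ ^ (-k)) • w)) ∈ F := by
  induction k with
  | zero =>
    intro w _
    simp
  | succ k ih =>
    intro w hw
    have h1 := ih (μ⁻¹ • w) (by
      rw [map_smul, smul_comm μ, ← smul_sub]
      exact (LinA_sub b F).smul_mem _ hw)
    have h2 := (hF _).2 h1
    have h3 := hw μ⁻¹
    have e1 : LinA_re b (μ⁻¹ • (LinA_cx b A.toLinearMap w - μ • w)) =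
        A (LinA_re b (μ⁻¹ • w)) - LinA_re b w := by
      rw [smul_sub, smul_smul, inv_mul_cancel₀ hμ, one_smul, map_sub, ← map_smul, LinA_re_cx]
      rfl
    rw [e1] at h3
    have e2 : LinA_re b w - (A ^ ((k : ℤ) + 1)) (LinA_re b ((μ ^ (-((k : ℤ) + 1))) • w)) =
        A (LinA_re b (μ⁻¹ • w) - (A ^ (k : ℤ)) (LinA_re b (μ ^ (-(k : ℤ)) • μ⁻¹ • w))) -
          (A (LinA_re b (μ⁻¹ • w)) - LinA_re b w) := by
      have e3 : μ ^ (-((k : ℤ) + 1)) • w = μ ^ (-(k : ℤ)) • μ⁻¹ • w := by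
        rw [smul_smul, neg_add, zpow_add₀ hμ, zpow_neg_one]
      rw [e3, add_comm (k : ℤ) 1, zpow_add, zpow_one, map_sub]
      change _ - A ((A ^ (k : ℤ)) _) = _
      abel
    rw [e2]
    exact F.sub_mem h2 h3
  | pred k ih =>
    intro w hw
    have h1 := ih (μ • w) (by
      rw [map_smul, ← smul_sub]
      exact (LinA_sub b F).smul_mem _ hw)
    have h3 := hw 1
    rw [← hF]
    have e2 : A (LinA_re b w - (A ^ (-(k : ℤ) - 1)) (LinA_re b ((μ ^ (-(-(k : ℤ) - 1))) • w))) =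
        (LinA_re b (μ • w) - (A ^ (-(k : ℤ))) (LinA_re b (μ ^ (-(-(k : ℤ))) • μ • w))) +
          LinA_re b ((1 : ℂ) • (LinA_cx b A.toLinearMap w - μ • w)) := by
      have e3 : μ ^ (-(-(k : ℤ) - 1)) • w = μ ^ (-(-(k : ℤ))) • μ • w := by
        have e4 : -(-(k : ℤ) - 1) = -(-(k : ℤ)) + 1 := by ring
        rw [smul_smul, e4, zpow_add₀ hμ, zpow_one]
      have e5 : ∀ u, A ((A ^ (-(k : ℤ) - 1)) u) = (A ^ (-(k : ℤ))) u := by
        intro u
        have e6 : A * A ^ (-(k : ℤ) - 1) = A ^ (-(k : ℤ)) := by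
          rw [← zpow_one_add]
          congr 1
          ring
        exact congrArg (fun g : E ≃ₗ[ℝ] E => g u) e6
      rw [map_sub, e5, e3, one_smul, map_sub, LinA_re_cx]
      change A (LinA_re b w) - _ = _ + (A (LinA_re b w) - _)
      abel
    rw [e2]
    exact F.add_mem h1 h3

omit [FiniteDimensional ℝ E] in
theorem LinA_unit (A : E ≃ₗ[ℝ] E) (F : Submodule ℝ E) (hF : ∀ v, A v ∈ F ↔ v ∈ F)
    (hB : ∀ w₀ : E, (∃ C : ℝ, ∀ k : ℤ, ∃ w' : E, ‖w'‖ ≤ C ∧ w₀ - (A ^ k) w' ∈ F) → w₀ ∈ F)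
    {μ : ℂ} (hμ : ‖μ‖ = 1) : ∀ (j : ℕ) (z : Fin d → ℂ),
    ((LinA_cx b A.toLinearMap - μ • (1 : Module.End ℂ (Fin d → ℂ))) ^ j) z = 0 →
      z ∈ LinA_sub b F
  | 0, z, h => by
    have h1 : z = 0 := by simpa using h
    rw [h1]
    exact (LinA_sub b F).zero_mem
  | j + 1, z, h => by
    have hμ0 : μ ≠ 0 := by
      rintro rfl
      simp at hμ
    have h1 : (LinA_cx b A.toLinearMap - μ • (1 : Module.End ℂ (Fin d → ℂ))) z ∈
        LinA_sub b F := by
      apply LinA_unit A F hF hB hμ j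
      rw [pow_succ] at h
      exact h
    have h2 : LinA_cx b A.toLinearMap z - μ • z ∈ LinA_sub b F := by simpa using h1
    intro c
    apply hB
    refine ⟨‖(LinA_re b).toContinuousLinearMap‖ * ‖c • z‖, fun k =>
      ⟨LinA_re b (μ ^ (-k) • c • z), ?_, ?_⟩⟩
    · have h3 := (LinA_re b).toContinuousLinearMap.le_opNorm (μ ^ (-k) • c • z)
      rw [norm_smul (μ ^ (-k)), norm_zpow, hμ, one_zpow, one_mul] at h3
      exact h3
    · refine LinA_zpow b A F hF hμ0 k (c • z) ?_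
      rw [map_smul, smul_comm μ, ← smul_sub]
      exact (LinA_sub b F).smul_mem _ h2

end Cx

/-- Spectral decomposition modulo a subspace `F` which absorbs all two-sided bounded directions.

PROOF. Choose a basis, `E ≃ (Fin n → ℝ)` (all norms are equivalent, linear maps are continuous), let
`M` be the matrix of `A`, `T` the complex endomorphism of `Fin n → ℂ` given by `M.map ofReal`
(invertible). Then `Re (T ^ k z) = A ^ k (Re z)` for all `k : ℤ`.
By `Module.End.iSup_maxGenEigenspace_eq_top` every vector is a finite sum of generalized eigenvectors, so it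
suffices: `Re z ∈ Es A ⊔ Es A⁻¹ ⊔ F` for every `z` with `(T - μ) ^ j z = 0` (`μ ≠ 0`).
(1) `‖μ‖ < 1`: by induction on `j`, `T ^ n z → 0`: with `z' = (T - μ) z`,
`T ^ (n+1) z = μ T ^ n z + T ^ n z'`, use `tendsto_zero_of_rec` for the norms. So `Re z ∈ Es A`.
(2) `‖μ‖ > 1`: by induction on `j`, `T ^ (-n) z → 0`:
`T ^ (-(n+1)) z = μ⁻¹ T ^ (-n) z - μ⁻¹ T ^ (-(n+1)) z'`. So `Re z ∈ Es A⁻¹`.
(3) `‖μ‖ = 1`: let `FC = {z | Re z ∈ F ∧ Im z ∈ F}` (complex subspace stable under `T`, `T⁻¹`).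
By induction on `j`, `z ∈ FC`: `z' = (T - μ) z ∈ FC`, hence `T ^ k z - μ ^ k z ∈ FC` for all `k : ℤ`
(induction both ways). `hB` for `w₀ = Re z` with `w' = Re (μ ^ (-k) z)` (norm `≤ C ‖z‖`):
`w₀ - A ^ k w' = Re z - Re (T ^ k μ ^ (-k) z) = - Re (μ ^ (-k) (T ^ k z - μ ^ k z)) ∈ F`. The same for
`-i z` gives `Im z ∈ F`.
(An alternative is to work directly in the quotient `E ⧸ F`.) -/
theorem sup_Es_eq_top (A : E ≃ₗ[ℝ] E) (F : Submodule ℝ E) (hF : ∀ v, A v ∈ F ↔ v ∈ F)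
    (hB : ∀ w₀ : E, (∃ C : ℝ, ∀ k : ℤ, ∃ w' : E, ‖w'‖ ≤ C ∧ w₀ - (A ^ k) w' ∈ F) → w₀ ∈ F) :
    Es A ⊔ Es A⁻¹ ⊔ F = ⊤ := by
  set b := Module.finBasis ℝ E
  set T := LinA_cx b A.toLinearMap with hT
  set G := Es A ⊔ Es A⁻¹ ⊔ F with hG
  have hle : ∀ μ : ℂ, T.maxGenEigenspace μ ≤ LinA_sub b G := by
    intro μ z hz c
    have hcz : c • z ∈ T.maxGenEigenspace μ := (T.maxGenEigenspace μ).smul_mem c hz
    obtain ⟨j, hj⟩ := (Module.End.mem_maxGenEigenspace T μ (c • z)).1 hcz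
    rcases lt_trichotomy ‖μ‖ 1 with h | h | h
    · exact (le_sup_left.trans le_sup_left : Es A ≤ G) (LinA_mem_Es b A h j _ hj)
    · have h1 := LinA_unit b A F hF hB h j (c • z) hj 1
      rw [one_smul] at h1
      exact (le_sup_right : F ≤ G) h1
    · have hμ0 : μ ≠ 0 := by
        rintro rfl
        simp at h
        linarith
      have h1 : ‖μ⁻¹‖ < 1 := by
        rw [norm_inv]
        exact inv_lt_one_of_one_lt₀ h
      exact (le_sup_right.trans le_sup_left : Es A⁻¹ ≤ G)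
        (LinA_mem_Es b A⁻¹ h1 j _ (LinA_inv_pow b A hμ0 j _ hj))
  have htop : (⊤ : Submodule ℂ (Fin (Module.finrank ℝ E) → ℂ)) ≤ LinA_sub b G := by
    rw [← Module.End.iSup_maxGenEigenspace_eq_top T]
    exact iSup_le hle
  rw [eq_top_iff]
  intro v _
  have h1 := htop (Submodule.mem_top (x := fun i => ((b.repr v i : ℝ) : ℂ))) 1
  rw [one_smul] at h1
  have h2 : LinA_re b (fun i => ((b.repr v i : ℝ) : ℂ)) = v := by
    apply b.repr.injective
    ext i
    rw [LinA_repr]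
    exact Complex.ofReal_re _
  rwa [h2] at h1

end H83T
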