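import Pool.Agent.H.MP_7a8a58_gt.h83.Lift

set_option autoImplicit false

open Set Metric Topology Filter

namespace H83T

variable {E : Type*} [NormedAddCommGroup E] [NormedSpace ℝ E]
variable {X : Type*} [TopologicalSpace X] [T2Space X]

/-- PROOF: preimage of the open set `isOpen_dom2` under `v ↦ (x, v)`. -/
theorem isOpen_dom {D : X → E} (hD : IsLocalHomeomorph D) (x : X) : IsOpen (Dom D x) := by
  have h := (isOpen_dom2 hD).preimage (f := fun v : E => (x, v)) (by fun_prop)
  exact h

theorem continuousOn_ex {D : X → E} (hD : IsLocalHomeomorph D) (x : X) :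
    ContinuousOn (ex D x) (Dom D x) := by
  have h := (continuousOn_ex2 hD).comp (f := fun v : E => (x, v)) (s := Dom D x)
    (by fun_prop) (fun v hv => hv)
  exact h

/-- Moving inside a convex part of the star domain.
PROOF: the path `t ↦ ex D x (v + t • w)` lifts the segment (`continuousOn_ex`, `D_ex`), use `ex_eq`. -/
theorem move {D : X → E} (hD : IsLocalHomeomorph D) {x : X} {C : Set E} (hC : Convex ℝ C)
    (hsub : C ⊆ Dom D x) {v w : E} (hv : v ∈ C) (hvw : v + w ∈ C) :
    w ∈ Dom D (ex D x v) ∧ ex D (ex D x v) w = ex D x (v + w) := by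
  have hmem : ∀ t ∈ Icc (0 : ℝ) 1, v + t • w ∈ C := by
    intro t ht
    have h := hC hv hvw (a := 1 - t) (b := t) (by linarith [ht.2]) ht.1 (by ring)
    have h2 : (1 - t) • v + t • (v + w) = v + t • w := by
      rw [sub_smul, one_smul, smul_add]
      abel
    rwa [h2] at h
  refine ex_eq hD ⟨fun t => ex D x (v + t • w), ?_, ?_, ?_, ?_⟩
  · exact (continuousOn_ex hD x).comp (by fun_prop) (fun t ht => hsub (hmem t ht))
  · simp only [zero_smul, add_zero]
  · simp only [one_smul]
  · intro t ht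
    change D (ex D x (v + t • w)) = _
    rw [D_ex (hsub (hmem t ht)), D_ex (hsub hv), add_assoc]

/-- PROOF: the path `t ↦ ex D (ex D x (t • v)) (t • w)` is continuous by `continuousOn_ex2`
and lifts the segment to `v + w`. -/
theorem dom_add_of_path {D : X → E} (hD : IsLocalHomeomorph D) {x : X} {v w : E}
    (hv : v ∈ Dom D x)
    (h : ∀ t ∈ Icc (0 : ℝ) 1, t • w ∈ Dom D (ex D x (t • v))) :
    v + w ∈ Dom D x ∧ ex D x (v + w) = ex D (ex D x v) w := by
  refine ex_eq hD ⟨fun t => ex D (ex D x (t • v)) (t • w), ?_, ?_, ?_, ?_⟩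
  · have h1 : ContinuousOn (fun t : ℝ => ((ex D x (t • v), t • w) : X × E)) (Icc 0 1) :=
      (ex_path hD hv).prodMk (by fun_prop)
    exact (continuousOn_ex2 hD).comp h1 (fun t ht => h t ht)
  · simp only [zero_smul, ex_zero hD]
  · simp only [one_smul]
  · intro t ht
    change D (ex D (ex D x (t • v)) (t • w)) = _
    rw [D_ex (h t ht), D_ex (smul_mem_dom hv ht), smul_add, add_assoc]

/-- Going back: PROOF: `move` with `C = segment ℝ 0 v` (contained in `Dom D x` by `smul_mem_dom`). -/
theorem back {D : X → E} (hD : IsLocalHomeomorph D) {x : X} {v : E} (hv : v ∈ Dom D x) :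
    -v ∈ Dom D (ex D x v) ∧ ex D (ex D x v) (-v) = x := by
  have hsub : segment ℝ (0 : E) v ⊆ Dom D x := by
    rintro _ ⟨p, q, hp, hq, hpq, rfl⟩
    rw [smul_zero, zero_add]
    exact smul_mem_dom hv ⟨hq, by linarith⟩
  have h := move hD (convex_segment (0 : E) v) hsub (v := v) (w := -v) (right_mem_segment _ _ _)
    (by rw [add_neg_cancel]; exact left_mem_segment _ _ _)
  rw [add_neg_cancel, ex_zero hD] at h
  exact h

/-- Corner extension.
PROOF: `tube` at `x' = ex D x v` for the vector `z - v` gives a section `s` on the thickening `T` of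
`segment 0 (z - v)`. `C ∩ (v + T)` is convex, contains `v`; on it `ex D x ·` and `s (· - v)` are two
continuous lifts of the same map agreeing at `v`, so they agree (`eqOn_of_lift`). For `t < 1` near `1`,
`t z ∈ C ∩ (v + T)` (since `z - v ∈ T` open). So the path `t ↦ ex D x (t z)` for `t < 1`,
`s (z - v)` for `t = 1` is continuous on `Icc 0 1` and lifts the segment to `z`. -/
theorem ext_corner {D : X → E} (hD : IsLocalHomeomorph D) {x : X} {C : Set E}
    (hC : Convex ℝ C) (hsub : C ⊆ Dom D x) {v z : E} (hv : v ∈ C)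
    (hz : z - v ∈ Dom D (ex D x v)) (hseg : ∀ t ∈ Ico (0 : ℝ) 1, t • z ∈ C) :
    z ∈ Dom D x := by
  classical
  obtain ⟨δ, hδ, s, hs, hs0, hsD⟩ := tube hD hz
  set T : Set E := thickening δ (segment ℝ (0 : E) (z - v)) with hT
  have hTconv : Convex ℝ T := (convex_segment _ _).thickening δ
  have hTopen : IsOpen T := isOpen_thickening
  have hTz : z - v ∈ T := self_subset_thickening hδ _ (right_mem_segment _ _ _)
  have hT0 : (0 : E) ∈ T := self_subset_thickening hδ _ (left_mem_segment _ _ _)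
  set U : Set E := {w | w - v ∈ T} with hU
  have hUconv : Convex ℝ U := by
    intro p hp q hq a b ha hb hab
    have h1 := hTconv hp hq ha hb hab
    have h2 : a • (p - v) + b • (q - v) = a • p + b • q - v := by
      rw [smul_sub, smul_sub]
      have : v = a • v + b • v := by rw [← add_smul, hab, one_smul]
      nth_rewrite 3 [this]
      abel
    change a • p + b • q - v ∈ T
    rw [← h2]
    exact h1
  have hUopen : IsOpen U := hTopen.preimage (by fun_prop)
  have hpre : IsPreconnected (C ∩ U) := (hC.inter hUconv).isPreconnected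
  have hvU : v ∈ U := by
    change v - v ∈ T
    rw [sub_self]
    exact hT0
  have hagree : ∀ w ∈ C ∩ U, ex D x w = s (w - v) := by
    refine eqOn_of_lift hD hpre ((continuousOn_ex hD x).mono (fun w hw => hsub hw.1))
      (hs.comp (by fun_prop) (fun w hw => hw.2)) ?_ (a₀ := v) ⟨hv, hvU⟩ ?_
    · intro w hw
      rw [D_ex (hsub hw.1), hsD (w - v) hw.2, D_ex (hsub hv)]
      abel
    · rw [sub_self, hs0]
  -- the path
  have hnear : ∀ᶠ t in 𝓝 (1 : ℝ), t • z ∈ U := by
    have h1 : Tendsto (fun t : ℝ => t • z) (𝓝 1) (𝓝 ((1 : ℝ) • z)) :=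
      (continuous_id.smul continuous_const).tendsto 1
    rw [one_smul] at h1
    exact h1.eventually (hUopen.mem_nhds hTz)
  set c : ℝ → X := fun t => if t < 1 then ex D x (t • z) else s (z - v) with hc
  refine ⟨s (z - v), c, ?_, ?_, ?_, ?_⟩
  · intro t ht
    rcases lt_or_eq_of_le ht.2 with h1 | h1
    · have h2 : ContinuousWithinAt (fun t : ℝ => ex D x (t • z)) (Icc 0 1 ∩ Iio 1) t := by
        have h3 : ContinuousOn (fun t : ℝ => ex D x (t • z)) (Icc 0 1 ∩ Iio 1) :=
          (continuousOn_ex hD x).comp (by fun_prop)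
            (fun r hr => hsub (hseg r ⟨hr.1.1, hr.2⟩))
        exact h3 t ⟨ht, h1⟩
      have h4 : ContinuousWithinAt c (Icc 0 1 ∩ Iio 1) t := by
        refine h2.congr (fun r hr => ?_) ?_
        · exact if_pos hr.2
        · exact if_pos h1
      exact (continuousWithinAt_inter (Iio_mem_nhds h1)).mp h4
    · subst h1
      have h2 : ContinuousWithinAt (fun t : ℝ => s (t • z - v)) (Icc 0 1) 1 := by
        have h3 : ContinuousAt s ((1 : ℝ) • z - v) := by
          rw [one_smul]
          exact hs.continuousAt (hTopen.mem_nhds hTz)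
        exact (ContinuousAt.comp (f := fun t : ℝ => t • z - v) h3
          (by fun_prop)).continuousWithinAt
      refine h2.congr_of_eventuallyEq ?_ ?_
      · filter_upwards [nhdsWithin_le_nhds hnear, self_mem_nhdsWithin] with t ht ht1
        rcases lt_or_eq_of_le ht1.2 with h5 | h5
        · change (if t < 1 then ex D x (t • z) else s (z - v)) = _
          rw [if_pos h5]
          exact hagree _ ⟨hseg t ⟨ht1.1, h5⟩, ht⟩
        · subst h5
          change (if (1 : ℝ) < 1 then ex D x ((1 : ℝ) • z) else s (z - v)) = _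
          rw [if_neg (lt_irrefl _), one_smul]
      · change (if (1 : ℝ) < 1 then ex D x ((1 : ℝ) • z) else s (z - v)) = _
        rw [if_neg (lt_irrefl _), one_smul]
  · change (if (0 : ℝ) < 1 then ex D x ((0 : ℝ) • z) else s (z - v)) = _
    rw [if_pos zero_lt_one, zero_smul, ex_zero hD]
  · exact if_neg (lt_irrefl _)
  · intro t ht
    rcases lt_or_eq_of_le ht.2 with h1 | h1
    · change D (if t < 1 then ex D x (t • z) else s (z - v)) = _
      rw [if_pos h1, D_ex (hsub (hseg t ⟨ht.1, h1⟩))]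
    · subst h1
      change D (if (1 : ℝ) < 1 then ex D x ((1 : ℝ) • z) else s (z - v)) = _
      rw [if_neg (lt_irrefl _), hsD _ hTz, D_ex (hsub hv), one_smul]
      abel

/-- PROOF: concatenation of the two lifted segments (or `t ≤ 1/(1+r)`: first path,
`t ≥ 1/(1+r)`: second path). -/
theorem collinear {D : X → E} (hD : IsLocalHomeomorph D) {x : X} {v : E} {r : ℝ} (hr : 0 ≤ r)
    (hv : v ∈ Dom D x) (h : r • v ∈ Dom D (ex D x v)) :
    (1 + r) • v ∈ Dom D x ∧ ex D x ((1 + r) • v) = ex D (ex D x v) (r • v) := by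
  have hr1 : 0 < 1 + r := by linarith
  have hne : (1 + r) ≠ 0 := hr1.ne'
  set t₀ : ℝ := 1 / (1 + r) with ht₀
  have ht₀0 : 0 < t₀ := div_pos one_pos hr1
  have ht₀1 : t₀ ≤ 1 := by
    rw [ht₀, div_le_one hr1]
    linarith
  have ht₀r : t₀ * (1 + r) = 1 := by
    rw [ht₀]
    field_simp
  -- first part: `t ↦ ex D x ((t (1 + r)) • v)`, second: `t ↦ ex (ex D x v) ((t (1+r) - 1) • v)`
  have hf : ContinuousOn (fun t : ℝ => ex D x ((t * (1 + r)) • v)) (Icc 0 t₀) := by
    refine (ex_path hD hv).comp (f := fun t : ℝ => t * (1 + r)) (by fun_prop) ?_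
    intro t ht
    refine ⟨mul_nonneg ht.1 hr1.le, ?_⟩
    calc t * (1 + r) ≤ t₀ * (1 + r) := by gcongr; exact ht.2
      _ = 1 := ht₀r
  have hmem2 : ∀ t ∈ Icc t₀ 1, (t * (1 + r) - 1) • v ∈ Dom D (ex D x v) := by
    intro t ht
    have h0 : 0 ≤ t * (1 + r) - 1 := by
      have : t₀ * (1 + r) ≤ t * (1 + r) := by gcongr; exact ht.1
      linarith
    have h1 : t * (1 + r) - 1 ≤ r := by nlinarith [ht.2]
    rcases eq_or_lt_of_le hr with h2 | h2
    · have : t * (1 + r) - 1 = 0 := by linarith
      rw [this, zero_smul]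
      exact zero_mem_dom D _
    · have h3 := smul_mem_dom h (t := (t * (1 + r) - 1) / r)
        ⟨div_nonneg h0 h2.le, by rw [div_le_one h2]; exact h1⟩
      rwa [smul_smul, div_mul_cancel₀ _ h2.ne'] at h3
  have hg : ContinuousOn (fun t : ℝ => ex D (ex D x v) ((t * (1 + r) - 1) • v)) (Icc t₀ 1) :=
    (continuousOn_ex hD _).comp (by fun_prop) hmem2
  refine ex_eq hD ⟨fun t => if t ≤ t₀ then ex D x ((t * (1 + r)) • v)
    else ex D (ex D x v) ((t * (1 + r) - 1) • v), ?_, ?_, ?_, ?_⟩
  · have hunion : Icc (0 : ℝ) 1 = Icc 0 t₀ ∪ Icc t₀ 1 :=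
      (Icc_union_Icc_eq_Icc ht₀0.le ht₀1).symm
    rw [hunion]
    refine ContinuousOn.union_of_isClosed ?_ ?_ isClosed_Icc isClosed_Icc
    · exact hf.congr (fun t ht => if_pos ht.2)
    · refine hg.congr (fun t ht => ?_)
      rcases eq_or_lt_of_le ht.1 with h1 | h1
      · change (if t ≤ t₀ then ex D x ((t * (1 + r)) • v)
            else ex D (ex D x v) ((t * (1 + r) - 1) • v)) =
          ex D (ex D x v) ((t * (1 + r) - 1) • v)
        rw [← h1, if_pos le_rfl, ht₀r, one_smul, sub_self, zero_smul, ex_zero hD]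
      · exact if_neg (not_le.mpr h1)
  · simp only [zero_mul, zero_smul, ex_zero hD, if_pos ht₀0.le]
  · change (if (1 : ℝ) ≤ t₀ then _ else _) = _
    rcases eq_or_lt_of_le ht₀1 with h1 | h1
    · have h2 : r = 0 := by
        rw [h1] at ht₀r
        linarith
      rw [if_pos h1.ge, h2]
      simp [ex_zero hD]
    · rw [if_neg (not_le.mpr h1)]
      congr 2
      ring
  · intro t ht
    change D (if t ≤ t₀ then ex D x ((t * (1 + r)) • v)
      else ex D (ex D x v) ((t * (1 + r) - 1) • v)) = _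
    by_cases h1 : t ≤ t₀
    · have hm : (t * (1 + r)) • v ∈ Dom D x := by
        refine smul_mem_dom hv ⟨mul_nonneg ht.1 hr1.le, ?_⟩
        calc t * (1 + r) ≤ t₀ * (1 + r) := by gcongr
          _ = 1 := ht₀r
      rw [if_pos h1, D_ex hm, smul_smul]
    · rw [if_neg h1, D_ex (hmem2 t ⟨(not_le.mp h1).le, ht.2⟩), D_ex hv, smul_smul, sub_smul,
        one_smul]
      abel

/-- The map `ex D x` is a chart at `x`. -/
theorem nhds_eq_map_ex {D : X → E} (hD : IsLocalHomeomorph D) (x : X) :
    𝓝 x = map (ex D x) (𝓝 0) := by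
  apply le_antisymm
  · -- for `U` with preimage a neighbourhood of `0`
    intro U hU
    rw [mem_map] at hU
    -- `y ↦ D y - D x`
    have h1 : Tendsto (fun y => D y - D x) (𝓝 x) (𝓝 0) := by
      have h2 : Continuous (fun y => D y - D x) := hD.continuous.sub continuous_const
      have h3 := h2.tendsto x
      rwa [sub_self] at h3
    have h2 : ∀ᶠ y in 𝓝 x, ex D x (D y - D x) ∈ U := h1.eventually hU
    -- D is injective near x
    obtain ⟨V, hV, hVinj⟩ : ∃ V ∈ 𝓝 x, InjOn D V := by
      obtain ⟨e, hxe, he⟩ := hD x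
      exact ⟨e.source, e.open_source.mem_nhds hxe, by rw [he]; exact e.injOn⟩
    have h3 : ∀ᶠ y in 𝓝 x, D y - D x ∈ Dom D x :=
      h1.eventually ((isOpen_dom hD x).mem_nhds (zero_mem_dom D x))
    have h4 : ContinuousAt (ex D x) 0 :=
      (continuousOn_ex hD x).continuousAt ((isOpen_dom hD x).mem_nhds (zero_mem_dom D x))
    have h5 : Tendsto (fun y => ex D x (D y - D x)) (𝓝 x) (𝓝 x) := by
      have h6 : Tendsto (ex D x) (𝓝 0) (𝓝 x) := by
        have := h4.tendsto
        rwa [ex_zero hD] at this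
      exact h6.comp h1
    filter_upwards [h2, h3, h5.eventually hV, hV] with y hy1 hy2 hy3 hy4
    have h6 : ex D x (D y - D x) = y := by
      apply hVinj hy3 hy4
      rw [D_ex hy2]
      abel
    rwa [h6] at hy1
  · have h4 : ContinuousAt (ex D x) 0 :=
      (continuousOn_ex hD x).continuousAt ((isOpen_dom hD x).mem_nhds (zero_mem_dom D x))
    have := h4.tendsto
    rwa [ex_zero hD] at this

/-- PROOF: compose the path with `φ`. -/
theorem equivariant {D : X → E} (hD : IsLocalHomeomorph D) {φ : X → X} (hφ : Continuous φ)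
    (ℓ : E →ₗ[ℝ] E) {β : E} (h : ∀ x, D (φ x) = ℓ (D x) + β) {x : X} {v : E} (hv : v ∈ Dom D x) :
    ℓ v ∈ Dom D (φ x) ∧ ex D (φ x) (ℓ v) = φ (ex D x v) := by
  obtain ⟨c, hc, hc0, hc1, hcD⟩ := ex_spec hv
  refine ex_eq hD ⟨fun t => φ (c t), hφ.comp_continuousOn hc, ?_, ?_, ?_⟩
  · simp only [hc0]
  · simp only [hc1]
  · intro t ht
    change D (φ (c t)) = _
    rw [h, hcD t ht, h, map_add, map_smul]
    abel

end H83T
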