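import Pool.Agent.H.MP_7a8a58_gt.h83.Pair

set_option autoImplicit false

open Set Metric Topology Filter

namespace H83T

private lemma NormA_det {m : ℕ} (M : GL (Fin m) ℤ) : (rM M) * (rM M⁻¹) = 1 := by
  have h : (M : Matrix (Fin m) (Fin m) ℤ) * ((M⁻¹ : GL (Fin m) ℤ) : Matrix (Fin m) (Fin m) ℤ) = 1 := by
    rw [← Units.val_mul, mul_inv_cancel, Units.val_one]
  have h2 := congrArg (fun A : Matrix (Fin m) (Fin m) ℤ => A.map (Int.castRingHom ℝ)) h
  simp only [Matrix.map_mul] at h2
  have h3 : (1 : Matrix (Fin m) (Fin m) ℤ).map (Int.castRingHom ℝ) = 1 :=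
    Matrix.map_one _ (map_zero _) (map_one _)
  rw [h3] at h2
  exact h2

private lemma NormA_det' {m : ℕ} (M : GL (Fin m) ℤ) : (rM M⁻¹) * (rM M) = 1 := by
  have := NormA_det M⁻¹
  rwa [inv_inv] at this

/-- one step -/
private noncomputable def NormA_F {m : ℕ} (M : GL (Fin m) ℤ) (c d : Fin m → ℝ) :
    ((Fin m → ℝ) × ℝ) ≃ₜ ((Fin m → ℝ) × ℝ) where
  toFun p := ((rM M).mulVec p.1 - p.2 • c - d, p.2 + 1)
  invFun p := ((rM M⁻¹).mulVec (p.1 + (p.2 - 1) • c + d), p.2 - 1)
  left_inv := by
    rintro ⟨w, t⟩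
    have e : (rM M).mulVec w - t • c - d + t • c + d = (rM M).mulVec w := by abel
    simp only [add_sub_cancel_right]
    rw [e, Matrix.mulVec_mulVec, NormA_det', Matrix.one_mulVec]
  right_inv := by
    rintro ⟨w, t⟩
    have e : w + (t - 1) • c + d - (t - 1) • c - d = w := by abel
    simp only [e, sub_add_cancel, Matrix.mulVec_mulVec, NormA_det, Matrix.one_mulVec]
  continuous_toFun := by
    have : Continuous fun p : (Fin m → ℝ) × ℝ => (rM M).mulVec p.1 :=
      Continuous.matrix_mulVec continuous_const continuous_fst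
    fun_prop
  continuous_invFun := by
    have : Continuous fun p : (Fin m → ℝ) × ℝ => (rM M⁻¹).mulVec (p.1 + (p.2 - 1) • c + d) :=
      Continuous.matrix_mulVec continuous_const (by fun_prop)
    fun_prop

private lemma NormA_F_apply {m : ℕ} (M : GL (Fin m) ℤ) (c d : Fin m → ℝ)
    (p : (Fin m → ℝ) × ℝ) :
    NormA_F M c d p = ((rM M).mulVec p.1 - p.2 • c - d, p.2 + 1) := rfl

private lemma NormA_succ {m : ℕ} (M : GL (Fin m) ℤ) (c d : Fin m → ℝ) (k : ℤ)
    (p : (Fin m → ℝ) × ℝ) : (NormA_F M c d ^ (k + 1)) p = NormA_F M c d ((NormA_F M c d ^ k) p) := by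
  rw [add_comm, zpow_one_add]
  rfl

private lemma NormA_snd {m : ℕ} (M : GL (Fin m) ℤ) (c d : Fin m → ℝ) (k : ℤ) :
    ∀ p : (Fin m → ℝ) × ℝ, ((NormA_F M c d ^ k) p).2 = p.2 + k := by
  induction k using Int.induction_on with
  | zero => intro p; simp
  | succ i ih =>
    intro p
    rw [NormA_succ, NormA_F_apply, ih p]
    push_cast
    ring
  | pred i ih =>
    intro p
    have h := NormA_succ M c d (-(i : ℤ) - 1) p
    rw [sub_add_cancel, NormA_F_apply] at h
    have h2 := ih p
    rw [h] at h2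
    simp only at h2
    push_cast at h2 ⊢
    linarith

/-- the curve which starts with `0` over the point `0` -/
private noncomputable def NormA_y {m : ℕ} (M : GL (Fin m) ℤ) (c d : Fin m → ℝ) (k : ℤ) (t : ℝ) :
    Fin m → ℝ := ((NormA_F M c d ^ k) (0, t - k)).1

private lemma NormA_y_cont {m : ℕ} (M : GL (Fin m) ℤ) (c d : Fin m → ℝ) (k : ℤ) :
    Continuous (NormA_y M c d k) := by
  unfold NormA_y
  exact continuous_fst.comp ((NormA_F M c d ^ k).continuous.comp (by fun_prop))

private lemma NormA_y_succ {m : ℕ} (M : GL (Fin m) ℤ) (c d : Fin m → ℝ) (k : ℤ) (t : ℝ) :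
    NormA_y M c d (k + 1) (t + 1) = (rM M).mulVec (NormA_y M c d k t) - t • c - d := by
  unfold NormA_y
  have e : t + 1 - ((k + 1 : ℤ) : ℝ) = t - k := by push_cast; ring
  rw [e, NormA_succ, NormA_F_apply, NormA_snd]
  simp only [sub_add_cancel]

/-- Continuous solution of `h (t + 1) = M h t - t c - d`.
PROOF: for `m`-vectors: `h₀ t = -t • d` on `[0, 1]` satisfies `h₀ 1 = M h₀ 0 - 0 c - d`. Define `h` on
`[k, k+1]` by recursion (up: `h (t + 1) = M h t - t c - d`; down: `h t = M⁻¹ (h (t + 1) + t c + d)`). The pieces are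
continuous and agree at integers. (One convenient way: `h t = M ^ ⌊t⌋ (h₀ (fract t)) + P ⌊t⌋ (fract t)` with
`P` polynomial in `fract t` for fixed `⌊t⌋`, continuity by `ContinuousOn` on `Icc k (k+1)` and
`LocallyFinite.continuous` for the cover by these intervals.) -/
theorem exists_cocycle {m : ℕ} (M : GL (Fin m) ℤ) (c d : Fin m → ℝ) :
    ∃ h : ℝ → (Fin m → ℝ), Continuous h ∧
      ∀ t, h (t + 1) = (rM M).mulVec (h t) - t • c - d := by
  refine ⟨fun t => (1 - Int.fract t) • NormA_y M c d ⌊t⌋ t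
    + Int.fract t • NormA_y M c d (⌊t⌋ + 1) t, ?_, ?_⟩
  · have hlf : LocallyFinite fun k : ℤ => Icc (k : ℝ) ((k : ℝ) + 1) :=
      locallyFinite_Icc_of_tendsto tendsto_intCast_atTop_atTop
        (tendsto_atBot_add_const_right _ _ (tendsto_intCast_atBot_iff.2 tendsto_id))
    refine hlf.continuous ?_ (fun k => isClosed_Icc) fun k => ?_
    · rw [eq_univ_iff_forall]
      intro t
      exact mem_iUnion.2 ⟨⌊t⌋, Int.floor_le t, (Int.lt_floor_add_one t).le⟩
    · have hc : Continuous fun t : ℝ => (1 - (t - k)) • NormA_y M c d k t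
          + (t - k) • NormA_y M c d (k + 1) t := by
        have h1 := NormA_y_cont M c d k
        have h2 := NormA_y_cont M c d (k + 1)
        fun_prop
      refine hc.continuousOn.congr ?_
      intro t ht
      rcases eq_or_lt_of_le ht.2 with h | h
      · have hfl : ⌊t⌋ = k + 1 := by
          rw [Int.floor_eq_iff]
          push_cast
          exact ⟨h.ge, by linarith⟩
        have hfr : Int.fract t = 0 := by
          rw [Int.fract, hfl, h]
          push_cast
          ring
        have e : t - k = 1 := by linarith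
        simp only [hfl, hfr, e]
        simp
      · have hfl : ⌊t⌋ = k := by
          rw [Int.floor_eq_iff]
          exact ⟨ht.1, h⟩
        have hfr : Int.fract t = t - k := by rw [Int.fract, hfl]
        simp only [hfl, hfr]
  · intro t
    have e1 : ⌊t + 1⌋ = ⌊t⌋ + 1 := Int.floor_add_one t
    have e2 : Int.fract (t + 1) = Int.fract t := Int.fract_add_one t
    simp only [e1, e2, NormA_y_succ, Matrix.mulVec_add, Matrix.mulVec_smul]
    module

/-- The affine model is homeomorphic to the linear one: `Ψ (w, t) = (w + h t, t)` commutes with the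
translations `(z, 0)` and conjugates `F (w, t) = (M w + t c + d, t + 1)` to `(M w, t + 1)`. -/
theorem exists_normal_form {m : ℕ} (M : GL (Fin m) ℤ) (c d : Fin m → ℝ) :
    ∃ Ψ : ((Fin m → ℝ) × ℝ) ≃ₜ ((Fin m → ℝ) × ℝ),
      (∀ (w v : Fin m → ℝ) (t : ℝ), Ψ (w + v, t) = ((Ψ (w, t)).1 + v, (Ψ (w, t)).2)) ∧
      (∀ (w : Fin m → ℝ) (t : ℝ), (Ψ (w, t)).2 = t) ∧
      (∀ (w : Fin m → ℝ) (t : ℝ), Ψ ((rM M).mulVec w + t • c + d, t + 1) =
        ((rM M).mulVec (Ψ (w, t)).1, t + 1)) := by
  obtain ⟨h, hc, hh⟩ := exists_cocycle M c d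
  refine ⟨{ toFun := fun p => (p.1 + h p.2, p.2)
            invFun := fun p => (p.1 - h p.2, p.2)
            left_inv := fun p => by simp
            right_inv := fun p => by simp
            continuous_toFun := by fun_prop
            continuous_invFun := by fun_prop }, ?_, ?_, ?_⟩
  · intro w v t
    show (w + v + h t, t) = (w + h t + v, t)
    rw [add_right_comm]
  · intro w t
    rfl
  · intro w t
    show ((rM M).mulVec w + t • c + d + h (t + 1), t + 1) = ((rM M).mulVec (w + h t), t + 1)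
    rw [hh, Matrix.mulVec_add]
    congr 1
    abel

end H83T
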