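import Pool.Agent.H.MP_7a8a58_gt.h83.Sys

set_option autoImplicit false

open Set Metric Topology Filter

namespace H83T

variable {E : Type*} [NormedAddCommGroup E] [NormedSpace ℝ E]
variable {X : Type*} [TopologicalSpace X] [T2Space X]

/-- Distance, modulo `Ec`, from `0` to the complement of the star domain. -/
noncomputable def Rd (D : X → E) (hD : IsLocalHomeomorph D) (x : X) : ℝ :=
  sInf ((fun v => infDist v (Ec D hD : Set E)) '' (Dom D x)ᶜ)

private theorem radA_bdd (D : X → E) (hD : IsLocalHomeomorph D) (x : X) :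
    BddBelow ((fun v => infDist v (Ec D hD : Set E)) '' (Dom D x)ᶜ) := by
  refine ⟨0, ?_⟩
  rintro _ ⟨v, _, rfl⟩
  exact infDist_nonneg

private theorem radA_ne (D : X → E) (hD : IsLocalHomeomorph D) :
    ((Ec D hD : Submodule ℝ E) : Set E).Nonempty := ⟨0, (Ec D hD).zero_mem⟩

theorem dom_of_lt_Rd {D : X → E} (hD : IsLocalHomeomorph D) {x : X} {v : E}
    (h : infDist v (Ec D hD : Set E) < Rd D hD x) : v ∈ Dom D x := by
  by_contra hv
  exact absurd (csInf_le (radA_bdd D hD x) ⟨v, hv, rfl⟩) (not_le.2 h)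

theorem Rd_le {D : X → E} (hD : IsLocalHomeomorph D) {x : X} {v : E} (h : v ∉ Dom D x) :
    Rd D hD x ≤ infDist v (Ec D hD : Set E) := by
  exact csInf_le (radA_bdd D hD x) ⟨v, h, rfl⟩

/-- PROOF: if `v ∉ Dom D x` and `infDist v Ec < r`, take `e ∈ Ec` with `‖v - e‖ < r`: then
`v - e ∈ Dom D x`, so `v ∈ Dom D x` by `add_dom`. -/
theorem le_Rd {D : X → E} (hD : IsLocalHomeomorph D) {x : X} {r : ℝ}
    (hne : Dom D x ≠ univ) (h : ball (0 : E) r ⊆ Dom D x) : r ≤ Rd D hD x := by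
  refine le_csInf ?_ ?_
  · obtain ⟨v, hv⟩ := (ne_univ_iff_exists_notMem _).1 hne
    exact ⟨_, v, hv, rfl⟩
  · rintro _ ⟨v, hv, rfl⟩
    by_contra hlt
    obtain ⟨e, he, hde⟩ := (infDist_lt_iff (radA_ne D hD)).1 (not_le.1 hlt)
    apply hv
    have h1 : v - e ∈ Dom D x := h (by rw [mem_ball_zero_iff, ← dist_eq_norm]; exact hde)
    have h2 := (add_dom hD he h1).1
    rwa [sub_add_cancel] at h2

theorem Rd_ex {D : X → E} (hD : IsLocalHomeomorph D) {x : X} {e : E} (he : e ∈ Ec D hD) :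
    Rd D hD (ex D x e) = Rd D hD x := by
  unfold Rd
  rw [dom_ex hD he]

/-- PROOF: if `infDist w Ec < Rd x - ‖v‖` then `v + w ∈ C = {z | infDist z Ec < Rd x}`, a convex subset of
`Dom D x` containing `v` (`move`), so `w ∈ Dom D (ex D x v)`. -/
theorem Rd_ge_sub {D : X → E} (hD : IsLocalHomeomorph D) {x : X} {v : E}
    (hne : Dom D (ex D x v) ≠ univ) (h : ‖v‖ < Rd D hD x) :
    Rd D hD x - ‖v‖ ≤ Rd D hD (ex D x v) := by
  refine le_csInf ?_ ?_
  · obtain ⟨w, hw⟩ := (ne_univ_iff_exists_notMem _).1 hne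
    exact ⟨_, w, hw, rfl⟩
  · rintro _ ⟨w, hw, rfl⟩
    by_contra hlt
    have hlt' : infDist w (Ec D hD : Set E) < Rd D hD x - ‖v‖ := not_le.1 hlt
    apply hw
    have hC : Convex ℝ (thickening (Rd D hD x) (Ec D hD : Set E)) :=
      (Ec D hD).convex.thickening _
    have hsub : thickening (Rd D hD x) (Ec D hD : Set E) ⊆ Dom D x := by
      intro z hz
      rw [mem_thickening_iff_infDist_lt (radA_ne D hD)] at hz
      exact dom_of_lt_Rd hD hz
    have hv : v ∈ thickening (Rd D hD x) (Ec D hD : Set E) := by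
      rw [mem_thickening_iff_infDist_lt (radA_ne D hD)]
      refine lt_of_le_of_lt (infDist_le_dist_of_mem (Ec D hD).zero_mem) ?_
      rwa [dist_zero_right]
    have hvw : v + w ∈ thickening (Rd D hD x) (Ec D hD : Set E) := by
      rw [mem_thickening_iff_infDist_lt (radA_ne D hD)]
      have h1 : infDist (v + w) (Ec D hD : Set E) ≤ infDist w (Ec D hD : Set E) + dist (v + w) w :=
        infDist_le_infDist_add_dist
      have h2 : dist (v + w) w = ‖v‖ := by rw [dist_eq_norm, add_sub_cancel_right]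
      linarith
    exact (move hD hC hsub hv hvw).1

/-- PROOF: `Rd_ge_sub` for `x, v` and for `ex D x v, -v` (`back`), `nhds_eq_map_ex`. -/
theorem Rd_continuous {D : X → E} (hD : IsLocalHomeomorph D) (hne : ∀ x, Dom D x ≠ univ) :
    Continuous (Rd D hD) := by
  rw [continuous_iff_continuousAt]
  intro x
  obtain ⟨r, hr, hball⟩ := Metric.isOpen_iff.1 (isOpen_dom hD x) 0 (zero_mem_dom D x)
  have hpos : 0 < Rd D hD x := lt_of_lt_of_le hr (le_Rd hD (hne x) hball)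
  unfold ContinuousAt
  rw [nhds_eq_map_ex hD x, tendsto_map'_iff, Metric.tendsto_nhds_nhds]
  intro η hη
  refine ⟨min η (min r (Rd D hD x / 2)), lt_min hη (lt_min hr (half_pos hpos)), ?_⟩
  intro v hv
  rw [dist_zero_right] at hv
  have hv1 : ‖v‖ < η := lt_of_lt_of_le hv (min_le_left _ _)
  have hv2 : ‖v‖ < r := lt_of_lt_of_le hv ((min_le_right _ _).trans (min_le_left _ _))
  have hv3 : ‖v‖ < Rd D hD x / 2 :=
    lt_of_lt_of_le hv ((min_le_right _ _).trans (min_le_right _ _))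
  have hvd : v ∈ Dom D x := hball (by rwa [mem_ball_zero_iff])
  have h1 : Rd D hD x - ‖v‖ ≤ Rd D hD (ex D x v) :=
    Rd_ge_sub hD (hne _) (by linarith)
  have hb := back hD hvd
  have h2 : Rd D hD (ex D x v) - ‖-v‖ ≤ Rd D hD (ex D (ex D x v) (-v)) :=
    Rd_ge_sub hD (hne _) (by rw [norm_neg]; linarith)
  rw [hb.2, norm_neg] at h2
  rw [Real.dist_eq, Function.comp_apply, abs_lt]
  constructor <;> linarith

variable {Γ : Type*} [Group Γ] [MulAction Γ X] [ContinuousConstSMul Γ X]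
variable {D : X → E} {L : Γ →* (E ≃ₗ[ℝ] E)} {b : Γ → E} {A : E ≃ₗ[ℝ] E} {γ₀ : Γ} {K : Set X}
  {ε : ℝ}

/-- PROOF: `v ∉ Dom D x ↔ L γ v ∉ Dom D (γ • x)` (`smul_dom_iff`). -/
theorem CycSys.Rd_smul_le (S : CycSys D L b A γ₀ K ε) (hne : ∀ x, Dom D x ≠ univ) {δ : ℝ}
    (hδ : 0 ≤ δ) {γ : Γ}
    (h : ∀ v, infDist (L γ v) (Ec D S.hD : Set E) ≤ δ * infDist v (Ec D S.hD : Set E)) (x : X) :
    Rd D S.hD (γ • x) ≤ δ * Rd D S.hD x := by
  have key : ∀ v, v ∉ Dom D x →
      Rd D S.hD (γ • x) ≤ δ * infDist v (Ec D S.hD : Set E) := by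
    intro v hv
    have h1 : L γ v ∉ Dom D (γ • x) := fun h2 => hv ((S.smul_dom_iff γ).1 h2)
    exact (Rd_le S.hD h1).trans (h v)
  obtain ⟨v₀, hv₀⟩ := (ne_univ_iff_exists_notMem _).1 (hne x)
  rcases hδ.eq_or_lt with h0 | h0
  · have := key v₀ hv₀
    rw [← h0, zero_mul] at this ⊢
    exact this
  · have h1 : Rd D S.hD (γ • x) / δ ≤ Rd D S.hD x := by
      refine le_csInf ⟨_, v₀, hv₀, rfl⟩ ?_
      rintro _ ⟨v, hv, rfl⟩
      rw [div_le_iff₀ h0, mul_comm]
      exact key v hv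
    rw [div_le_iff₀ h0] at h1
    linarith [mul_comm δ (Rd D S.hD x)]

end H83T
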