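import Pool.Agent.H.MP_7a8a58_gt.h83.SDA

set_option autoImplicit false

open Set Metric Topology Filter

namespace H83T

variable {E : Type*} [NormedAddCommGroup E] [NormedSpace ℝ E]
variable {X : Type*} [TopologicalSpace X] [T2Space X] [ConnectedSpace X]
variable {Γ : Type*} [Group Γ] [MulAction Γ X] [ContinuousConstSMul Γ X]

omit [NormedSpace ℝ E] [TopologicalSpace X] [T2Space X] [ConnectedSpace X]
  [ContinuousConstSMul Γ X] in
theorem sd_smul_tr {D : X → E} {n : Γ} {β : E} (h : ∀ y : X, D (n • y) = D y + β) (y : X) :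
    D (n⁻¹ • y) = D y + -β := by
  have := h (n⁻¹ • y)
  rw [smul_inv_smul] at this
  rw [this]
  abel

omit [ConnectedSpace X] in
theorem sd_smul_ex {D : X → E} (hD : IsLocalHomeomorph D) {n : Γ} {β : E}
    (h : ∀ y : X, D (n • y) = D y + β) {x : X} {v : E} (hv : v ∈ Dom D x) :
    v ∈ Dom D (n • x) ∧ ex D (n • x) v = n • ex D x v := by
  have := equivariant hD (φ := fun y => n • y) (continuous_const_smul n) LinearMap.id
    (β := β) (fun y => by simpa using h y) hv
  simpa using this

omit [ConnectedSpace X] in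
theorem sd_smul_dom {D : X → E} (hD : IsLocalHomeomorph D) {n : Γ} {β : E}
    (h : ∀ y : X, D (n • y) = D y + β) (x : X) : Dom D (n • x) = Dom D x := by
  ext v
  constructor
  · intro hv
    have := (sd_smul_ex hD (sd_smul_tr h) hv).1
    rwa [inv_smul_smul] at this
  · intro hv
    exact (sd_smul_ex hD h hv).1

omit [ConnectedSpace X] in
theorem sd_trSym {D : X → E} (hD : IsLocalHomeomorph D) {n : Γ} {β : E}
    (h : ∀ y : X, D (n • y) = D y + β) {u : E} (hu : u ∈ Ec D hD) :
    TrSym D (fun y => n • ex D y u) (u + β) := by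
  have hdom : ∀ y, u ∈ Dom D y := by
    intro y
    have := mem_Ec.1 hu y 1
    rwa [one_smul] at this
  refine ⟨?_, ?_, ?_⟩
  · have h1 : Continuous fun y : X => ex D y u := by
      have h2 := (continuousOn_ex2 hD).comp_continuous
        (f := fun y : X => ((y, u) : X × E)) (by fun_prop) (fun y => hdom y)
      exact h2
    exact h1.const_smul n
  · intro x
    show D (n • ex D x u) = _
    rw [h, D_ex (hdom x)]
    abel
  · intro x
    show Dom D (n • ex D x u) = _
    rw [sd_smul_dom hD h, dom_ex hD hu]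

/-- Small displacement lemma. `N` = elements acting over translations.
PROOF: by contradiction: sequences `x k ∈ K₁`, `n k`, `w k ∈ Ec`, `v k → 0`, `v k ∉ Ec`. Take a complement `Q`
of `Ec`, `v k = e k + q k`. Replace `w k` by `w k - e k`: `Θ k = n k • ex D · (w k - e k)` satisfies
`Θ k (x k) = ex D (x k) (q k)`, `TrSym D (Θ k) (q k)` [`n • ex D x w = ex D (n • x) w`, `equivariant`,
`dom_ex`, `add_dom'`]. `X` is first countable (`D` is a homeomorphism near each point), `K₁` compact: pass to a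
subsequence with `x k → xl` and `q k / ‖q k‖ → w` in the unit sphere of `Q` (finite dimension).
`sd_dir` gives `T • w ∈ Dom` for `T ≥ 0`; the same for the inverses
`Θ k' = n k⁻¹ • ex D · (-(w k - e k))`, `-q k`, points `ex D (x k) (q k) → xl`, gives `T • w` for `T ≤ 0`.
So `w ∈ Ec ∩ Q = 0`, but `‖w‖ = 1`. -/
theorem small_displacement [FiniteDimensional ℝ E] {D : X → E} (hD : IsLocalHomeomorph D)
    {K₁ : Set X} (hK₁ : IsCompact K₁) :
    ∃ δ > 0, ∀ x ∈ K₁, ∀ (n : Γ) (β : E), (∀ y : X, D (n • y) = D y + β) →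
      ∀ w ∈ Ec D hD, ∀ v : E, ‖v‖ < δ → v ∈ Dom D x → n • ex D x w = ex D x v →
      v ∈ Ec D hD := by
  by_contra hcon
  push Not at hcon
  choose xs hxs ns βs hβ ws hws vs hvs hvd hnw hvE using
    fun k : ℕ => hcon (1 / ((k : ℝ) + 1)) (by positivity)
  obtain ⟨Q, hQ⟩ := (Ec D hD).exists_isCompl
  obtain ⟨π, hπQ, hπE⟩ : ∃ π : E →ₗ[ℝ] E, (∀ v, π v ∈ Q) ∧ ∀ v, v - π v ∈ Ec D hD := by
    refine ⟨Q.subtype ∘ₗ Submodule.projectionOnto Q (Ec D hD) hQ.symm, fun v => ?_,
      fun v => ?_⟩
    · simp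
    · have h1 : v - (Q.subtype ∘ₗ Submodule.projectionOnto Q (Ec D hD) hQ.symm) v ∈
          LinearMap.ker (Submodule.projectionOnto Q (Ec D hD) hQ.symm) := by
        rw [LinearMap.mem_ker, map_sub, LinearMap.comp_apply, Submodule.subtype_apply,
          Submodule.projectionOnto_apply_left, sub_self]
      rwa [Submodule.ker_projectionOnto] at h1
  set q : ℕ → E := fun k => π (vs k) with hq
  set e : ℕ → E := fun k => vs k - π (vs k) with he
  have heE : ∀ k, e k ∈ Ec D hD := fun k => hπE _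
  have hve : ∀ k, vs k = e k + q k := fun k => by simp [hq, he]
  have hq0 : ∀ k, q k ≠ 0 := by
    intro k hk
    apply hvE k
    rw [hve k, hk, add_zero]
    exact heE k
  have hvs0 : Tendsto vs atTop (𝓝 0) := by
    rw [tendsto_zero_iff_norm_tendsto_zero]
    exact squeeze_zero (fun k => norm_nonneg _) (fun k => (hvs k).le)
      tendsto_one_div_add_atTop_nhds_zero_nat
  have hqt : Tendsto q atTop (𝓝 0) := by
    have h1 : Continuous π := LinearMap.continuous_of_finiteDimensional π
    have h2 := (h1.tendsto 0).comp hvs0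
    rw [map_zero] at h2
    exact h2
  -- the symmetries
  set u : ℕ → E := fun k => ws k - e k with hu
  have huE : ∀ k, u k ∈ Ec D hD := fun k => Submodule.sub_mem _ (hws k) (heE k)
  have hdomE : ∀ {w : E}, w ∈ Ec D hD → ∀ y, w ∈ Dom D y := by
    intro w hw y
    have := mem_Ec.1 hw y 1
    rwa [one_smul] at this
  have hβv : ∀ k, βs k = vs k - ws k := by
    intro k
    have h1 := congrArg D (hnw k)
    rw [hβ k, D_ex (hdomE (hws k) _), D_ex (hvd k), add_assoc, add_right_inj] at h1
    rw [← h1]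
    abel
  have huβ : ∀ k, u k + βs k = q k := by
    intro k
    rw [hβv k, hve k]
    simp only [hu]
    abel
  have hTr : ∀ k, TrSym D (fun y => ns k • ex D y (u k)) (q k) := by
    intro k
    rw [← huβ k]
    exact sd_trSym hD (hβ k) (huE k)
  have hqd : ∀ k, q k ∈ Dom D (xs k) := by
    intro k
    have h1 := (add_dom hD (e := -e k) (Submodule.neg_mem _ (heE k)) (hvd k)).1
    rwa [show vs k + -e k = q k by rw [hve k]; abel] at h1
  have hag : ∀ k, ns k • ex D (xs k) (u k) = ex D (xs k) (q k) := by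
    intro k
    have h1 := add_dom hD (x := xs k) (e := -e k) (Submodule.neg_mem _ (heE k))
      (hdomE (hws k) (xs k))
    have h2 := add_dom hD (e := -e k) (Submodule.neg_mem _ (heE k)) (hvd k)
    have h3 : u k = ws k + -e k := by simp only [hu]; abel
    have h4 : q k = vs k + -e k := by rw [hve k]; abel
    rw [h3, h1.2, h4, h2.2, ← hnw k]
    exact ((sd_smul_ex hD (hβ k)
      (hdomE (Submodule.neg_mem _ (heE k)) (ex D (xs k) (ws k)))).2).symm
  -- the inverses
  set x' : ℕ → X := fun k => ex D (xs k) (q k) with hx'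
  have hTr' : ∀ k, TrSym D (fun y => (ns k)⁻¹ • ex D y (-u k)) (-q k) := by
    intro k
    have h1 := sd_trSym hD (sd_smul_tr (hβ k)) (Submodule.neg_mem _ (huE k))
    rwa [show -u k + -βs k = -q k by rw [← huβ k]; abel] at h1
  have hqd' : ∀ k, -q k ∈ Dom D (x' k) := fun k => (back hD (hqd k)).1
  have hag' : ∀ k, (ns k)⁻¹ • ex D (x' k) (-u k) = ex D (x' k) (-q k) := by
    intro k
    rw [(back hD (hqd k)).2]
    simp only [hx']
    rw [← hag k]
    have h1 := back hD (hdomE (huE k) (xs k))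
    rw [(sd_smul_ex hD (hβ k) h1.1).2, h1.2, inv_smul_smul]
  -- subsequence
  have : FirstCountableTopology X := ⟨fun x => by
    rw [nhds_eq_map_ex hD x]; infer_instance⟩
  have : ProperSpace E := FiniteDimensional.proper ℝ E
  have hcpt : IsCompact (K₁ ×ˢ sphere (0 : E) 1) := hK₁.prod (isCompact_sphere 0 1)
  have hunit : ∀ k, (1 / ‖q k‖) • q k ∈ sphere (0 : E) 1 := by
    intro k
    rw [mem_sphere_zero_iff_norm, norm_smul, norm_div, norm_one, norm_norm,
      one_div_mul_cancel (norm_ne_zero_iff.2 (hq0 k))]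
  obtain ⟨⟨xl, w⟩, hlim, φ, hφ, htend⟩ := hcpt.tendsto_subseq
    (x := fun k => (xs k, (1 / ‖q k‖) • q k)) (fun k => ⟨hxs k, hunit k⟩)
  have hxt : Tendsto (fun k => xs (φ k)) atTop (𝓝 xl) := (continuous_fst.tendsto _).comp htend
  have hwt : Tendsto (fun k => (1 / ‖q (φ k)‖) • q (φ k)) atTop (𝓝 w) :=
    (continuous_snd.tendsto _).comp htend
  have hw1 : ‖w‖ = 1 := by
    have := hlim.2
    simpa using this
  have hqφ : Tendsto (fun k => q (φ k)) atTop (𝓝 0) := hqt.comp hφ.tendsto_atTop
  have hpos : ∀ (y : X) (T : ℝ), 0 ≤ T → T • w ∈ Dom D y := by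
    intro y T hT
    exact sd_dir hD (Θ := fun k y => ns (φ k) • ex D y (u (φ k))) (q := fun k => q (φ k))
      (fun k => hTr (φ k)) hqφ (x := fun k => xs (φ k)) hxt (fun k => hqd (φ k))
      (fun k => hag (φ k)) (fun k => hq0 (φ k)) hwt y T hT
  have hx't : Tendsto (fun k => x' (φ k)) atTop (𝓝 xl) := by
    have hopen := isOpen_dom2 hD
    have hmem : ((xl, (0 : E)) : X × E) ∈ {p : X × E | p.2 ∈ Dom D p.1} := zero_mem_dom D xl
    have hcont := (continuousOn_ex2 hD).continuousAt (hopen.mem_nhds hmem)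
    have h1 : Tendsto (fun k => ((xs (φ k), q (φ k)) : X × E)) atTop (𝓝 (xl, 0)) :=
      hxt.prodMk_nhds hqφ
    have h2 := hcont.tendsto.comp h1
    simp only [ex_zero hD] at h2
    exact h2
  have hneg : ∀ (y : X) (T : ℝ), 0 ≤ T → T • (-w) ∈ Dom D y := by
    intro y T hT
    refine sd_dir hD (Θ := fun k y => (ns (φ k))⁻¹ • ex D y (-u (φ k)))
      (q := fun k => -q (φ k)) (fun k => hTr' (φ k)) (by simpa using hqφ.neg)
      (x := fun k => x' (φ k)) hx't (fun k => hqd' (φ k))
      (fun k => hag' (φ k)) (fun k => neg_ne_zero.2 (hq0 (φ k))) ?_ y T hT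
    have h1 := hwt.neg
    simpa using h1
  have hwE : w ∈ Ec D hD := by
    rw [mem_Ec]
    intro y t
    rcases le_total 0 t with ht | ht
    · exact hpos y t ht
    · have := hneg y (-t) (by linarith)
      rwa [smul_neg, neg_smul, neg_neg] at this
  have hwQ : w ∈ Q := by
    have hcl : IsClosed (Q : Set E) := Submodule.closed_of_finiteDimensional Q
    exact hcl.mem_of_tendsto hwt (Eventually.of_forall fun k =>
      Q.smul_mem _ (hπQ _))
  have hw0 : w = 0 := by
    have : w ∈ (Ec D hD) ⊓ Q := ⟨hwE, hwQ⟩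
    rw [hQ.inf_eq_bot] at this
    exact (Submodule.mem_bot ℝ).1 this
  rw [hw0, norm_zero] at hw1
  exact zero_ne_one hw1

end H83T
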