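import Pool.Agent.H.MP_7a8a58_gt.h83.Cplt

set_option autoImplicit false

open Set Metric Topology Filter

namespace H83T

variable {E : Type*} [NormedAddCommGroup E] [NormedSpace ℝ E]
variable {X : Type*} [TopologicalSpace X] [T2Space X] [ConnectedSpace X]

/-- `Θ` is a symmetry over a translation which preserves star domains. -/
structure TrSym (D : X → E) (Θ : X → X) (q : E) : Prop where
  cont : Continuous Θ
  tr : ∀ x, D (Θ x) = D x + q
  dom : ∀ x, Dom D (Θ x) = Dom D x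

omit [ConnectedSpace X] in
/-- agreement at one point of a chart gives agreement on the chart -/
theorem SDA_key {D : X → E} (hD : IsLocalHomeomorph D) {Θ : X → X} {q : E}
    (hΘ : TrSym D Θ q) {y : X} {η : ℝ} (hη : ball (0 : E) (2 * η) ⊆ Dom D y) (hk : ‖q‖ < η)
    {v₀ : E} (hv₀ : v₀ ∈ ball (0 : E) η) (h : Θ (ex D y v₀) = ex D (ex D y v₀) q) :
    ∀ v ∈ ball (0 : E) η, q ∈ Dom D (ex D y v) ∧ Θ (ex D y v) = ex D (ex D y v) q := by
  have hη0 : 0 < η := (norm_nonneg _).trans_lt hk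
  have hC : Convex ℝ (ball (0 : E) (2 * η)) := convex_ball _ _
  have hss : ball (0 : E) η ⊆ ball (0 : E) (2 * η) := ball_subset_ball (by linarith)
  have hadd : ∀ v ∈ ball (0 : E) η, v + q ∈ ball (0 : E) (2 * η) := by
    intro v hv
    rw [mem_ball_zero_iff] at hv ⊢
    have := norm_add_le v q
    linarith
  have hm : ∀ v ∈ ball (0 : E) η, q ∈ Dom D (ex D y v) ∧ ex D (ex D y v) q = ex D y (v + q) :=
    fun v hv => move hD hC hη (hss hv) (hadd v hv)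
  have hcv : ContinuousOn (ex D y) (ball (0 : E) (2 * η)) := (continuousOn_ex hD y).mono hη
  have hf : ContinuousOn (fun v => Θ (ex D y v)) (ball (0 : E) η) :=
    hΘ.cont.comp_continuousOn (hcv.mono hss)
  have hg : ContinuousOn (fun v => ex D y (v + q)) (ball (0 : E) η) :=
    hcv.comp (continuous_id.add continuous_const).continuousOn hadd
  have key := eqOn_of_lift hD (S := ball (0 : E) η) (convex_ball _ _).isPreconnected hf hg
    (fun v hv => by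
      rw [hΘ.tr, D_ex (hη (hss hv)), D_ex (hη (hadd v hv)), add_assoc]) hv₀
    (by
      show Θ (ex D y v₀) = ex D y (v₀ + q)
      rw [h, (hm v₀ hv₀).2])
  intro v hv
  refine ⟨(hm v hv).1, ?_⟩
  rw [(hm v hv).2]
  exact key v hv

/-- PROOF: (4.2) of the page. `G = {y | ∀ᶠ p in atTop ×ˢ 𝓝 y, q p.1 ∈ Dom D p.2 ∧
Θ p.1 p.2 = ex D p.2 (q p.1)}`. For `y : X` take `η` with `ball 0 (2 η) ⊆ Dom D y` and the connected open set
`W = ex D y '' ball 0 η`. For `k` with `‖q k‖ < η`: `q k ∈ Dom D y'` for `y' ∈ W` (`move`, `C = ball 0 (2 η)`)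
and `y' ↦ Θ k y'`, `y' ↦ ex D y' (q k)` are continuous lifts on `W` of `D y' + q k`: they agree everywhere on
`W` or nowhere (`eqOn_of_lift`). So `W ∩ G ≠ ∅ → W ⊆ G`; and the limit point `x` is in `G`. Connectedness. -/
theorem sd_step {D : X → E} (hD : IsLocalHomeomorph D) {Θ : ℕ → X → X} {q : ℕ → E}
    (hΘ : ∀ k, TrSym D (Θ k) (q k)) (hq : Tendsto q atTop (𝓝 0)) {x : ℕ → X} {xl : X}
    (hx : Tendsto x atTop (𝓝 xl)) (hxq : ∀ k, q k ∈ Dom D (x k))
    (hag : ∀ k, Θ k (x k) = ex D (x k) (q k)) (y : X) :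
    ∃ η > 0, ball (0 : E) η ⊆ Dom D y ∧ ∃ k₀ : ℕ, ∀ k ≥ k₀, ∀ v ∈ ball (0 : E) η,
      q k ∈ Dom D (ex D y v) ∧ Θ k (ex D y v) = ex D (ex D y v) (q k) := by
  -- charts
  have hch : ∀ z : X, ∃ η > 0, ball (0 : E) (2 * η) ⊆ Dom D z := by
    intro z
    obtain ⟨r, hr, h⟩ := Metric.isOpen_iff.1 (isOpen_dom hD z) 0 (zero_mem_dom D z)
    refine ⟨r / 2, by positivity, ?_⟩
    rwa [mul_div_cancel₀ _ (two_ne_zero)]
  have hW : ∀ (z : X) (η : ℝ), 0 < η → ex D z '' ball (0 : E) η ∈ 𝓝 z := by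
    intro z η h
    rw [nhds_eq_map_ex hD z]
    exact image_mem_map (ball_mem_nhds _ h)
  have hqs : ∀ η : ℝ, 0 < η → ∀ᶠ k in atTop, ‖q k‖ < η := by
    intro η h
    have h1 := hq.norm
    rw [norm_zero] at h1
    exact h1.eventually (gt_mem_nhds h)
  -- the good set
  let G : Set X := {z | ∃ η > 0, ball (0 : E) η ⊆ Dom D z ∧ ∃ k₀ : ℕ, ∀ k ≥ k₀,
    ∀ v ∈ ball (0 : E) η, q k ∈ Dom D (ex D z v) ∧ Θ k (ex D z v) = ex D (ex D z v) (q k)}
  -- points with eventual agreement somewhere in a chart are good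
  have hgood : ∀ (z : X) (η : ℝ), 0 < η → ball (0 : E) (2 * η) ⊆ Dom D z →
      (∀ᶠ k in atTop, ∃ v ∈ ball (0 : E) η, Θ k (ex D z v) = ex D (ex D z v) (q k)) →
      (∀ᶠ k in atTop, ∀ v ∈ ball (0 : E) η,
        q k ∈ Dom D (ex D z v) ∧ Θ k (ex D z v) = ex D (ex D z v) (q k)) ∧ z ∈ G := by
    intro z η hη hsub h
    have h1 : ∀ᶠ k in atTop, ∀ v ∈ ball (0 : E) η,
        q k ∈ Dom D (ex D z v) ∧ Θ k (ex D z v) = ex D (ex D z v) (q k) := by
      filter_upwards [h, hqs η hη] with k h2 h3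
      obtain ⟨v₀, hv₀, h4⟩ := h2
      exact SDA_key hD (hΘ k) hsub h3 hv₀ h4
    refine ⟨h1, ?_⟩
    obtain ⟨k₀, hk₀⟩ := eventually_atTop.1 h1
    exact ⟨η, hη, (ball_subset_ball (by linarith)).trans hsub, k₀, hk₀⟩
  -- good points agree at themselves
  have hself : ∀ z ∈ G, ∀ᶠ k in atTop, Θ k z = ex D z (q k) := by
    rintro z ⟨η, hη, -, k₀, hk⟩
    filter_upwards [eventually_ge_atTop k₀] with k h1
    have h2 := (hk k h1 0 (mem_ball_self hη)).2
    rwa [ex_zero hD z] at h2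
  have hopen : IsOpen G := by
    rw [isOpen_iff_mem_nhds]
    intro z hz
    obtain ⟨η, hη, hsub⟩ := hch z
    obtain ⟨h1, -⟩ := hgood z η hη hsub (by
      filter_upwards [hself z hz] with k h
      refine ⟨0, mem_ball_self hη, ?_⟩
      rwa [ex_zero hD z])
    refine Filter.mem_of_superset (hW z η hη) ?_
    rintro _ ⟨v, hv, rfl⟩
    obtain ⟨η', hη', hsub'⟩ := hch (ex D z v)
    refine (hgood (ex D z v) η' hη' hsub' ?_).2
    filter_upwards [h1] with k h2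
    refine ⟨0, mem_ball_self hη', ?_⟩
    rw [ex_zero hD (ex D z v)]
    exact (h2 v hv).2
  have hclosed : IsClosed G := by
    rw [← isOpen_compl_iff, isOpen_iff_mem_nhds]
    intro z hz
    obtain ⟨η, hη, hsub⟩ := hch z
    refine Filter.mem_of_superset (hW z η hη) ?_
    rintro _ ⟨v, hv, rfl⟩ hvG
    refine hz (hgood z η hη hsub ?_).2
    filter_upwards [hself _ hvG] with k h
    exact ⟨v, hv, h⟩
  have hxl : xl ∈ G := by
    obtain ⟨η, hη, hsub⟩ := hch xl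
    refine (hgood xl η hη hsub ?_).2
    filter_upwards [hx.eventually (hW xl η hη)] with k h
    obtain ⟨v, hv, hvx⟩ := h
    refine ⟨v, hv, ?_⟩
    rw [hvx]
    exact hag k
  have huniv : G = univ := IsClopen.eq_univ ⟨hclosed, hopen⟩ ⟨xl, hxl⟩
  have : y ∈ G := by rw [huniv]; exact mem_univ y
  exact this

/-- PROOF: with `η`, `k₀` of `sd_step` and `y' = ex D y v`: `Dom D (ex D y' (q k)) = Dom D (Θ k y') =
Dom D y' ∋ q k`, by induction `(m : ℝ) • q k ∈ Dom D y'` and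
`ex D y' (m • q k) = (Θ k)^[m] y'` (so that `Dom` of it is `Dom D y'`); `collinear`. Then
`τ • q k ∈ Dom D y'` for all `τ ≥ 0` (`smul_mem_dom`). Then for `v ∈ ball 0 η`, `τ ≥ 0`,
`v + τ • q k ∈ Dom D y` (`dom_add_of_path`). -/
theorem sd_ray {D : X → E} (hD : IsLocalHomeomorph D) {Θ : ℕ → X → X} {q : ℕ → E}
    (hΘ : ∀ k, TrSym D (Θ k) (q k)) (hq : Tendsto q atTop (𝓝 0)) {x : ℕ → X} {xl : X}
    (hx : Tendsto x atTop (𝓝 xl)) (hxq : ∀ k, q k ∈ Dom D (x k))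
    (hag : ∀ k, Θ k (x k) = ex D (x k) (q k)) (y : X) :
    ∃ η > 0, ∃ k₀ : ℕ, ∀ k ≥ k₀, ∀ v ∈ ball (0 : E) η, ∀ τ : ℝ, 0 ≤ τ →
      v + τ • q k ∈ Dom D y := by
  obtain ⟨η, hη, hsub, k₀, hk₀⟩ := sd_step hD hΘ hq hx hxq hag y
  refine ⟨η, hη, k₀, fun k hk v hv τ hτ => ?_⟩
  have hm : ∀ v ∈ ball (0 : E) η, ∀ m : ℕ, (m : ℝ) • q k ∈ Dom D (ex D y v) := by
    intro v hv m
    induction m with
    | zero =>
      rw [Nat.cast_zero, zero_smul]
      exact zero_mem_dom D _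
    | succ m ih =>
      obtain ⟨h1, h2⟩ := hk₀ k hk v hv
      have h3 : (m : ℝ) • q k ∈ Dom D (ex D (ex D y v) (q k)) := by
        rw [← h2, (hΘ k).dom]
        exact ih
      have h4 := (collinear hD (Nat.cast_nonneg m) h1 h3).1
      rwa [Nat.cast_succ, add_comm]
  have hr : ∀ v ∈ ball (0 : E) η, ∀ τ : ℝ, 0 ≤ τ → τ • q k ∈ Dom D (ex D y v) := by
    intro v hv τ hτ
    obtain ⟨m, hm1⟩ := exists_nat_gt τ
    have hm0 : (0 : ℝ) < m := hτ.trans_lt hm1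
    have h1 := smul_mem_dom (hm v hv m) (t := τ / m)
      ⟨div_nonneg hτ hm0.le, (div_le_one hm0).2 hm1.le⟩
    rwa [smul_smul, div_mul_cancel₀ _ hm0.ne'] at h1
  refine (dom_add_of_path hD (hsub hv) fun t ht => ?_).1
  rw [smul_smul]
  refine hr (t • v) ?_ (t * τ) (mul_nonneg ht.1 hτ)
  rw [mem_ball_zero_iff] at hv ⊢
  rw [norm_smul, Real.norm_eq_abs, abs_of_nonneg ht.1]
  exact (mul_le_of_le_one_left (norm_nonneg _) ht.2).trans_lt hv

/-- PROOF: `T • w = v + τ • q k` with `τ = T / ‖q k‖`, `v = T • (w - (1/‖q k‖) • q k)`, small for `k` large;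
`sd_ray`. -/
theorem sd_dir {D : X → E} (hD : IsLocalHomeomorph D) {Θ : ℕ → X → X} {q : ℕ → E}
    (hΘ : ∀ k, TrSym D (Θ k) (q k)) (hq : Tendsto q atTop (𝓝 0)) {x : ℕ → X} {xl : X}
    (hx : Tendsto x atTop (𝓝 xl)) (hxq : ∀ k, q k ∈ Dom D (x k))
    (hag : ∀ k, Θ k (x k) = ex D (x k) (q k)) (hq0 : ∀ k, q k ≠ 0) {w : E}
    (hw : Tendsto (fun k => (1 / ‖q k‖) • q k) atTop (𝓝 w)) (y : X) (T : ℝ) (hT : 0 ≤ T) :
    T • w ∈ Dom D y := by
  obtain ⟨η, hη, k₀, hk₀⟩ := sd_ray hD hΘ hq hx hxq hag y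
  have h1 : Tendsto (fun k => ‖T • (w - (1 / ‖q k‖) • q k)‖) atTop (𝓝 0) := by
    have h2 := ((tendsto_const_nhds (x := w)).sub hw).const_smul T
    rw [sub_self, smul_zero] at h2
    have h3 := h2.norm
    rwa [norm_zero] at h3
  obtain ⟨k, hk1, hk2⟩ := ((h1.eventually (gt_mem_nhds hη)).and (eventually_ge_atTop k₀)).exists
  have h4 := hk₀ k hk2 (T • (w - (1 / ‖q k‖) • q k)) (mem_ball_zero_iff.2 hk1)
    (T * (1 / ‖q k‖)) (mul_nonneg hT (by positivity))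
  have h5 : T • (w - (1 / ‖q k‖) • q k) + (T * (1 / ‖q k‖)) • q k = T • w := by
    rw [smul_sub, smul_smul, sub_add_cancel]
  rwa [h5] at h4

end H83T
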