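import Pool.Agent.H.MP_7a8a58_gt.h83.Pair
import Pool.Agent.H.MP_7a8a58_gt.h83.LinAlg

set_option autoImplicit false

open Set Metric Topology Filter

namespace H83T

/-- An affine action: group `Γ` acting on `E` freely, properly discontinuously, cocompactly by
`γ x = L γ x + b γ`, `L γ ∈ ⟨A⟩` of infinite order. -/
structure AffCyc {E : Type*} [NormedAddCommGroup E] [NormedSpace ℝ E] {Γ : Type*} [Group Γ]
    (L : Γ →* (E ≃ₗ[ℝ] E)) (b : Γ → E) (γ₀ : Γ) : Prop where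
  one : b 1 = 0
  mul : ∀ γ γ' : Γ, b (γ * γ') = L γ (b γ') + b γ
  cyc : ∀ γ : Γ, ∃ k : ℤ, L γ = L γ₀ ^ k
  inf : ∀ k : ℤ, L γ₀ ^ k = 1 → k = 0
  free : ∀ (γ : Γ) (x : E), L γ x + b γ = x → γ = 1
  prop : ∀ C : Set E, IsCompact C → {γ : Γ | ((fun x => L γ x + b γ) '' C ∩ C).Nonempty}.Finite
  coc : ∃ K : Set E, IsCompact K ∧ ∀ x : E, ∃ γ : Γ, L γ x + b γ ∈ K
  det : |LinearMap.det (L γ₀ : E →ₗ[ℝ] E)| = 1

variable {E : Type*} [NormedAddCommGroup E] [NormedSpace ℝ E] [FiniteDimensional ℝ E]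
variable {Γ : Type*} [Group Γ] {L : Γ →* (E ≃ₗ[ℝ] E)} {b : Γ → E} {γ₀ : Γ}

/-- Translation vectors of the elements of `ker L`. -/
def AffCyc.Tr (S : AffCyc L b γ₀) : AddSubgroup E where
  carrier := {w | ∃ n : Γ, L n = 1 ∧ b n = w}
  zero_mem' := ⟨1, map_one L, S.one⟩
  add_mem' := by
    rintro _ _ ⟨n, hn, rfl⟩ ⟨m, hm, rfl⟩
    exact ⟨m * n, by rw [map_mul, hn, hm, one_mul], by rw [S.mul, hm]; rfl⟩
  neg_mem' := by
    rintro _ ⟨n, hn, rfl⟩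
    refine ⟨n⁻¹, by rw [map_inv, hn, inv_one], ?_⟩
    have h := S.mul n⁻¹ n
    rw [inv_mul_cancel, S.one, map_inv, hn, inv_one] at h
    exact (neg_eq_of_add_eq_zero_right h.symm).symm

/-- PROOF: finiteness (`prop`) for `C` = a closed ball around `0`: `w ∈ Tr`, `‖w‖ ≤ 1` is `b n` for finitely many
`n`. -/
theorem AffCyc.tr_discrete (S : AffCyc L b γ₀) :
    ∃ r > 0, ∀ w ∈ S.Tr, ‖w‖ < r → w = 0 := by
  have : ProperSpace E := FiniteDimensional.proper ℝ E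
  have h1 := S.prop (closedBall (0 : E) 1) (isCompact_closedBall _ _)
  have h2 : {w : E | w ∈ S.Tr ∧ ‖w‖ ≤ 1}.Finite := by
    refine (h1.image b).subset ?_
    rintro w ⟨⟨n, hn, hw⟩, hw1⟩
    refine ⟨n, ⟨w, ⟨0, mem_closedBall_self zero_le_one, ?_⟩, ?_⟩, hw⟩
    · change L n 0 + b n = w
      rw [map_zero, zero_add, hw]
    · rw [mem_closedBall, dist_zero_right]
      exact hw1
  have h3 : IsClosed ({w : E | w ∈ S.Tr ∧ ‖w‖ ≤ 1} \ {0}) := h2.sdiff.isClosed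
  obtain ⟨ε, hε, hball⟩ := Metric.isOpen_iff.1 h3.isOpen_compl 0 (fun h => h.2 rfl)
  refine ⟨min ε 1, lt_min hε one_pos, fun w hw hwr => ?_⟩
  by_contra h0
  have h4 : w ∈ ball (0 : E) ε := by
    rw [mem_ball, dist_zero_right]
    exact hwr.trans_le (min_le_left _ _)
  exact hball h4 ⟨⟨hw, (hwr.trans_le (min_le_right _ _)).le⟩, h0⟩

omit [FiniteDimensional ℝ E] in
private theorem StrA_conj (S : AffCyc L b γ₀) (γ : Γ) {w : E} (hw : w ∈ S.Tr) :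
    L γ w ∈ S.Tr := by
  obtain ⟨n, hn, hw⟩ := hw
  refine ⟨γ * n * γ⁻¹, ?_, ?_⟩
  · rw [map_mul, map_mul, hn, mul_one, map_inv, mul_inv_cancel]
  · have h1 := S.mul γ γ⁻¹
    rw [mul_inv_cancel, S.one] at h1
    rw [S.mul, S.mul, map_mul, hn, mul_one, hw, ← add_assoc, add_right_comm, ← h1, zero_add]

/-- PROOF: conjugation by `γ₀`: `b (γ₀ n γ₀⁻¹) = L γ₀ (b n)` for `L n = 1`. -/
theorem AffCyc.tr_iff (S : AffCyc L b γ₀) (w : E) : L γ₀ w ∈ S.Tr ↔ w ∈ S.Tr := by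
  refine ⟨fun h => ?_, fun h => StrA_conj S γ₀ h⟩
  have h1 := StrA_conj S γ₀⁻¹ h
  have h2 : L γ₀⁻¹ (L γ₀ w) = w := by
    rw [map_inv]
    exact (L γ₀).symm_apply_apply w
  rwa [h2] at h1

end H83T
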