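import Pool.Agent.H.MP_7a8a58_gt.h83.Ends
import Pool.Agent.H.MP_7a8a58_gt.h83.StrA

set_option autoImplicit false

open Set Metric Topology Filter
open scoped Pointwise

namespace H83T

variable {E : Type*} [NormedAddCommGroup E] [NormedSpace ℝ E] [FiniteDimensional ℝ E]
variable {Γ : Type*} [Group Γ] {L : Γ →* (E ≃ₗ[ℝ] E)} {b : Γ → E} {γ₀ : Γ}

/-- Every vector of the real span of an additive subgroup is within bounded distance of it. -/
theorem StrB_bounded (T : AddSubgroup E) :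
    ∃ R : ℝ, ∀ w ∈ Submodule.span ℝ (T : Set E), ∃ t ∈ T, ‖w - t‖ ≤ R := by
  obtain ⟨B, hBT, hBs, hBi⟩ := exists_linearIndependent ℝ (T : Set E)
  have hfin : B.Finite := hBi.setFinite
  refine ⟨∑ x ∈ hfin.toFinset, ‖x‖, fun w hw => ?_⟩
  rw [← hBs] at hw
  have hw' : w ∈ Submodule.span ℝ ((hfin.toFinset : Finset E) : Set E) := by
    rwa [hfin.coe_toFinset]
  obtain ⟨f, -, hf⟩ := Submodule.mem_span_finset.1 hw'
  refine ⟨∑ x ∈ hfin.toFinset, ⌊f x⌋ • x, ?_, ?_⟩
  · refine sum_mem fun x hx => T.zsmul_mem ?_ _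
    exact hBT (hfin.mem_toFinset.1 hx)
  · rw [← hf, ← Finset.sum_sub_distrib]
    refine (norm_sum_le _ _).trans (Finset.sum_le_sum fun x _ => ?_)
    have h1 : f x • x - ⌊f x⌋ • x = (Int.fract (f x)) • x := by
      rw [← Int.self_sub_floor, sub_smul, Int.cast_smul_eq_zsmul]
    rw [h1, norm_smul, Real.norm_of_nonneg (Int.fract_nonneg _)]
    calc Int.fract (f x) * ‖x‖ ≤ 1 * ‖x‖ :=
          mul_le_mul_of_nonneg_right (Int.fract_lt_one _).le (norm_nonneg _)
      _ = ‖x‖ := one_mul _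

omit [FiniteDimensional ℝ E] in
/-- The affine action. -/
theorem StrB_act_mul (S : AffCyc L b γ₀) (γ γ' : Γ) (x : E) :
    L (γ * γ') x + b (γ * γ') = L γ (L γ' x + b γ') + b γ := by
  rw [S.mul, map_mul, map_add]
  simp only [LinearEquiv.mul_apply]
  abel

/-- The span `W` of the translations has codimension one.
PROOF. `W = span ℝ Tr`; there is a bounded set `F₀ ⊆ W` with `W = Tr + F₀`. Every `γ` is
`n γ₀ ^ k` with `L n = 1`. `h` = the affine map induced by `γ₀` on `V = E ⧸ W` (`W` is `L γ₀`-stable by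
`tr_iff`). Then `V = ⋃_k h ^ k (K̄)`, `K̄` the image of `K` (`coc`). Properness of `⟨h⟩` on `V`: compact
`C, C' ⊆ V` lift to compact `C₁, C₁' ⊆ E` (add `closure F₀`): if `h ^ k c ∈ C'` then some `n γ₀ ^ k` moves a
point of `C₁` into `C₁'`, apply `prop` to `C₁ ∪ C₁'`, and `n γ₀ ^ k` determines `k` (`inf`). So
`finrank (E ⧸ W) ≤ 1` by `finrank_le_one_of_cocompact`. If `W = ⊤`, properness with `V` a point would make `ℤ` finite,
contradiction. -/
theorem AffCyc.finrank_quot (S : AffCyc L b γ₀) :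
    Module.finrank ℝ (E ⧸ (Submodule.span ℝ (S.Tr : Set E))) = 1 := by
  classical
  set W : Submodule ℝ E := Submodule.span ℝ (S.Tr : Set E) with hW
  set k : ℕ := Module.finrank ℝ (E ⧸ W) with hk
  -- the coordinate space
  let e : (E ⧸ W) ≃ₗ[ℝ] (Fin k → ℝ) := LinearEquiv.ofFinrankEq _ _ (by rw [Module.finrank_fin_fun])
  let q : E →ₗ[ℝ] (Fin k → ℝ) := e.toLinearMap ∘ₗ W.mkQ
  have hq0 : ∀ x, q x = 0 ↔ x ∈ W := fun x => by
    simp only [q, LinearMap.comp_apply, LinearEquiv.coe_coe, LinearEquiv.map_eq_zero_iff,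
      Submodule.mkQ_apply, Submodule.Quotient.mk_eq_zero]
  have hqs : Function.Surjective q := e.surjective.comp W.mkQ_surjective
  obtain ⟨s, hs⟩ := q.exists_rightInverse_of_surjective (LinearMap.range_eq_top.2 hqs)
  have hs' : ∀ v, q (s v) = v := fun v => LinearMap.congr_fun hs v
  have hqc : Continuous q := q.continuous_of_finiteDimensional
  have hsc : Continuous s := s.continuous_of_finiteDimensional
  -- stability
  have hA : ∀ w ∈ W, L γ₀ w ∈ W := by
    intro w hw
    rw [hW] at hw ⊢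
    induction hw using Submodule.span_induction with
    | mem x hx => exact Submodule.subset_span ((S.tr_iff x).2 hx)
    | zero => rw [map_zero]; exact Submodule.zero_mem _
    | add x y _ _ hx hy => rw [map_add]; exact Submodule.add_mem _ hx hy
    | smul c x _ hx => rw [map_smul]; exact Submodule.smul_mem _ _ hx
  have hA' : ∀ w ∈ W, (L γ₀).symm w ∈ W := by
    intro w hw
    rw [hW] at hw ⊢
    induction hw using Submodule.span_induction with
    | mem x hx =>
      refine Submodule.subset_span ((S.tr_iff _).1 ?_)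
      rw [LinearEquiv.apply_symm_apply]
      exact hx
    | zero => rw [map_zero]; exact Submodule.zero_mem _
    | add x y _ _ hx hy => rw [map_add]; exact Submodule.add_mem _ hx hy
    | smul c x _ hx => rw [map_smul]; exact Submodule.smul_mem _ _ hx
  have hqA : ∀ x, q (L γ₀ (s (q x))) = q (L γ₀ x) := by
    intro x
    rw [← sub_eq_zero, ← map_sub, hq0, ← map_sub]
    exact hA _ ((hq0 _).1 (by rw [map_sub, hs', sub_self]))
  have hqA' : ∀ x, q ((L γ₀).symm (s (q x))) = q ((L γ₀).symm x) := by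
    intro x
    rw [← sub_eq_zero, ← map_sub, hq0, ← map_sub]
    exact hA' _ ((hq0 _).1 (by rw [map_sub, hs', sub_self]))
  -- the induced homeomorphism
  have hcL : Continuous (L γ₀ : E → E) := (L γ₀ : E →ₗ[ℝ] E).continuous_of_finiteDimensional
  have hcL' : Continuous ((L γ₀).symm : E → E) :=
    ((L γ₀).symm : E →ₗ[ℝ] E).continuous_of_finiteDimensional
  let h : (Fin k → ℝ) ≃ₜ (Fin k → ℝ) :=
    { toFun := fun v => q (L γ₀ (s v)) + q (b γ₀)
      invFun := fun v => q ((L γ₀).symm (s (v - q (b γ₀))))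
      left_inv := fun v => by
        show q ((L γ₀).symm (s (q (L γ₀ (s v)) + q (b γ₀) - q (b γ₀)))) = v
        rw [add_sub_cancel_right, hqA', LinearEquiv.symm_apply_apply, hs']
      right_inv := fun v => by
        show q (L γ₀ (s (q ((L γ₀).symm (s (v - q (b γ₀))))))) + q (b γ₀) = v
        rw [hqA, LinearEquiv.apply_symm_apply, hs', sub_add_cancel]
      continuous_toFun := by fun_prop
      continuous_invFun := by fun_prop }
  have hh : ∀ x, q (L γ₀ x + b γ₀) = h (q x) := fun x => by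
    show q (L γ₀ x + b γ₀) = q (L γ₀ (s (q x))) + q (b γ₀)
    rw [hqA, map_add]
  have hpow : ∀ (j : ℕ) (x : E), q (L (γ₀ ^ j) x + b (γ₀ ^ j)) = (h ^ j) (q x) := by
    intro j
    induction j with
    | zero => intro x; simp [S.one]
    | succ j ih =>
      intro x
      rw [pow_succ', StrB_act_mul S, hh, ih, pow_succ']
      rfl
  have hinv : ∀ (γ : Γ) (x : E), L γ (L γ⁻¹ x + b γ⁻¹) + b γ = x := fun γ x => by
    rw [← StrB_act_mul S, mul_inv_cancel, map_one, S.one, add_zero]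
    rfl
  have hz : ∀ (j : ℤ) (x : E), q (L (γ₀ ^ j) x + b (γ₀ ^ j)) = (h ^ j) (q x) := by
    intro j x
    obtain ⟨n, rfl | rfl⟩ := j.eq_nat_or_neg
    · rw [zpow_natCast, zpow_natCast]
      exact hpow n x
    · rw [zpow_neg, zpow_natCast, zpow_neg, zpow_natCast]
      have h1 := hpow n (L (γ₀ ^ n)⁻¹ x + b (γ₀ ^ n)⁻¹)
      rw [hinv] at h1
      rw [h1]
      exact ((h ^ n).symm_apply_apply _).symm
  -- covering
  obtain ⟨K, hK, hcoc⟩ := S.coc
  obtain ⟨R, hR⟩ := StrB_bounded S.Tr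
  have hTrW : ∀ w ∈ S.Tr, q w = 0 := fun w hw => (hq0 w).2 (Submodule.subset_span hw)
  have hcov : ∀ v : Fin k → ℝ, ∃ j : ℤ, ∃ y ∈ q '' K, v = (h ^ j) y := by
    intro v
    obtain ⟨x, rfl⟩ := hqs v
    obtain ⟨γ, hγ⟩ := hcoc x
    obtain ⟨j, hj⟩ := S.cyc γ
    refine ⟨-j, _, ⟨_, hγ, rfl⟩, ?_⟩
    have h1 : L (γ * (γ₀ ^ j)⁻¹) = 1 := by
      rw [map_mul, map_inv, map_zpow, hj, mul_inv_cancel]
    have h2 : γ = (γ * (γ₀ ^ j)⁻¹) * γ₀ ^ j := by rw [inv_mul_cancel_right]
    have h3 : q (L γ x + b γ) = (h ^ j) (q x) := by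
      conv_lhs => rw [h2]
      rw [StrB_act_mul S, h1, map_add, hTrW _ ⟨_, h1, rfl⟩, add_zero]
      exact hz j x
    rw [h3, zpow_neg]
    exact ((h ^ j).symm_apply_apply _).symm
  have hprop : ∀ C C' : Set (Fin k → ℝ), IsCompact C → IsCompact C' →
      {j : ℤ | ((h ^ j) '' C ∩ C').Nonempty}.Finite := by
    intro C C' hC hC'
    set C₁ : Set E := s '' C with hC₁
    set C₂ : Set E := s '' C' + closedBall (0 : E) R with hC₂
    have hc : IsCompact (C₁ ∪ C₂) :=
      (hC.image hsc).union ((hC'.image hsc).add (isCompact_closedBall 0 R))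
    have hfin := S.prop _ hc
    have key : ∀ j ∈ {j : ℤ | ((h ^ j) '' C ∩ C').Nonempty},
        ∃ γ ∈ {γ : Γ | ((fun x => L γ x + b γ) '' (C₁ ∪ C₂) ∩ (C₁ ∪ C₂)).Nonempty},
          L γ = L γ₀ ^ j := by
      rintro j ⟨c', ⟨c, hc, rfl⟩, hc'⟩
      set y : E := L (γ₀ ^ j) (s c) + b (γ₀ ^ j) with hy
      have hqy : q y = (h ^ j) c := by rw [hy, hz, hs']
      have hyW : y - s ((h ^ j) c) ∈ W := (hq0 _).1 (by rw [map_sub, hs', hqy, sub_self])
      obtain ⟨t, ⟨n, hn, hnt⟩, ht⟩ := hR _ hyW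
      have hn' : L n⁻¹ = 1 := by rw [map_inv, hn, inv_one]
      refine ⟨n⁻¹ * γ₀ ^ j, ?_, by rw [map_mul, hn', one_mul, map_zpow]⟩
      refine ⟨y - t, ⟨s c, Or.inl ⟨c, hc, rfl⟩, ?_⟩, Or.inr ?_⟩
      · show L (n⁻¹ * γ₀ ^ j) (s c) + b (n⁻¹ * γ₀ ^ j) = y - t
        rw [StrB_act_mul S, ← hy, hn']
        have h4 := hinv n y
        rw [hn', hn] at h4
        have h5 : b n⁻¹ = -t := by
          have h6 : y + b n⁻¹ + b n = y := h4
          rw [hnt] at h6
          have h7 : y + (b n⁻¹ + t) = y + 0 := by rw [add_zero, ← add_assoc]; exact h6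
          exact eq_neg_of_add_eq_zero_left (add_left_cancel h7)
        rw [h5, sub_eq_add_neg]
        rfl
      · refine ⟨s ((h ^ j) c), ⟨_, hc', rfl⟩, y - s ((h ^ j) c) - t, ?_, ?_⟩
        · rw [mem_closedBall_zero_iff]
          exact ht
        · show s ((h ^ j) c) + (y - s ((h ^ j) c) - t) = y - t
          abel
    choose! g hg1 hg2 using key
    refine Set.Finite.of_finite_image (hfin.subset (image_subset_iff.2 fun j hj => hg1 j hj)) ?_
    intro i hi j hj hij
    have h1 : L γ₀ ^ i = L γ₀ ^ j := by rw [← hg2 i hi, ← hg2 j hj, hij]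
    have h2 := S.inf (i - j) (by rw [zpow_sub, h1, mul_inv_cancel])
    omega
  have hle : k ≤ 1 := by
    have := finrank_le_one_of_cocompact h (q '' K) (hK.image hqc) hcov hprop
    rwa [Module.finrank_fin_fun] at this
  rcases Nat.le_one_iff_eq_zero_or_eq_one.1 hle with h0 | h1
  · exfalso
    have hsub : Subsingleton (Fin k → ℝ) := by
      rw [h0]
      infer_instance
    have h2 := hprop univ univ (Set.Finite.isCompact (Set.toFinite _))
      (Set.Finite.isCompact (Set.toFinite _))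
    refine Set.infinite_univ (α := ℤ) (h2.subset fun j _ => ?_)
    exact ⟨0, ⟨0, mem_univ _, Subsingleton.elim _ _⟩, mem_univ _⟩
  · exact h1

end H83T
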