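import Pool.Agent.H.MP_7a8a58_gt.h83.StrB

set_option autoImplicit false

open Set Metric Topology Filter

namespace H83T

variable {E : Type*} [NormedAddCommGroup E] [NormedSpace ℝ E] [FiniteDimensional ℝ E]
variable {Γ : Type*} [Group Γ] {L : Γ →* (E ≃ₗ[ℝ] E)} {b : Γ → E} {γ₀ : Γ}

/-- The affine map of the line induced by `γ₀` has no fixed point. -/
theorem StrC_no_fixed (S : AffCyc L b γ₀) (q : E →ₗ[ℝ] ℝ)
    (hq : ∀ x, q x = 0 ↔ x ∈ Submodule.span ℝ (S.Tr : Set E)) (x₀ : E)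
    (hfix : ∀ k : ℕ, q (L (γ₀ ^ k) x₀ + b (γ₀ ^ k)) = q x₀) : False := by
  classical
  obtain ⟨R, hR⟩ := StrB_bounded S.Tr
  have hinv : ∀ (γ : Γ) (x : E), L γ (L γ⁻¹ x + b γ⁻¹) + b γ = x := fun γ x => by
    rw [← StrB_act_mul S, mul_inv_cancel, map_one, S.one, add_zero]
    rfl
  have hC : IsCompact (closedBall x₀ R ∪ {x₀}) :=
    (isCompact_closedBall x₀ R).union isCompact_singleton
  have hfin := S.prop _ hC
  have key : ∀ k : ℕ, ∃ γ ∈ {γ : Γ | ((fun x => L γ x + b γ) '' (closedBall x₀ R ∪ {x₀}) ∩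
      (closedBall x₀ R ∪ {x₀})).Nonempty}, L γ = L γ₀ ^ k := by
    intro k
    set y : E := L (γ₀ ^ k) x₀ + b (γ₀ ^ k) with hy
    have hyW : y - x₀ ∈ Submodule.span ℝ (S.Tr : Set E) :=
      (hq _).1 (by rw [map_sub, hy, hfix, sub_self])
    obtain ⟨t, ⟨n, hn, hnt⟩, ht⟩ := hR _ hyW
    have hn' : L n⁻¹ = 1 := by rw [map_inv, hn, inv_one]
    refine ⟨n⁻¹ * γ₀ ^ k, ?_, by rw [map_mul, hn', one_mul, map_pow]⟩
    refine ⟨y - t, ⟨x₀, Or.inr rfl, ?_⟩, Or.inl ?_⟩
    · show L (n⁻¹ * γ₀ ^ k) x₀ + b (n⁻¹ * γ₀ ^ k) = y - t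
      rw [StrB_act_mul S, ← hy, hn']
      have h4 := hinv n y
      rw [hn', hn] at h4
      have h5 : b n⁻¹ = -t := by
        have h6 : y + b n⁻¹ + b n = y := h4
        rw [hnt] at h6
        have h7 : y + (b n⁻¹ + t) = y + 0 := by rw [add_zero, ← add_assoc]; exact h6
        exact eq_neg_of_add_eq_zero_left (add_left_cancel h7)
      rw [h5, sub_eq_add_neg]
      rfl
    · rw [mem_closedBall_iff_norm]
      have h8 : y - t - x₀ = y - x₀ - t := by abel
      rw [h8]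
      exact ht
  choose g hg1 hg2 using key
  have hinj : Function.Injective g := by
    intro i j hij
    have h1 : L γ₀ ^ i = L γ₀ ^ j := by rw [← hg2 i, ← hg2 j, hij]
    have h2 := S.inf ((i : ℤ) - j) (by
      rw [zpow_sub, zpow_natCast, zpow_natCast, h1, mul_inv_cancel])
    omega
  exact (Set.infinite_range_of_injective hinj) (hfin.subset (Set.range_subset_iff.2 hg1))

/-- A linear functional with kernel `W`, invariant under `L γ₀`, increased by one by `γ₀`.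
PROOF: take `ℓ ≠ 0` with kernel `W` (`finrank_quot`). `ℓ (L γ₀ x) = a ℓ x` for a real `a ≠ 0`. `|a| = 1`: `a` is
`det (L γ₀) / det (L γ₀ on W)` and `|det (L γ₀ on W)| = 1` by `abs_det_eq_one_of_lattice` in `W`
(block triangular determinant), or: if `|a| ≠ 1`, the map `t ↦ a t + ℓ (b γ₀)` of `ℝ` has a fixed point.
Indeed if `a ≠ 1` the affine map `t ↦ a t + ℓ (b γ₀)` has a fixed point `t₀ = ℓ x₀`; then the
elements `γ₀ ^ k`, corrected by translations `n_k`, move `x₀` inside the compact set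
`{ℓ = t₀} ∩ (x₀ + closure F₀)`: infinitely many elements, contradicting `prop`. So `a = 1`. The same
argument gives `ℓ (b γ₀) ≠ 0`. Rescale `ℓ`. -/
theorem AffCyc.exists_functional (S : AffCyc L b γ₀) :
    ∃ ℓ : E →ₗ[ℝ] ℝ, LinearMap.ker ℓ = Submodule.span ℝ (S.Tr : Set E) ∧
      (∀ x, ℓ (L γ₀ x) = ℓ x) ∧ ℓ (b γ₀) = 1 := by
  classical
  obtain ⟨e⟩ : Nonempty ((E ⧸ (Submodule.span ℝ (S.Tr : Set E))) ≃ₗ[ℝ] ℝ) :=
    ⟨LinearEquiv.ofFinrankEq _ _ (by rw [S.finrank_quot, Module.finrank_self])⟩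
  obtain ⟨q, hqdef⟩ : ∃ q : E →ₗ[ℝ] ℝ,
      q = e.toLinearMap ∘ₗ (Submodule.span ℝ (S.Tr : Set E)).mkQ := ⟨_, rfl⟩
  have hq0 : ∀ x, q x = 0 ↔ x ∈ Submodule.span ℝ (S.Tr : Set E) := fun x => by
    rw [hqdef]
    simp only [LinearMap.comp_apply, LinearEquiv.coe_coe, LinearEquiv.map_eq_zero_iff,
      Submodule.mkQ_apply, Submodule.Quotient.mk_eq_zero]
  have hqs : Function.Surjective q := by
    rw [hqdef]
    exact e.surjective.comp (Submodule.mkQ_surjective _)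
  have hA : ∀ w ∈ Submodule.span ℝ (S.Tr : Set E),
      L γ₀ w ∈ Submodule.span ℝ (S.Tr : Set E) := by
    intro w hw
    induction hw using Submodule.span_induction with
    | mem x hx => exact Submodule.subset_span ((S.tr_iff x).2 hx)
    | zero => rw [map_zero]; exact Submodule.zero_mem _
    | add x y _ _ hx hy => rw [map_add]; exact Submodule.add_mem _ hx hy
    | smul c x _ hx => rw [map_smul]; exact Submodule.smul_mem _ _ hx
  obtain ⟨x₁, hx₁⟩ := hqs 1
  obtain ⟨a, ha⟩ : ∃ a : ℝ, a = q (L γ₀ x₁) := ⟨_, rfl⟩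
  have hqa : ∀ x, q (L γ₀ x) = a * q x := by
    intro x
    have h1 : x - q x • x₁ ∈ Submodule.span ℝ (S.Tr : Set E) :=
      (hq0 _).1 (by rw [map_sub, map_smul, hx₁, smul_eq_mul, mul_one, sub_self])
    have h2 := (hq0 _).2 (hA _ h1)
    rw [map_sub, map_sub, map_smul, map_smul, ← ha, smul_eq_mul, sub_eq_zero] at h2
    rw [h2, mul_comm]
  have hstep : ∀ (t : ℝ), a * t + q (b γ₀) = t → False := by
    intro t ht
    obtain ⟨x₀, hx₀⟩ := hqs t
    refine StrC_no_fixed S q hq0 x₀ fun k => ?_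
    induction k with
    | zero =>
      rw [pow_zero, map_one, S.one, add_zero]
      rfl
    | succ k ih =>
      rw [pow_succ', StrB_act_mul S, map_add, hqa, ih, hx₀]
      exact ht
  have ha1 : a = 1 := by
    by_contra h
    refine hstep (q (b γ₀) / (1 - a)) ?_
    have h1 : 1 - a ≠ 0 := sub_ne_zero.2 (Ne.symm h)
    field_simp
    ring
  have hβ : q (b γ₀) ≠ 0 := by
    intro h
    exact hstep 0 (by rw [h]; ring)
  refine ⟨(q (b γ₀))⁻¹ • q, ?_, ?_, ?_⟩
  · rw [LinearMap.ker_smul _ _ (inv_ne_zero hβ)]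
    ext x
    rw [LinearMap.mem_ker]
    exact hq0 x
  · intro x
    rw [LinearMap.smul_apply, LinearMap.smul_apply, hqa, ha1, one_mul]
  · rw [LinearMap.smul_apply, smul_eq_mul, inv_mul_cancel₀ hβ]

end H83T
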