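import Pool.Agent.H.MP_7a8a58_gt.h83.StrC

set_option autoImplicit false

open Set Metric Topology Filter

namespace H83T

variable {E : Type*} [NormedAddCommGroup E] [NormedSpace ℝ E] [FiniteDimensional ℝ E]
variable {Γ : Type*} [Group Γ] {L : Γ →* (E ≃ₗ[ℝ] E)} {b : Γ → E} {γ₀ : Γ}

/-- A discrete additive subgroup whose real span is the kernel of a functional has an integral
basis, that is a real basis of the kernel. -/
theorem StrD_basis (T : AddSubgroup E) (hT : ∃ r > 0, ∀ w ∈ T, ‖w‖ < r → w = 0) {m : ℕ}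
    (hm : Module.finrank ℝ (Submodule.span ℝ (T : Set E)) = m) :
    ∃ B : Fin m → E, (∀ i, B i ∈ T) ∧ LinearIndependent ℝ B ∧
      (∀ w ∈ Submodule.span ℝ (T : Set E), ∃ f : Fin m → ℝ, w = ∑ i, f i • B i) ∧
      (∀ w : E, w ∈ T ↔ ∃ z : Fin m → ℤ, w = ∑ i, (z i : ℝ) • B i) := by
  classical
  obtain ⟨r, hr, hTr⟩ := hT
  set W : Submodule ℝ E := Submodule.span ℝ (T : Set E) with hW
  let f : W →ₗ[ℝ] E := W.subtype
  let Λ : Submodule ℤ W :=
    { carrier := {w : W | (w : E) ∈ T}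
      zero_mem' := T.zero_mem
      add_mem' := fun ha hb => T.add_mem ha hb
      smul_mem' := fun c x hx => by
        show ((c • x : W) : E) ∈ T
        rw [Submodule.coe_smul_of_tower]
        exact T.zsmul_mem hx c }
  have hΛ : ∀ w : W, w ∈ Λ ↔ (w : E) ∈ T := fun w => Iff.rfl
  have hd : DiscreteTopology Λ := by
    refine DiscreteTopology.of_forall_le_dist (r := r) hr ?_
    intro x y hxy
    by_contra hlt
    rw [not_le] at hlt
    apply hxy
    have h1 : ((x : W) : E) - ((y : W) : E) ∈ T := T.sub_mem x.2 y.2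
    have h2 : ‖((x : W) : E) - ((y : W) : E)‖ < r := by
      have h3 : dist x y = ‖((x : W) : E) - ((y : W) : E)‖ := by
        rw [Subtype.dist_eq, Subtype.dist_eq, dist_eq_norm]
      rwa [← h3]
    have h4 := hTr _ h1 h2
    exact Subtype.ext (Subtype.ext (sub_eq_zero.1 h4))
  have himg : f '' (Λ : Set W) = (T : Set E) := by
    ext w
    constructor
    · rintro ⟨x, hx, rfl⟩
      exact hx
    · intro hw
      exact ⟨⟨w, Submodule.subset_span hw⟩, hw, rfl⟩
  have hz : IsZLattice ℝ Λ := ⟨by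
    rw [← (Submodule.map_injective_of_injective (Submodule.injective_subtype W)).eq_iff,
      Submodule.map_span, Submodule.map_top, Submodule.range_subtype]
    show Submodule.span ℝ (f '' (Λ : Set W)) = W
    rw [himg]⟩
  have : Module.Finite ℤ Λ := ZLattice.module_finite ℝ Λ
  have : Module.Free ℤ Λ := ZLattice.module_free ℝ Λ
  have hrk : Module.finrank ℤ Λ = m := by rw [ZLattice.rank ℝ Λ, hm]
  let bT : Module.Basis (Fin m) ℤ Λ := Module.finBasisOfFinrankEq ℤ Λ hrk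
  let bW : Module.Basis (Fin m) ℝ W := bT.ofZLatticeBasis ℝ Λ
  have hbW : ∀ i, bW i = (bT i : W) := fun i => bT.ofZLatticeBasis_apply ℝ Λ i
  have hsum : ∀ g : Fin m → ℝ, ((∑ i, g i • (bT i : W) : W) : E) = ∑ i, g i • ((bT i : W) : E) :=
    fun g => by
      rw [Submodule.coe_sum]
      rfl
  refine ⟨fun i => ((bT i : W) : E), fun i => (bT i).2, ?_, ?_, ?_⟩
  · have h1 : LinearIndependent ℝ (fun i => (bT i : W)) := by
      have h2 := bW.linearIndependent
      have h3 : (⇑bW : Fin m → W) = fun i => (bT i : W) := funext hbW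
      rwa [h3] at h2
    exact h1.map' f (Submodule.ker_subtype W)
  · intro w hw
    refine ⟨fun i => bW.repr ⟨w, hw⟩ i, ?_⟩
    have h1 := bW.sum_repr ⟨w, hw⟩
    have h2 : (∑ i, bW.repr ⟨w, hw⟩ i • (bT i : W) : W) = ⟨w, hw⟩ := by
      rw [← h1]
      refine Finset.sum_congr rfl fun i _ => ?_
      rw [hbW, h1]
    rw [← hsum, h2]
  · intro w
    constructor
    · intro hw
      have hwW : w ∈ W := Submodule.subset_span hw
      let w' : Λ := ⟨⟨w, hwW⟩, hw⟩
      refine ⟨fun i => bT.repr w' i, ?_⟩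
      have h1 := bT.sum_repr w'
      have h2 : ((∑ i, bT.repr w' i • bT i : Λ) : W) = (⟨w, hwW⟩ : W) := by rw [h1]
      have h3 : (((∑ i, bT.repr w' i • bT i : Λ) : W) : E) = w := by rw [h2]
      rw [← h3, Submodule.coe_sum, Submodule.coe_sum]
      refine Finset.sum_congr rfl fun i _ => ?_
      rw [Submodule.coe_smul_of_tower, Submodule.coe_smul_of_tower, Int.cast_smul_eq_zsmul]
    · rintro ⟨z, rfl⟩
      refine sum_mem fun i _ => ?_
      rw [Int.cast_smul_eq_zsmul]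
      exact T.zsmul_mem (bT i).2 _

/-- Adapted coordinates.
PROOF: `m = finrank W`; a `ℤ`-basis of `Tr` is an `ℝ`-basis of `W = ker ℓ` (as in
`abs_det_eq_one_of_lattice`); take `e₀ ∈ E` with `ℓ e₀ = 1`; `Φ x = (coordinates of x - ℓ x • e₀, ℓ x)`.
`M` = matrix of `L γ₀` on `Tr` (`tr_iff`), `L γ₀ e₀ = e₀ + c`, `b γ₀ = e₀ + d` with `c, d ∈ W`. -/
theorem AffCyc.exists_coordinates (S : AffCyc L b γ₀) {m : ℕ} (hm : Module.finrank ℝ E = m + 1) :
    ∃ (Φ : E ≃ₗ[ℝ] ((Fin m → ℝ) × ℝ)) (M : GL (Fin m) ℤ) (c d : Fin m → ℝ),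
      (∀ w : E, w ∈ S.Tr ↔ ∃ z : Fin m → ℤ, Φ w = (rV z, 0)) ∧
      (∀ x : E, Φ (L γ₀ x + b γ₀) =
        ((rM M).mulVec (Φ x).1 + (Φ x).2 • c + d, (Φ x).2 + 1)) := by
  classical
  obtain ⟨ℓ, hker, hinv, hb⟩ := S.exists_functional
  have hWm : Module.finrank ℝ (Submodule.span ℝ (S.Tr : Set E)) = m := by
    have h1 := Submodule.finrank_quotient_add_finrank (Submodule.span ℝ (S.Tr : Set E))
    rw [S.finrank_quot, hm] at h1
    omega
  obtain ⟨B, hBT, hBi, hBs, hBz⟩ := StrD_basis S.Tr S.tr_discrete hWm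
  have hBl : ∀ i, ℓ (B i) = 0 := fun i => by
    have : B i ∈ LinearMap.ker ℓ := by
      rw [hker]
      exact Submodule.subset_span (hBT i)
    exact this
  -- the parametrisation
  let Ψ₀ : ((Fin m → ℝ) × ℝ) →ₗ[ℝ] E :=
    { toFun := fun p => ∑ i, p.1 i • B i + p.2 • b γ₀
      map_add' := fun p q => by
        simp only [Prod.fst_add, Prod.snd_add, Pi.add_apply, add_smul, Finset.sum_add_distrib]
        abel
      map_smul' := fun a p => by
        simp only [Prod.smul_fst, Prod.smul_snd, Pi.smul_apply, smul_eq_mul, mul_smul,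
          RingHom.id_apply, smul_add, Finset.smul_sum] }
  have hΨ₀ : ∀ p, Ψ₀ p = ∑ i, p.1 i • B i + p.2 • b γ₀ := fun _ => rfl
  have hℓΨ : ∀ p, ℓ (Ψ₀ p) = p.2 := fun p => by
    rw [hΨ₀, map_add, map_sum, map_smul, hb]
    simp [hBl]
  have hinj : Function.Injective Ψ₀ := by
    rw [injective_iff_map_eq_zero]
    intro p hp
    have h2 : p.2 = 0 := by rw [← hℓΨ p, hp, map_zero]
    have h1 : ∑ i, p.1 i • B i = 0 := by
      have h3 := hΨ₀ p
      rw [hp, h2, zero_smul, add_zero] at h3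
      exact h3.symm
    have h4 := Fintype.linearIndependent_iff.1 hBi p.1 h1
    exact Prod.ext (funext h4) h2
  have hfr : Module.finrank ℝ ((Fin m → ℝ) × ℝ) = Module.finrank ℝ E := by
    rw [hm, Module.finrank_prod, Module.finrank_fin_fun, Module.finrank_self]
  let Ψ : ((Fin m → ℝ) × ℝ) ≃ₗ[ℝ] E := LinearEquiv.ofInjectiveOfFinrankEq Ψ₀ hinj hfr
  have hΨ : ∀ p, Ψ p = ∑ i, p.1 i • B i + p.2 • b γ₀ := fun _ => rfl
  -- the matrix
  have hM : ∀ j, ∃ z : Fin m → ℤ, L γ₀ (B j) = ∑ i, (z i : ℝ) • B i := fun j =>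
    (hBz _).1 ((S.tr_iff _).2 (hBT j))
  choose zM hzM using hM
  have hN : ∀ j, ∃ z : Fin m → ℤ, (L γ₀).symm (B j) = ∑ i, (z i : ℝ) • B i := fun j =>
    (hBz _).1 ((S.tr_iff _).1 (by rw [LinearEquiv.apply_symm_apply]; exact hBT j))
  choose zN hzN using hN
  let M₀ : Matrix (Fin m) (Fin m) ℤ := fun i j => zM j i
  let N₀ : Matrix (Fin m) (Fin m) ℤ := fun i j => zN j i
  have hMN : ∀ (P Q : Matrix (Fin m) (Fin m) ℤ) (F G : E ≃ₗ[ℝ] E),
      (∀ j, F (B j) = ∑ i, (P i j : ℝ) • B i) → (∀ j, G (B j) = ∑ i, (Q i j : ℝ) • B i) →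
      (∀ x, F (G x) = x) → P * Q = 1 := by
    intro P Q F G hF hG hFG
    ext i j
    have h1 : F (G (B j)) = ∑ i, (((P * Q) i j : ℤ) : ℝ) • B i := by
      rw [hG, map_sum]
      simp_rw [map_smul, hF, Finset.smul_sum, smul_smul]
      rw [Finset.sum_comm]
      refine Finset.sum_congr rfl fun i _ => ?_
      rw [← Finset.sum_smul, Matrix.mul_apply]
      congr 1
      push_cast
      exact Finset.sum_congr rfl fun k _ => mul_comm _ _
    have h2 : ∑ i, ((((P * Q) i j : ℤ) : ℝ) - (if i = j then 1 else 0)) • B i = 0 := by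
      simp_rw [sub_smul]
      rw [Finset.sum_sub_distrib, ← h1, hFG]
      simp
    have h3 := Fintype.linearIndependent_iff.1 hBi _ h2 i
    have h4 : (((P * Q) i j : ℤ) : ℝ) = (((1 : Matrix (Fin m) (Fin m) ℤ) i j : ℤ) : ℝ) := by
      rw [sub_eq_zero] at h3
      rw [h3, Matrix.one_apply]
      split_ifs <;> simp
    exact_mod_cast h4
  let M : GL (Fin m) ℤ := ⟨M₀, N₀,
    hMN M₀ N₀ (L γ₀) (L γ₀).symm hzM hzN (fun x => (L γ₀).apply_symm_apply x),
    hMN N₀ M₀ (L γ₀).symm (L γ₀) hzN hzM (fun x => (L γ₀).symm_apply_apply x)⟩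
  have hMc : ∀ i j, rM M i j = ((zM j i : ℤ) : ℝ) := fun i j => rfl
  -- the vector `c`
  obtain ⟨c, hc⟩ := hBs (L γ₀ (b γ₀) - b γ₀) (by
    rw [← hker, LinearMap.mem_ker, map_sub, hinv, sub_self])
  refine ⟨Ψ.symm, M, c, 0, ?_, ?_⟩
  · intro w
    rw [hBz w]
    refine exists_congr fun z => ?_
    rw [LinearEquiv.symm_apply_eq, hΨ]
    simp [rV]
  · intro x
    obtain ⟨p, rfl⟩ := Ψ.surjective x
    rw [LinearEquiv.symm_apply_eq, LinearEquiv.symm_apply_apply, hΨ, hΨ, map_add, map_sum]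
    have h1 : L γ₀ (b γ₀) = b γ₀ + ∑ i, c i • B i := by rw [← hc]; abel
    have h2 : ∑ j, L γ₀ (p.1 j • B j) = ∑ i, ((rM M).mulVec p.1) i • B i := by
      simp_rw [map_smul, hzM, Finset.smul_sum, smul_smul]
      rw [Finset.sum_comm]
      refine Finset.sum_congr rfl fun i _ => ?_
      rw [← Finset.sum_smul]
      congr 1
      rw [Matrix.mulVec, dotProduct]
      exact Finset.sum_congr rfl fun k _ => by rw [hMc, mul_comm]
    rw [h2, map_smul, h1]
    simp only [Pi.add_apply, Pi.smul_apply, Pi.zero_apply, add_zero, smul_eq_mul, add_smul,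
      Finset.sum_add_distrib, smul_add, one_smul, mul_smul, Finset.smul_sum]
    abel

end H83T
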