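import Pool.Agent.H.MP_7a8a58_gt.h83.Cplt

set_option autoImplicit false

open Set Metric Topology Filter

namespace H83T

variable {E : Type*} [NormedAddCommGroup E] [NormedSpace ℝ E]
variable {X : Type*} [TopologicalSpace X]
variable {Γ : Type*} [Group Γ] [MulAction Γ X]

/-- Hypotheses of the cyclic case: developing pair `(D, L, b)` with `L γ ∈ ⟨A⟩`, `A = L γ₀`,
`|det A| = 1`, a compact set `K` meeting all orbits, and a uniform chart radius `ε` on `K`. -/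
structure CycSys (D : X → E) (L : Γ →* (E ≃ₗ[ℝ] E)) (b : Γ → E) (A : E ≃ₗ[ℝ] E) (γ₀ : Γ)
    (K : Set X) (ε : ℝ) : Prop where
  hD : IsLocalHomeomorph D
  eqv : ∀ (γ : Γ) (x : X), D (γ • x) = L γ (D x) + b γ
  cyc : ∀ γ : Γ, ∃ k : ℤ, L γ = A ^ k
  gen : L γ₀ = A
  hK : IsCompact K
  cov : ∀ x : X, ∃ γ : Γ, ∃ y ∈ K, x = γ • y
  ε_pos : 0 < ε
  chart : ∀ y ∈ K, closedBall (0 : E) ε ⊆ Dom D y
  det : |LinearMap.det (A : E →ₗ[ℝ] E)| = 1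

/-- `k` is a value of `P` at `x`. -/
def PK (L : Γ →* (E ≃ₗ[ℝ] E)) (A : E ≃ₗ[ℝ] E) (K : Set X) (x : X) (k : ℤ) : Prop :=
  ∃ γ : Γ, L γ = A ^ k ∧ ∃ y ∈ K, x = γ • y

theorem CycSys.exists_PK {D : X → E} {L : Γ →* (E ≃ₗ[ℝ] E)} {b : Γ → E} {A : E ≃ₗ[ℝ] E}
    {γ₀ : Γ} {K : Set X} {ε : ℝ} (S : CycSys D L b A γ₀ K ε) (x : X) : ∃ k, PK L A K x k := by
  obtain ⟨γ, y, hy, hx⟩ := S.cov x
  obtain ⟨k, hk⟩ := S.cyc γ
  exact ⟨k, γ, hk, y, hy, hx⟩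

/-- The situation is symmetric under `A ↦ A⁻¹`.
PROOF: `A ^ k = (A⁻¹) ^ (-k)`, `det A⁻¹ = (det A)⁻¹`. -/
theorem CycSys.inv {D : X → E} {L : Γ →* (E ≃ₗ[ℝ] E)} {b : Γ → E} {A : E ≃ₗ[ℝ] E}
    {γ₀ : Γ} {K : Set X} {ε : ℝ} (S : CycSys D L b A γ₀ K ε) :
    CycSys D L b A⁻¹ γ₀⁻¹ K ε := by
  refine ⟨S.hD, S.eqv, fun γ => ?_, ?_, S.hK, S.cov, S.ε_pos, S.chart, ?_⟩
  · obtain ⟨k, hk⟩ := S.cyc γ
    exact ⟨-k, by rw [hk, inv_zpow', neg_neg]⟩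
  · rw [map_inv, S.gen]
  · have h1 : LinearMap.det ((A⁻¹ : E ≃ₗ[ℝ] E) : E →ₗ[ℝ] E) *
        LinearMap.det (A : E →ₗ[ℝ] E) = 1 := by
      rw [← LinearMap.det_comp]
      have : ((A⁻¹ : E ≃ₗ[ℝ] E) : E →ₗ[ℝ] E) ∘ₗ (A : E →ₗ[ℝ] E) = LinearMap.id := by
        ext v
        exact A.symm_apply_apply v
      rw [this, LinearMap.det_id]
    have h2 := congrArg abs h1
    rw [abs_mul, S.det, mul_one, abs_one] at h2
    exact h2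

/-- PROOF: `equivariant` for `φ = (γ • ·)`. -/
theorem CycSys.smul_dom [T2Space X] [ContinuousConstSMul Γ X] {D : X → E}
    {L : Γ →* (E ≃ₗ[ℝ] E)} {b : Γ → E} {A : E ≃ₗ[ℝ] E}
    {γ₀ : Γ} {K : Set X} {ε : ℝ} (S : CycSys D L b A γ₀ K ε) (γ : Γ) {x : X} {v : E}
    (hv : v ∈ Dom D x) : L γ v ∈ Dom D (γ • x) ∧ ex D (γ • x) (L γ v) = γ • ex D x v := by
  exact equivariant S.hD (continuous_const_smul γ) (L γ : E →ₗ[ℝ] E)
    (fun x => S.eqv γ x) hv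

/-- PROOF: the above and its version for `γ⁻¹`. -/
theorem CycSys.smul_dom_iff [T2Space X] [ContinuousConstSMul Γ X] {D : X → E}
    {L : Γ →* (E ≃ₗ[ℝ] E)} {b : Γ → E} {A : E ≃ₗ[ℝ] E}
    {γ₀ : Γ} {K : Set X} {ε : ℝ} (S : CycSys D L b A γ₀ K ε) (γ : Γ) {x : X} {v : E} :
    L γ v ∈ Dom D (γ • x) ↔ v ∈ Dom D x := by
  refine ⟨fun h => ?_, fun h => (S.smul_dom γ h).1⟩
  have h1 := (S.smul_dom γ⁻¹ h).1
  rw [inv_smul_smul, map_inv] at h1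
  have h2 : (L γ)⁻¹ (L γ v) = v := (L γ).symm_apply_apply v
  rwa [h2] at h1

theorem CycSys.chart_PK [T2Space X] [ContinuousConstSMul Γ X] {D : X → E}
    {L : Γ →* (E ≃ₗ[ℝ] E)} {b : Γ → E} {A : E ≃ₗ[ℝ] E}
    {γ₀ : Γ} {K : Set X} {ε : ℝ} (S : CycSys D L b A γ₀ K ε) {x : X} {k : ℤ}
    (hk : PK L A K x k) {v : E} (hv : ‖v‖ ≤ ε) : (A ^ k) v ∈ Dom D x := by
  obtain ⟨γ, hγ, y, hy, rfl⟩ := hk
  have h1 : v ∈ Dom D y := S.chart y hy (by rwa [mem_closedBall, dist_zero_right])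
  have h2 := (S.smul_dom γ h1).1
  rwa [hγ] at h2

/-- Lemma B.
PROOF: `mem_Ec_of_small` with `δ = ε / (|C| + 1)`: for `x` take `k` with `PK L A K x k`
(`exists_PK`) and `w'` for this `k`; for `|t| < δ`, `t w' ∈ closedBall 0 ε`, so
`(A ^ k) (t w') ∈ Dom D x` and `t w₀ = (A ^ k) (t w') + t (w₀ - (A ^ k) w')` is in `Dom D x` by
`add_dom`. -/
theorem CycSys.lemmaB [T2Space X] [ContinuousConstSMul Γ X] {D : X → E}
    {L : Γ →* (E ≃ₗ[ℝ] E)} {b : Γ → E} {A : E ≃ₗ[ℝ] E}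
    {γ₀ : Γ} {K : Set X} {ε : ℝ} (S : CycSys D L b A γ₀ K ε) {w₀ : E}
    (h : ∃ C : ℝ, ∀ k : ℤ, ∃ w' : E, ‖w'‖ ≤ C ∧ w₀ - (A ^ k) w' ∈ Ec D S.hD) :
    w₀ ∈ Ec D S.hD := by
  obtain ⟨C, hC⟩ := h
  have hC1 : 0 < |C| + 1 := by positivity
  refine mem_Ec_of_small S.hD (δ := ε / (|C| + 1)) (div_pos S.ε_pos hC1) ?_
  intro x t ht
  obtain ⟨k, hk⟩ := S.exists_PK x
  obtain ⟨w', hw', hw⟩ := hC k
  have h1 : ‖t • w'‖ ≤ ε := by
    rw [norm_smul, Real.norm_eq_abs]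
    have h2 : ‖w'‖ ≤ |C| + 1 := hw'.trans ((le_abs_self C).trans (by linarith))
    calc |t| * ‖w'‖ ≤ ε / (|C| + 1) * (|C| + 1) :=
          mul_le_mul ht.le h2 (norm_nonneg _) (div_pos S.ε_pos hC1).le
      _ = ε := div_mul_cancel₀ _ hC1.ne'
  have h2 := S.chart_PK hk h1
  have h3 := (add_dom S.hD ((Ec D S.hD).smul_mem t hw) h2).1
  have h4 : (A ^ k) (t • w') + t • (w₀ - (A ^ k) w') = t • w₀ := by
    rw [map_smul, smul_sub]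
    abel
  rwa [h4] at h3

/-- PROOF: `L γ v ∈ Ec`: `t L γ v = L γ (t v) ∈ Dom D (γ • (γ⁻¹ • x))`. And `L γ⁻¹`. -/
theorem CycSys.Ec_iff [T2Space X] [ContinuousConstSMul Γ X] {D : X → E}
    {L : Γ →* (E ≃ₗ[ℝ] E)} {b : Γ → E} {A : E ≃ₗ[ℝ] E}
    {γ₀ : Γ} {K : Set X} {ε : ℝ} (S : CycSys D L b A γ₀ K ε) (γ : Γ) {v : E} :
    L γ v ∈ Ec D S.hD ↔ v ∈ Ec D S.hD := by
  have key : ∀ (γ : Γ) (v : E), v ∈ Ec D S.hD → L γ v ∈ Ec D S.hD := by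
    intro γ v hv x t
    have h1 := (S.smul_dom γ (hv (γ⁻¹ • x) t)).1
    rwa [smul_inv_smul, map_smul] at h1
  refine ⟨fun h => ?_, key γ v⟩
  have h1 := key γ⁻¹ _ h
  rw [map_inv] at h1
  have h2 : (L γ)⁻¹ (L γ v) = v := (L γ).symm_apply_apply v
  rwa [h2] at h1

/-- Comparability of `P`.
PROOF: `K₁ = (fun p => ex D p.1 p.2) '' (K ×ˢ closedBall 0 ε)` is compact (`continuousOn_ex2`, `E`
proper). By proper discontinuity the set `F` of `γ` with `γ • K₁ ∩ K ≠ ∅` is finite, hence the set of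
`m : ℤ` with `A ^ m ∈ L '' F` is finite (`m ↦ A ^ m` is injective by `hinf`), bounded by `C`.
If `x = γ • y`, `L γ = A ^ k`, then `ex D x ((A ^ k) v) = γ • ex D y v` (`smul_dom`); if this is
`γ' • y'`, `L γ' = A ^ l`, then `γ'⁻¹ γ ∈ F` and `L (γ'⁻¹ γ) = A ^ (k - l)`. -/
theorem CycSys.comparable [T2Space X] [ContinuousConstSMul Γ X] [ProperlyDiscontinuousSMul Γ X]
    [FiniteDimensional ℝ E] {D : X → E}
    {L : Γ →* (E ≃ₗ[ℝ] E)} {b : Γ → E} {A : E ≃ₗ[ℝ] E}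
    {γ₀ : Γ} {K : Set X} {ε : ℝ} (S : CycSys D L b A γ₀ K ε)
    (hinf : ∀ k : ℤ, A ^ k = 1 → k = 0) :
    ∃ C : ℤ, ∀ (x : X) (k : ℤ) (v : E) (l : ℤ), PK L A K x k → ‖v‖ ≤ ε →
      PK L A K (ex D x ((A ^ k) v)) l → |k - l| ≤ C := by
  classical
  set K₁ : Set X := (fun p : X × E => ex D p.1 p.2) '' (K ×ˢ closedBall (0 : E) ε) with hK₁
  have hK₁c : IsCompact K₁ := by
    refine (S.hK.prod (isCompact_closedBall 0 ε)).image_of_continuousOn ?_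
    exact (continuousOn_ex2 S.hD).mono (fun p hp => S.chart p.1 hp.1 hp.2)
  have hfin : Set.Finite {γ : Γ | (((γ • ·) '' K₁) ∩ K).Nonempty} := by
    exact ProperlyDiscontinuousSMul.finite_disjoint_inter_image (Γ := Γ) hK₁c S.hK
  -- exponents
  have hfin2 : Set.Finite {m : ℤ | ∃ γ : Γ, (((γ • ·) '' K₁) ∩ K).Nonempty ∧ L γ = A ^ m} := by
    choose f hf using S.cyc
    refine (hfin.image f).subset ?_
    rintro m ⟨γ, hγ, hm⟩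
    refine ⟨γ, hγ, ?_⟩
    have h1 : A ^ (f γ - m) = 1 := by
      rw [zpow_sub, ← hf γ, ← hm, mul_inv_cancel]
    have h2 := hinf _ h1
    linarith
  obtain ⟨C, hC⟩ := (hfin2.image (fun m : ℤ => |m|)).bddAbove
  refine ⟨C, ?_⟩
  intro x k v l hk hv hl
  obtain ⟨γ, hγ, y, hy, rfl⟩ := hk
  obtain ⟨γ', hγ', y', hy', hxy⟩ := hl
  have hvb : v ∈ closedBall (0 : E) ε := by rwa [mem_closedBall, dist_zero_right]
  have h1 := (S.smul_dom γ (S.chart y hy hvb)).2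
  rw [hγ] at h1
  rw [h1] at hxy
  refine hC ⟨k - l, ⟨γ'⁻¹ * γ, ⟨y', ⟨ex D y v, ⟨(y, v), ⟨hy, hvb⟩, rfl⟩, ?_⟩, hy'⟩, ?_⟩, rfl⟩
  · change (γ'⁻¹ * γ) • ex D y v = y'
    rw [mul_smul, hxy, inv_smul_smul]
  · rw [map_mul, map_inv, hγ, hγ', ← zpow_neg, ← zpow_add]
    congr 1
    ring

/-- Uniform chart radius on a compact set.
PROOF: `{p | p.2 ∈ Dom D p.1}` is open (`isOpen_dom2`) and contains `K ×ˢ {0}`; tube lemma
(`generalized_tube_lemma` or compactness of `K`), closed balls form a basis at `0`. -/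
theorem exists_chart_radius [T2Space X] {D : X → E} (hD : IsLocalHomeomorph D) {K : Set X}
    (hK : IsCompact K) : ∃ ε > 0, ∀ y ∈ K, closedBall (0 : E) ε ⊆ Dom D y := by
  have hopen := isOpen_dom2 hD
  obtain ⟨u, v, hu, hv, hKu, h0v, huv⟩ := generalized_tube_lemma hK (isCompact_singleton (x := (0 : E)))
    hopen (by
      rintro ⟨y, w⟩ ⟨_, hw⟩
      change w = 0 at hw
      change w ∈ Dom D y
      rw [hw]
      exact zero_mem_dom D y)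
  obtain ⟨ε, hε, hball⟩ := Metric.nhds_basis_closedBall.mem_iff.mp
    (hv.mem_nhds (h0v (mem_singleton (0 : E))))
  refine ⟨ε, hε, fun y hy w hw => ?_⟩
  exact huv (mk_mem_prod (hKu hy) (hball hw))

end H83T
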