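import Pool.Agent.H.MP_7a8a58_gt.h83.Lat

set_option autoImplicit false

open Set Metric Topology Filter

namespace H83T

private theorem Vc_pd {X : Type*} [TopologicalSpace X] {Γ : Type*} [Group Γ] [MulAction Γ X]
    [ProperlyDiscontinuousSMul Γ X] (G : Subgroup Γ) : ProperlyDiscontinuousSMul G X where
  finite_disjoint_inter_image := by
    intro K L hK hL
    have h := ProperlyDiscontinuousSMul.finite_disjoint_inter_image (Γ := Γ) hK hL
    exact h.preimage (f := fun γ : G => (γ : Γ)) Subtype.val_injective.injOn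

/-- Markus conjecture for virtually cyclic linear holonomy, real version.
PROOF: let `g = L γ₀` (an element of `L.range`) generate a subgroup of finite index of `L.range`. Let
`Γ' = Subgroup.comap L (zpowers g)` (finite index in `Γ`). It acts on `X` (`Subgroup` action),
`ProperlyDiscontinuousSMul` and `ContinuousConstSMul` are inherited, `L.restrict`, `b` restricted.
Cocompactness: if `R` is a finite set of representatives of the cosets `Γ' r`, then
`K' = ⋃ r ∈ R, r • K` is compact and `Γ' K' = X` (write `x = γ • y`, `γ = γ' r`).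
`exists_chart_radius` gives `ε` for `K'`. So `CycSys` holds with `A = L γ₀` and
`CycSys.complete` applies. -/
theorem markus_virtually_cyclic {E : Type*} [NormedAddCommGroup E] [NormedSpace ℝ E]
    [FiniteDimensional ℝ E] {X : Type*} [TopologicalSpace X] [T2Space X] [ConnectedSpace X]
    {Γ : Type*} [Group Γ] [MulAction Γ X] [ContinuousConstSMul Γ X]
    [ProperlyDiscontinuousSMul Γ X] (D : X → E) (L : Γ →* (E ≃ₗ[ℝ] E)) (b : Γ → E)
    (hD : IsLocalHomeomorph D) (heq : ∀ (γ : Γ) (x : X), D (γ • x) = L γ (D x) + b γ)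
    (hco : ∃ K : Set X, IsCompact K ∧ ∀ x : X, ∃ γ : Γ, γ • x ∈ K)
    (hdet : ∀ γ : Γ, |LinearMap.det (L γ : E →ₗ[ℝ] E)| = 1)
    (hvc : ∃ g : L.range, (Subgroup.zpowers g).FiniteIndex) : IsHomeomorph D := by
  obtain ⟨g, hg⟩ := hvc
  obtain ⟨γ₀, hγ₀⟩ := L.rangeRestrict_surjective g
  obtain ⟨K, hK, hKc⟩ := hco
  set G : Subgroup Γ := (Subgroup.zpowers g).comap L.rangeRestrict with hGdef
  have hGi : G.FiniteIndex := by
    constructor
    rw [hGdef, Subgroup.index_comap_of_surjective _ L.rangeRestrict_surjective]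
    exact hg.index_ne_zero
  have hcyc : ∀ γ : G, ∃ k : ℤ, L γ = (L γ₀) ^ k := by
    intro γ
    have h1 : L.rangeRestrict γ ∈ Subgroup.zpowers g := γ.2
    obtain ⟨k, hk⟩ := Subgroup.mem_zpowers_iff.1 h1
    refine ⟨k, ?_⟩
    have h2 := congrArg (fun y : L.range => (y : E ≃ₗ[ℝ] E)) hk
    rw [← hγ₀] at h2
    simpa using h2.symm
  have hγG : γ₀ ∈ G := by
    show L.rangeRestrict γ₀ ∈ Subgroup.zpowers g
    rw [hγ₀]
    exact Subgroup.mem_zpowers g
  have : ProperlyDiscontinuousSMul G X := Vc_pd G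
  have : ContinuousConstSMul G X := ⟨fun γ => continuous_const_smul (γ : Γ)⟩
  have : Finite (Γ ⧸ G) := Subgroup.finite_quotient_of_finiteIndex
  set K' : Set X := ⋃ q : Γ ⧸ G, (fun y : X => (Quotient.out q)⁻¹ • y) '' K with hK'
  have hK'c : IsCompact K' := by
    apply isCompact_iUnion
    intro q
    exact hK.image (continuous_const_smul _)
  obtain ⟨ε, hε, hch⟩ := exists_chart_radius hD hK'c
  have S : CycSys D (L.comp G.subtype) (fun γ : G => b γ) (L γ₀) (⟨γ₀, hγG⟩ : G) K' ε := by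
    refine ⟨hD, fun γ x => heq γ x, hcyc, rfl, hK'c, fun x => ?_, hε, hch, hdet γ₀⟩
    obtain ⟨γ, hγ⟩ := hKc x
    have h1 : (Quotient.out (QuotientGroup.mk γ : Γ ⧸ G))⁻¹ * γ ∈ G := by
      rw [← QuotientGroup.eq]
      exact Quotient.out_eq _
    refine ⟨(⟨_, h1⟩ : G)⁻¹, (Quotient.out (QuotientGroup.mk γ : Γ ⧸ G))⁻¹ • γ • x,
      mem_iUnion.2 ⟨QuotientGroup.mk γ, γ • x, hγ, rfl⟩, ?_⟩
    rw [Subgroup.smul_def, Subgroup.coe_inv, smul_smul, smul_smul]
    have h2 : ((Quotient.out (QuotientGroup.mk γ : Γ ⧸ G))⁻¹ * γ)⁻¹ *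
        (Quotient.out (QuotientGroup.mk γ : Γ ⧸ G))⁻¹ * γ = 1 := by group
    show x = (((Quotient.out (QuotientGroup.mk γ : Γ ⧸ G))⁻¹ * γ)⁻¹ *
        (Quotient.out (QuotientGroup.mk γ : Γ ⧸ G))⁻¹ * γ) • x
    rw [h2, one_smul]
  exact S.complete

end H83T
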